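import Pool.Agent.HPM.Stmts
import Pool.Agent.Lib_helper26.AC.Core
import Pool.Agent.Lib_helper26.AC.Block

/-!
The lower bound for suitable conditions (after the modules Core and Block of Lib_helper26/AC, with
other parameters).
-/

set_option autoImplicit false

namespace Pool.Agent.HPM.BLK

open Finset Pool.Agent.Lib_helper20.SRO Pool.Agent.Lib_helper20.LG Pool.Agent.Lib_helper26.AC

/-- the numerical end of the proof -/
lemma numeric' {n r R B a N A m s t : ℕ} (hr : 1 ≤ r) (hR : 1 ≤ R) (hB : 128 * (r * R) ≤ B)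
    (hn : B * B ≤ n) (ha : 1 ≤ a) (hm : m ≤ 2 ^ t) (hs : 64 * R * s ≤ n)
    (ht : 64 * R * (t + 1) ≤ n) (hA : 2 ^ n ≤ 2 ^ s * A)
    (hA2 : A * 2 ^ (n / (8 * R)) ≤ N ^ (r + 1) * (2 ^ r * n * (2 * (m * (2 ^ n * a ^ r))))) :
    (2 : ℝ) ^ ((n : ℝ) / B) ≤ a * N := by
  by_contra hcon
  rw [not_le] at hcon
  have hB0 : 0 < B := lt_of_lt_of_le (by positivity) hB
  have hBr : (0 : ℝ) < B := by exact_mod_cast hB0
  have hn0 : 0 < n := lt_of_lt_of_le (by positivity) hn
  set ℓ := Nat.log 2 n with hℓ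
  have hnℓ : n ≤ 2 ^ (ℓ + 1) := (Nat.lt_pow_succ_log_self (by norm_num) n).le
  set u := n / (8 * R) with hu
  -- the main inequality
  have h1 : 2 ^ u ≤ 2 ^ (s + (t + 1) + r + (ℓ + 1)) * (a * N) ^ (r + 1) := by
    have h2 : 2 ^ n * 2 ^ u ≤ 2 ^ n * (2 ^ (s + (t + 1) + r + (ℓ + 1)) * (a * N) ^ (r + 1)) := by
      calc 2 ^ n * 2 ^ u ≤ 2 ^ s * A * 2 ^ u := Nat.mul_le_mul_right _ hA
        _ = 2 ^ s * (A * 2 ^ u) := by ring
        _ ≤ 2 ^ s * (N ^ (r + 1) * (2 ^ r * n * (2 * (m * (2 ^ n * a ^ r))))) :=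
            Nat.mul_le_mul_left _ hA2
        _ ≤ 2 ^ s * (N ^ (r + 1) * (2 ^ r * 2 ^ (ℓ + 1) * (2 * (2 ^ t * (2 ^ n * a ^ (r + 1)))))) := by
            gcongr
            omega
        _ = 2 ^ n * (2 ^ (s + (t + 1) + r + (ℓ + 1)) * (a * N) ^ (r + 1)) := by
            rw [mul_pow]
            ring
    exact Nat.le_of_mul_le_mul_left h2 (by positivity)
  have h2 : (2 : ℝ) ^ (u : ℝ) ≤
      2 ^ (((s + (t + 1) + r + (ℓ + 1) : ℕ) : ℝ) + (n : ℝ) / B * (r + 1)) := by
    rw [Real.rpow_natCast, Real.rpow_add (by norm_num), Real.rpow_natCast]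
    have h3 : ((2 ^ u : ℕ) : ℝ) ≤
        ((2 ^ (s + (t + 1) + r + (ℓ + 1)) * (a * N) ^ (r + 1) : ℕ) : ℝ) := by
      exact_mod_cast h1
    push_cast at h3 ⊢
    refine h3.trans (mul_le_mul_of_nonneg_left ?_ (by positivity))
    calc ((a : ℝ) * N) ^ (r + 1) ≤ ((2 : ℝ) ^ ((n : ℝ) / B)) ^ (r + 1) :=
          pow_le_pow_left₀ (by positivity) hcon.le _
      _ = 2 ^ ((n : ℝ) / B * (r + 1)) := by
          rw [← Real.rpow_natCast, ← Real.rpow_mul (by norm_num)]
          push_cast
          rfl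
  have h3 := (Real.rpow_le_rpow_left_iff (by norm_num : (1 : ℝ) < 2)).1 h2
  -- the sizes
  have hRr : (0 : ℝ) < R := by exact_mod_cast hR
  have hrr : (1 : ℝ) ≤ r := by exact_mod_cast hr
  set D : ℝ := (n : ℝ) / (64 * R) with hD
  have e1 : 8 * D - 1 ≤ (u : ℝ) := by
    have h5 : (n : ℝ) / (8 * R) < (u : ℝ) + 1 := by
      have := Nat.lt_floor_add_one ((n : ℝ) / ((8 * R : ℕ) : ℝ))
      rw [Nat.floor_div_eq_div] at this
      push_cast at this
      rw [hu]
      exact this
    have h6 : 8 * D = (n : ℝ) / (8 * R) := by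
      rw [hD]
      field_simp
      norm_num
    linarith
  have e2 : (n : ℝ) / B * (r + 1) ≤ D := by
    rw [hD, div_mul_eq_mul_div, div_le_div_iff₀ hBr (by positivity)]
    have h5 : (128 * (r * R) : ℝ) ≤ B := by exact_mod_cast hB
    have h6 : ((r : ℝ) + 1) * (64 * R) ≤ B := by nlinarith
    have h7 : (0 : ℝ) ≤ n := Nat.cast_nonneg n
    calc (n : ℝ) * (r + 1) * (64 * R) = n * ((r + 1) * (64 * R)) := by ring
      _ ≤ n * B := mul_le_mul_of_nonneg_left h6 h7
  have e3 : (r : ℝ) ≤ D := by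
    rw [hD, le_div_iff₀ (by positivity)]
    have h5 : r * (64 * R) ≤ n := by
      have h6 : B ≤ B * B := Nat.le_mul_of_pos_left _ hB0
      have h7 : r * (64 * R) = 64 * (r * R) := by ring
      omega
    exact_mod_cast h5
  have e4 : ((ℓ + 1 : ℕ) : ℝ) ≤ D := by
    rw [hD, le_div_iff₀ (by positivity)]
    have hp : ∀ p : ℕ, 6 ≤ p → (p + 1) ^ 2 ≤ 2 ^ p := by
      intro p hp
      induction p, hp using Nat.le_induction with
      | base => norm_num
      | succ p hp ih =>
        rw [pow_succ 2 p]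
        nlinarith
    have h128 : 128 ≤ B := by nlinarith [Nat.mul_le_mul hr hR]
    have hn2 : 2 ^ 14 ≤ n := by
      calc 2 ^ 14 = 128 * 128 := by norm_num
        _ ≤ B * B := Nat.mul_le_mul h128 h128
        _ ≤ n := hn
    have hl : 14 ≤ ℓ := Nat.le_log_of_pow_le (by norm_num) hn2
    have h6 : (ℓ + 1) ^ 2 ≤ n := (hp _ (by omega)).trans (Nat.pow_log_le_self 2 hn0.ne')
    have h7 := root_le h6 hn
    have h5 : (ℓ + 1) * (64 * R) ≤ n := by
      have h8 : R ≤ r * R := Nat.le_mul_of_pos_left _ hr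
      calc (ℓ + 1) * (64 * R) ≤ (ℓ + 1) * B := Nat.mul_le_mul_left _ (by omega)
        _ ≤ n := h7
    exact_mod_cast h5
  have e5 : (s : ℝ) ≤ D := by
    rw [hD, le_div_iff₀ (by positivity)]
    have : s * (64 * R) ≤ n := by rw [mul_comm]; exact hs
    exact_mod_cast this
  have e6 : ((t + 1 : ℕ) : ℝ) ≤ D := by
    rw [hD, le_div_iff₀ (by positivity)]
    have : (t + 1) * (64 * R) ≤ n := by rw [mul_comm]; exact ht
    exact_mod_cast this
  have e7 : (1 : ℝ) ≤ D := by linarith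
  have e8 : ((s + (t + 1) + r + (ℓ + 1) : ℕ) : ℝ) =
      (s : ℝ) + ((t + 1 : ℕ) : ℝ) + (r : ℝ) + ((ℓ + 1 : ℕ) : ℝ) := by
    push_cast
    ring
  rw [e8] at h3
  linarith

/-- The lower bound for a program all of whose accepted inputs are accepted by a function without
large rectangles, and which accepts many inputs by short walks. -/
theorem core3 {k n c : ℕ} (hk : 1 ≤ k) (hn : bnd k * bnd k ≤ n) (hc : 1 ≤ c) {N : Type} [Fintype N]
    {G : NBP (Fin n) N} {f : (Fin n → Bool) → Bool} {m a s t : ℕ} {Z : Finset (Fin n → Bool)}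
    (hamb : ∀ (b : Fin n → Bool) (u v : N),
      {V | ∃ l, Walk G u v l ∧ Agrees b l ∧ vars l = V}.encard ≤ a)
    (htests : ∀ b ∈ Z, ∃ l, Walk G G.source G.sink l ∧ Agrees b l ∧ l.length ≤ k * n)
    (hcomp : ∀ b, G.Accepts b → f b = true) (hm : m ≤ 2 ^ t) (hrect : RectFree f m)
    (hs : 64 * gp k * s ≤ n) (ht : 64 * gp k * (t + 1) ≤ n)
    (hdense : 2 ^ n ≤ 2 ^ s * (c * Z.card)) :
    (2 : ℝ) ^ ((n : ℝ) / bnd k) ≤ c * a * Fintype.card N := by
  classical
  have hB : 128 * (sg k * gp k) ≤ bnd k := bnd_ge hk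
  have hs0 : 0 < sg k := sg_pos
  have hg0 : 0 < gp k := gp_pos
  have h8 : 8 * gp k ≤ n := by
    have h1 : gp k ≤ sg k * gp k := Nat.le_mul_of_pos_left _ hs0
    have h2 : 1 ≤ bnd k := by
      have := Nat.mul_pos hs0 hg0
      omega
    have h3 : bnd k ≤ bnd k * bnd k := Nat.le_mul_of_pos_left _ h2
    omega
  have ha : 1 ≤ a := by
    have h1 := hamb (fun _ => false) G.source G.source
    have h2 : ({∅} : Set (Finset (Fin n))).encard ≤ a := by
      refine le_trans (Set.encard_le_encard ?_) h1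
      rintro l rfl
      exact ⟨[], Walk.nil _, fun t ht => by simp at ht, rfl⟩
    rw [Set.encard_singleton] at h2
    exact_mod_cast h2
  set h : ℕ := k * n / sg k + 1 with hh
  have hh2 : k * n ≤ sg k * h := by
    have h2 := Nat.div_add_mod (k * n) (sg k)
    have h3 := Nat.mod_lt (k * n) hs0
    have h4 : sg k * h = sg k * (k * n / sg k) + sg k := by
      rw [hh]
      ring
    omega
  -- the walks
  have hex : ∀ x : Fin n → Bool, ∃ (p : Fin (sg k + 1) → N)
      (w : Fin (sg k) → List (Fin n × Bool)),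
      x ∈ Z → p 0 = G.source ∧ Walk G (p (Fin.last (sg k))) G.sink [] ∧
        (∀ j : Fin (sg k), Walk G (p j.castSucc) (p j.succ) (w j)) ∧ (∀ j, (w j).length ≤ h) ∧
        (∀ j, Agrees x (w j)) ∧ ∑ j, (w j).length ≤ k * n := by
    intro x
    by_cases hx : x ∈ Z
    · obtain ⟨l, hl, hag, hlen⟩ := htests x hx
      obtain ⟨p, s, hp0, hpr, hs, hmem, hsum⟩ := Pool.Agent.Lib_helper20.LG.cut h (sg k)
        G.source G.sink l hl (hlen.trans hh2)
      refine ⟨fun j => p j, fun j => s j, fun _ => ⟨hp0, hpr, ?_, ?_, ?_, ?_⟩⟩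
      · intro j
        exact (hs j j.2).1
      · intro j
        exact (hs j j.2).2
      · intro j t ht
        exact hag t ((hmem t).2 ⟨j, j.2, ht⟩)
      · rw [Finset.sum_range] at hsum
        rw [hsum]
        exact hlen
    · exact ⟨fun _ => G.source, fun _ => [], fun h => absurd h hx⟩
  choose p w hw using hex
  have key : ∀ P : Fin (sg k + 1) → N, (Z.filter (fun x => p x = P)).card *
      2 ^ (n / (8 * gp k)) ≤ 2 ^ sg k * n * (2 * (m * (2 ^ n * a ^ sg k))) := by
    intro P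
    rcases (Z.filter (fun x => p x = P)).eq_empty_or_nonempty with h0 | ⟨x0, hx0⟩
    · rw [h0, card_empty, zero_mul]
      exact Nat.zero_le _
    have hmemP : ∀ x ∈ Z.filter (fun x => p x = P), x ∈ Z ∧ p x = P := by
      intro x hx
      rw [mem_filter] at hx
      exact hx
    apply fiber (w := w) (S := fun j => {l | Walk G (P j.castSucc) (P j.succ) l}) (f := f) hk h8
    · intro x hx j
      exact (hw x (hmemP x hx).1).2.2.2.2.1 j
    · intro x hx j
      have h1 := (hw x (hmemP x hx).1).2.2.1 j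
      rwa [(hmemP x hx).2] at h1
    · intro z j
      refine le_trans (Set.encard_le_encard ?_) (hamb z (P j.castSucc) (P j.succ))
      rintro V ⟨l, hl, hz, hV⟩
      exact ⟨l, hl, hz, hV⟩
    · intro z hz
      obtain ⟨l, hl, hzl⟩ := glue P hz (sg k) le_rfl
      have h1 := hw x0 (hmemP x0 hx0).1
      rw [(hmemP x0 hx0).2] at h1
      rw [h1.1] at hl
      have h2 := Pool.Agent.Lib_helper45.SRO.walk_append hl h1.2.1
      rw [List.append_nil] at h2
      exact hcomp z ⟨l, h2, hzl⟩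
    · exact hrect
    · exact ha
    · intro x hx
      have h1 := hw x (hmemP x hx).1
      rw [sum_seg']
      exact (Finset.sum_le_sum (fun j _ => card_vars_le' _)).trans h1.2.2.2.2.2
    · intro x hx j
      have h1 := hw x (hmemP x hx).1
      exact (card_vars_le' _).trans (h1.2.2.2.1 j)
  have hcard : Z.card * 2 ^ (n / (8 * gp k)) ≤ Fintype.card N ^ (sg k + 1) *
      (2 ^ sg k * n * (2 * (m * (2 ^ n * a ^ sg k)))) := by
    have h1 : Z.card = ∑ P : Fin (sg k + 1) → N, (Z.filter (fun x => p x = P)).card :=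
      Finset.card_eq_sum_card_fiberwise (f := p) (t := univ) (fun x _ => mem_coe.2 (mem_univ _))
    calc Z.card * 2 ^ (n / (8 * gp k)) = ∑ P : Fin (sg k + 1) → N,
          (Z.filter (fun x => p x = P)).card * 2 ^ (n / (8 * gp k)) := by
          rw [h1, Finset.sum_mul]
      _ ≤ ∑ _P : Fin (sg k + 1) → N, 2 ^ sg k * n * (2 * (m * (2 ^ n * a ^ sg k))) :=
          Finset.sum_le_sum (fun P _ => key P)
      _ = _ := by
          rw [Finset.sum_const, smul_eq_mul, card_univ, Fintype.card_fun, Fintype.card_fin]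
  have hcard2 : c * Z.card * 2 ^ (n / (8 * gp k)) ≤ Fintype.card N ^ (sg k + 1) *
      (2 ^ sg k * n * (2 * (m * (2 ^ n * (c * a) ^ sg k)))) := by
    have h1 : c ≤ c ^ sg k := Nat.le_self_pow hs0.ne' c
    calc c * Z.card * 2 ^ (n / (8 * gp k)) = c * (Z.card * 2 ^ (n / (8 * gp k))) := by ring
      _ ≤ c ^ sg k * (Fintype.card N ^ (sg k + 1) *
          (2 ^ sg k * n * (2 * (m * (2 ^ n * a ^ sg k))))) := Nat.mul_le_mul h1 hcard
      _ = _ := by
          rw [mul_pow]
          ring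
  have h1 := numeric' (a := c * a) hs0 hg0 hB hn (Nat.mul_pos hc ha) hm hs ht hdense hcard2
  push_cast at h1
  exact h1

/-- The lower bound for a program that works for the coefficients `c`. -/
theorem block_lower' {k n L m a s t : ℕ} {W : Type} (hk : 1 ≤ k) (hn : bnd k * bnd k ≤ n)
    (hL : 1 ≤ L) {N : Type} [Fintype N] {G : NBP (W ⊕ (Fin L × Fin n)) N} {c : W → Bool}
    {g : (Fin n → Bool) → Bool} (hm : m ≤ 2 ^ t) (hrect : RectFree g m)
    (hs : 64 * gp k * s ≤ n) (ht : 64 * gp k * (t + 1) ≤ n)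
    (hdense : 2 ^ n ≤ 2 ^ s * (univ.filter (fun b => g b = true)).card)
    (hacc : AccessPatternsAt G c a) (hfew : FewTestsAt G c (k * (n * L)))
    (hcomp : ∀ b : Fin L × Fin n → Bool, G.Accepts (Sum.elim c b) ↔
      ∀ l, g (fun j => b (l, j)) = true) :
    (2 : ℝ) ^ ((n : ℝ) / bnd k) ≤ L * a * Fintype.card N := by
  classical
  set Z0 : Finset (Fin n → Bool) := univ.filter (fun b => g b = true) with hZ0
  have hmem : ∀ b, b ∈ Z0 ↔ g b = true := fun b => by simp [hZ0]
  have hne : Z0.Nonempty := by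
    rw [← card_pos]
    by_contra h
    have h0 : Z0.card = 0 := by omega
    rw [h0, mul_zero] at hdense
    have : 0 < 2 ^ n := by positivity
    omega
  -- the input of a vector of points
  let inp : (Fin L → Fin n → Bool) → Fin L × Fin n → Bool := fun y q => y q.1 q.2
  have hinp : ∀ y, (∀ l, y l ∈ Z0) → G.Accepts (Sum.elim c (inp y)) := by
    intro y hy
    rw [hcomp]
    intro l
    exact (hmem _).1 (hy l)
  let S : Fin L → Finset (Fin L → Fin n → Bool) := fun l => univ.filter (fun y =>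
    ∃ w, Walk G G.source G.sink w ∧ Agrees (Sum.elim c (inp y)) w ∧ w.countP (inBlk l) ≤ k * n)
  have hS : ∀ y, (∀ l, y l ∈ Z0) → ∃ l, y ∈ S l := by
    intro y hy
    obtain ⟨w, hw, hag, hc⟩ := hfew (inp y) (hinp y hy)
    by_contra hcon
    push Not at hcon
    have h1 : ∀ l : Fin L, k * n + 1 ≤ w.countP (inBlk l) := by
      intro l
      have := hcon l
      simp only [S, mem_filter, mem_univ, true_and, not_exists, not_and, not_le] at this
      exact this w hw hag
    have h2 : L * (k * n + 1) ≤ k * (n * L) := by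
      calc L * (k * n + 1) = ∑ _l : Fin L, (k * n + 1) := by
            rw [Finset.sum_const, card_univ, Fintype.card_fin, smul_eq_mul]
        _ ≤ ∑ l : Fin L, w.countP (inBlk l) := Finset.sum_le_sum (fun l _ => h1 l)
        _ = w.countP (fun p => p.1.isRight) := sum_inBlk w
        _ ≤ _ := hc
    have h3 : L * (k * n + 1) = k * (n * L) + L := by ring
    omega
  obtain ⟨l0, y0, hy0, hcard⟩ := exists_line Z0 hne S hS
  set ψ := frz c y0 l0 with hψ
  have hup : ∀ b, ext ψ b = Sum.elim c (inp (Function.update y0 l0 b)) := fun b =>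
    ext_frz c y0 l0 b
  refine core3 (G := fixG G ψ) (f := g) (m := m)
    (Z := Z0.filter (fun z => Function.update y0 l0 z ∈ S l0)) hk hn hL ?_ ?_ ?_ hm hrect hs ht ?_
  · intro b u v
    have h1 := hacc (inp (Function.update y0 l0 b)) u v
    let F : Set (Fin L × Fin n) → Finset (Fin n) := fun T => univ.filter (fun j => (l0, j) ∈ T)
    refine le_trans (Set.encard_le_encard (t := F '' {S : Set (Fin L × Fin n) | ∃ l, Walk G u v l ∧
      Agrees (Sum.elim c (inp (Function.update y0 l0 b))) l ∧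
      S = {x | ∃ e, (Sum.inr x, e) ∈ l}}) ?_) (le_trans (Set.encard_image_le _ _) h1)
    rintro V ⟨l', hl', hb, hV⟩
    obtain ⟨l, hl, hp, ha⟩ := walk_liftG hl'
    refine ⟨{x | ∃ e, (Sum.inr x, e) ∈ l}, ⟨l, hl, ?_, rfl⟩, ?_⟩
    · rw [← hup]
      exact agrees_ext.2 ⟨by rw [hp]; exact hb, ha⟩
    · rw [← hV]
      ext j
      simp only [F, mem_filter, mem_univ, true_and, Set.mem_ofPred_eq]
      rw [Pool.Agent.Lib_helper20.LG.vars, List.mem_toFinset, List.mem_map, ← hp]
      constructor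
      · rintro ⟨e, he⟩
        exact ⟨(j, e), mem_pr.2 ⟨_, frz_inr.2 rfl, he⟩, rfl⟩
      · rintro ⟨⟨j', e⟩, he, rfl⟩
        obtain ⟨v', hv', he'⟩ := mem_pr.1 he
        rw [hψ, frz_inr] at hv'
        subst hv'
        exact ⟨e, he'⟩
  · intro b hb
    rw [mem_filter] at hb
    have h1 := hb.2
    simp only [S, mem_filter, mem_univ, true_and] at h1
    obtain ⟨w, hw, hag, hc⟩ := h1
    rw [← hup] at hag
    obtain ⟨h2, h3⟩ := agrees_ext.1 hag
    refine ⟨pr ψ w, walk_fixG hw h3, h2, ?_⟩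
    rw [hψ, pr_frz_length]
    exact hc
  · intro b hb
    rw [fixG_accepts, hup, hcomp] at hb
    have := hb l0
    simpa [inp] using this
  · calc 2 ^ n ≤ 2 ^ s * Z0.card := hdense
      _ ≤ 2 ^ s * (L * (Z0.filter (fun z => Function.update y0 l0 z ∈ S l0)).card) :=
          Nat.mul_le_mul_left _ hcard

/-- Module BLK. -/
theorem t_BLK : S_BLK := by
  intro k n L e a W N _ G c g hk hke hen hL hrect hdense hacc hfew hcomp
  have hbb : bnd k * bnd k = (k + 1) ^ (260 * k) := bnd_sq k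
  have hB0 : 0 < bnd k := Nat.pow_pos (Nat.succ_pos k)
  have hB : 128 * (sg k * gp k) ≤ bnd k := bnd_ge hk
  have hs0 : 0 < sg k := sg_pos
  have hg0 : 0 < gp k := gp_pos
  have hgB : 128 * gp k ≤ bnd k := by
    have h1 : gp k ≤ sg k * gp k := Nat.le_mul_of_pos_left _ hs0
    omega
  have hBe : bnd k * bnd k ≤ 2 ^ e := by rw [hbb]; exact hke
  have hn : bnd k * bnd k ≤ n := hBe.trans hen
  have h128 : 128 ≤ bnd k := by omega
  -- the exponent of the density
  have hs : 64 * gp k * (16 * n / 2 ^ e + 2) ≤ n := by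
    have h1 : 2048 * gp k ≤ 2 ^ e := by
      calc 2048 * gp k ≤ 128 * (128 * gp k) := by omega
        _ ≤ bnd k * bnd k := Nat.mul_le_mul h128 hgB
        _ ≤ 2 ^ e := hBe
    have h2 : 2 * (64 * gp k * (16 * n / 2 ^ e)) ≤ n := by
      have h3 : 16 * n / 2 ^ e * 2 ^ e ≤ 16 * n := Nat.div_mul_le_self _ _
      have h4 : 16 * n / 2 ^ e * (2048 * gp k) ≤ 16 * n :=
        (Nat.mul_le_mul_left _ h1).trans h3
      have h5 : 16 * n / 2 ^ e * (2048 * gp k) = 16 * (2 * (64 * gp k * (16 * n / 2 ^ e))) := by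
        ring
      omega
    have h3 : 2 * (64 * gp k * 2) ≤ n := by
      have h4 : bnd k * 2 ≤ bnd k * bnd k := Nat.mul_le_mul_left _ (by omega)
      omega
    have h4 : 64 * gp k * (16 * n / 2 ^ e + 2) =
        64 * gp k * (16 * n / 2 ^ e) + 64 * gp k * 2 := by ring
    omega
  -- the size of the rectangles
  have ht : 64 * gp k * (e + 1) ≤ n := by
    have hp : ∀ p : ℕ, 6 ≤ p → (p + 1) ^ 2 ≤ 2 ^ p := by
      intro p hp
      induction p, hp using Nat.le_induction with
      | base => norm_num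
      | succ p hp ih =>
        rw [pow_succ 2 p]
        nlinarith
    have h6 : 6 ≤ e := by
      by_contra hcon
      have h1 : 2 ^ e ≤ 2 ^ 5 := Nat.pow_le_pow_right (by norm_num) (by omega)
      have h2 : 128 * 128 ≤ bnd k * bnd k := Nat.mul_le_mul h128 h128
      omega
    have h7 := root_le ((hp e h6).trans hen) hn
    calc 64 * gp k * (e + 1) ≤ bnd k * (e + 1) := Nat.mul_le_mul_right _ (by omega)
      _ = (e + 1) * bnd k := Nat.mul_comm _ _
      _ ≤ n := h7
  have h1 := block_lower' hk hn hL (m := 2 ^ e) le_rfl hrect hs ht hdense hacc hfew hcomp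
  refine le_trans ?_ h1
  apply Real.rpow_le_rpow_of_exponent_le one_le_two
  apply div_le_div_of_nonneg_left (Nat.cast_nonneg _) (by exact_mod_cast hB0)
  have h3 : (bnd k : ℝ) ≤ ((k + 1) ^ (260 * k) : ℕ) := by
    rw [← hbb]
    exact_mod_cast Nat.le_mul_of_pos_left _ hB0
  refine h3.trans (le_of_eq ?_)
  push_cast
  rfl

end Pool.Agent.HPM.BLK
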