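import Pool.Agent.HPM.Stmts

/-!
# CARD: the number of the variables
-/

set_option autoImplicit false

namespace Pool.Agent.HPM

open Finset

lemma card_sq_le (e : ℕ) (he : 4 ≤ e) : e ^ 2 ≤ 2 ^ e := by
  induction e, he using Nat.le_induction with
  | base => norm_num
  | succ e he ih =>
    have h1 : (e + 1) ^ 2 ≤ 2 * e ^ 2 := by nlinarith
    calc (e + 1) ^ 2 ≤ 2 * e ^ 2 := h1
      _ ≤ 2 * 2 ^ e := Nat.mul_le_mul_left 2 ih
      _ = 2 ^ (e + 1) := by rw [pow_succ, mul_comm]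

lemma card_eq (n e L : ℕ) : Fintype.card (VarH n e L) =
    conds n e * (2 * deg n e + 2 * e) + (1 + digs n e L) + L * n := by
  simp only [VarH, Fintype.card_sum, Fintype.card_prod, Fintype.card_fin, Fintype.card_unit]
  ring

lemma card_digs {n e : ℕ} (hn : 0 < n) : digs n e (4 ^ e) ≤ Nat.log 2 n + 4 + 3 * e := by
  have h1 : n < 2 ^ (Nat.log 2 n + 1) := Nat.lt_pow_succ_log_self one_lt_two n
  have h2 : conds n e * 4 ^ e < 2 ^ (Nat.log 2 n + 4 + 3 * e) := by
    have h3 : (4 : ℕ) ^ e = 2 ^ (2 * e) := by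
      rw [pow_mul]
      norm_num
    have h4 : conds n e * 4 ^ e = n * 2 ^ (3 + 3 * e) := by
      unfold conds
      rw [h3, show 3 + 3 * e = 3 + (e + 2 * e) by ring, pow_add, pow_add]
      ring
    rw [h4, show Nat.log 2 n + 4 + 3 * e = Nat.log 2 n + 1 + (3 + 3 * e) by ring, pow_add 2
      (Nat.log 2 n + 1)]
    exact Nat.mul_lt_mul_of_pos_right h1 (by positivity)
  have h5 : Nat.log 2 (conds n e * 4 ^ e) < Nat.log 2 n + 4 + 3 * e := by
    apply Nat.log_lt_of_lt_pow _ h2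
    unfold conds
    positivity
  unfold digs
  omega

theorem t_CARD : S_CARD := by
  intro r hr
  refine ⟨2 ^ (r * (34 * r + 72)), fun n hn => ?_⟩
  have hn0 : 0 < n := lt_of_lt_of_le (by positivity) hn
  have hl : r * (34 * r + 72) ≤ Nat.log 2 n := Nat.le_log_of_pow_le one_lt_two hn
  have he : 34 * r + 72 ≤ Nat.log 2 n / r := by
    rw [Nat.le_div_iff_mul_le (by omega), mul_comm]
    exact hl
  have hlr : Nat.log 2 n < r * (Nat.log 2 n / r + 1) := Nat.lt_mul_div_succ _ (by omega)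
  generalize hE : Nat.log 2 n / r = e at he hlr ⊢
  have hd := card_digs (n := n) (e := e) hn0
  rw [card_eq]
  refine ⟨by rw [mul_comm n]; exact Nat.le_add_left _ _, ?_⟩
  set l := Nat.log 2 n with hl'
  have h1 : 17 * l + 51 * e + 21 ≤ 2 ^ e := by
    have h2 := card_sq_le e (by omega)
    have h3 : 17 * l + 51 * e + 21 ≤ e ^ 2 := by
      have h4 : 17 * l ≤ 17 * (r * (e + 1)) := by omega
      have h5 : r * e + (r + 1) ≤ r * e + e := by omega
      have h6 : (34 * r + 72) * e ≤ e * e := Nat.mul_le_mul_right e he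
      have h7 : r ≤ r * e := Nat.le_mul_of_pos_right r (by omega)
      nlinarith
    omega
  have h8 : (4 : ℕ) ^ e = 2 ^ e * 2 ^ e := by
    rw [← mul_pow]
    norm_num
  have h9 : 1 ≤ n * 2 ^ e := Nat.one_le_iff_ne_zero.2 (by positivity)
  have h10 : n * 2 ^ e * (17 * l + 51 * e + 21) ≤ n * 2 ^ e * 2 ^ e := Nat.mul_le_mul_left _ h1
  have h11 : 1 + digs n e (4 ^ e) ≤ n * 2 ^ e * (l + 5 + 3 * e) := by
    calc 1 + digs n e (4 ^ e) ≤ 1 * (l + 5 + 3 * e) := by omega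
      _ ≤ n * 2 ^ e * (l + 5 + 3 * e) := Nat.mul_le_mul_right _ h9
  have h12 : conds n e * (2 * deg n e + 2 * e) = n * 2 ^ e * (16 * l + 16 + 48 * e) := by
    unfold conds deg
    rw [← hl']
    ring
  rw [h12, h8]
  calc n * 2 ^ e * (16 * l + 16 + 48 * e) + (1 + digs n e (2 ^ e * 2 ^ e)) + 2 ^ e * 2 ^ e * n
      ≤ n * 2 ^ e * (16 * l + 16 + 48 * e) + n * 2 ^ e * (l + 5 + 3 * e) + 2 ^ e * 2 ^ e * n := by
        rw [← h8]
        omega
    _ = n * 2 ^ e * (17 * l + 51 * e + 21) + 2 ^ e * 2 ^ e * n := by ring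
    _ ≤ n * 2 ^ e * 2 ^ e + 2 ^ e * 2 ^ e * n := Nat.add_le_add_right h10 _
    _ = 2 * (n * (2 ^ e * 2 ^ e)) := by ring

end Pool.Agent.HPM
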