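import Pool.Agent.HPM.Stmts

/-!
# Module COL: two different points rarely have the same hash value
-/

set_option autoImplicit false

namespace Pool.Agent.HPM

open Finset

/-- the coordinates of `elt β a` -/
private lemma col_repr {h : ℕ} (β : Module.Basis (Fin h) (ZMod 2) (GaloisField 2 h))
    (a : Fin h → Bool) (i : Fin h) : β.repr (elt β a) i = if a i then 1 else 0 := by
  have e : elt β a = ∑ i, (if a i then (1 : ZMod 2) else 0) • β i := by
    unfold elt
    refine Finset.sum_congr rfl fun i _ => ?_
    split_ifs <;> simp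
  rw [e, Module.Basis.repr_sum_self]

private lemma col_elt_inj {h : ℕ} (β : Module.Basis (Fin h) (ZMod 2) (GaloisField 2 h)) :
    Function.Injective (elt β) := by
  intro a a' hh
  funext i
  have h1 := col_repr β a i
  rw [hh, col_repr β a' i] at h1
  rcases ha : a i with _ | _ <;> rcases ha' : a' i with _ | _ <;> rw [ha, ha'] at h1 <;>
    simp at h1 ⊢

/-- elements of the field with two elements are equal if they are `1` at the same time -/
private lemma col_zmod : ∀ u v : ZMod 2, (u = 1 ↔ v = 1) → u = v := by decide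

private lemma col_coord {n e : ℕ}
    (β : Module.Basis (Fin (deg n e)) (ZMod 2) (GaloisField 2 (deg n e)))
    (z z' : Fin n → Bool) (a b : Fin (deg n e) → Bool) (h : hash β a b z = hash β a b z')
    (i : Fin (2 * e)) :
    β.repr (elt β b * (val z (elt β a) - val z' (elt β a))) (Fin.castLE (two_e_le n e) i) = 0 := by
  have h1 := congrFun h i
  unfold hash at h1
  have h2 := decide_eq_decide.mp h1
  have h3 := col_zmod _ _ h2
  rw [mul_sub, map_sub, Finsupp.sub_apply, h3, sub_self]

/-- the polynomial `z - z'` -/
private noncomputable def colP {n h : ℕ} (z z' : Fin n → Bool) :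
    Polynomial (GaloisField 2 h) :=
  ∑ j : Fin n, Polynomial.C ((if z j then 1 else 0) - (if z' j then 1 else 0)) *
    Polynomial.X ^ (j : ℕ)

private lemma colP_eval {n h : ℕ} (z z' : Fin n → Bool) (a : GaloisField 2 h) :
    (colP z z').eval a = val z a - val z' a := by
  unfold colP val
  rw [Polynomial.eval_finsetSum, ← Finset.sum_sub_distrib]
  refine Finset.sum_congr rfl fun j _ => ?_
  simp only [Polynomial.eval_mul, Polynomial.eval_C, Polynomial.eval_pow, Polynomial.eval_X]
  split_ifs <;> simp

private lemma colP_coeff {n h : ℕ} (z z' : Fin n → Bool) (i : Fin n) :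
    (colP (h := h) z z').coeff i = (if z i then 1 else 0) - (if z' i then 1 else 0) := by
  unfold colP
  rw [Polynomial.finsetSum_coeff]
  rw [Finset.sum_eq_single i]
  · rw [Polynomial.coeff_C_mul, Polynomial.coeff_X_pow, if_pos rfl, mul_one]
  · intro j _ hj
    have h2 : ¬ (i : ℕ) = (j : ℕ) := fun h1 => hj (Fin.ext h1.symm)
    rw [Polynomial.coeff_C_mul, Polynomial.coeff_X_pow, if_neg h2, mul_zero]
  · intro h1
    exact absurd (Finset.mem_univ i) h1

private lemma colP_ne {n h : ℕ} (z z' : Fin n → Bool) (hz : z ≠ z') :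
    colP (h := h) z z' ≠ 0 := by
  intro h0
  apply hz
  funext i
  have h1 := colP_coeff (h := h) z z' i
  rw [h0, Polynomial.coeff_zero] at h1
  rcases ha : z i with _ | _ <;> rcases ha' : z' i with _ | _ <;> rw [ha, ha'] at h1 <;>
    simp at h1 ⊢

private lemma colP_deg {n h : ℕ} (z z' : Fin n → Bool) :
    (colP (h := h) z z').natDegree ≤ n := by
  unfold colP
  refine Polynomial.natDegree_sum_le_of_forall_le _ _ fun j _ => ?_
  exact (Polynomial.natDegree_C_mul_X_pow_le _ _).trans j.2.le

open Classical in
/-- few bit strings are roots -/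
private lemma col_roots {n h : ℕ} (β : Module.Basis (Fin h) (ZMod 2) (GaloisField 2 h))
    (z z' : Fin n → Bool) (hz : z ≠ z') :
    ((univ : Finset (Fin h → Bool)).filter fun a =>
      val z (elt β a) - val z' (elt β a) = 0).card ≤ n := by
  refine le_trans ?_ (colP_deg (h := h) z z')
  refine le_trans ?_ (Polynomial.card_roots' _)
  refine le_trans ?_ (Multiset.toFinset_card_le _)
  refine Finset.card_le_card_of_injOn (elt β) ?_ (col_elt_inj β).injOn
  intro a ha
  have ha' := (Finset.mem_filter.mp (Finset.mem_coe.mp ha)).2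
  rw [Finset.mem_coe, Multiset.mem_toFinset, Polynomial.mem_roots (colP_ne z z' hz)]
  rw [Polynomial.IsRoot.def, colP_eval]
  exact ha'

open Classical in
/-- functions that vanish at the first coordinates -/
private lemma col_vanish (h k : ℕ) (hk : 2 * k ≤ h) :
    4 ^ k * ((univ : Finset (Fin h → ZMod 2)).filter fun f =>
      ∀ i : Fin (2 * k), f (Fin.castLE hk i) = 0).card ≤ 2 ^ h := by
  have h1 : Fintype.card ((Fin (2 * k) → ZMod 2) × {f : Fin h → ZMod 2 //
      ∀ i : Fin (2 * k), f (Fin.castLE hk i) = 0}) ≤ Fintype.card (Fin h → ZMod 2) := by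
    refine Fintype.card_le_of_injective
      (fun p => fun j : Fin h => if hj : (j : ℕ) < 2 * k then p.1 ⟨j, hj⟩ else p.2.1 j) ?_
    rintro ⟨u, f, hf⟩ ⟨u', f', hf'⟩ hh
    have e1 : u = u' := by
      funext i
      have := congrFun hh (Fin.castLE hk i)
      simpa using this
    have e2 : f = f' := by
      funext j
      by_cases hj : (j : ℕ) < 2 * k
      · have a1 := hf ⟨j, hj⟩
        have a2 := hf' ⟨j, hj⟩
        have a3 : Fin.castLE hk ⟨(j : ℕ), hj⟩ = j := Fin.ext rfl
        rw [a3] at a1 a2
        rw [a1, a2]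
      · have := congrFun hh j
        simpa [hj] using this
    subst e1
    subst e2
    rfl
  rw [Fintype.card_prod, Fintype.card_fun, Fintype.card_fun, ZMod.card, Fintype.card_fin,
    Fintype.card_fin, Fintype.card_subtype, pow_mul] at h1
  exact h1

open Classical in
theorem t_COL : S_COL := by
  intro n e β z z' hn hz
  have hcard : Fintype.card ((Fin (deg n e) → Bool) × (Fin (deg n e) → Bool)) =
      2 ^ deg n e * 2 ^ deg n e := by
    simp
  have hc1 : ∀ a : Fin (deg n e) → Bool,
      4 ^ e * ((univ : Finset (Fin (deg n e) → Bool)).filter fun b =>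
        hash β a b z = hash β a b z').card ≤
      (if val z (elt β a) - val z' (elt β a) = 0 then 4 ^ e * 2 ^ deg n e else 0) +
        2 ^ deg n e := by
    intro a
    split_ifs with h0
    · refine le_trans ?_ (Nat.le_add_right _ _)
      apply Nat.mul_le_mul_left
      refine (Finset.card_le_univ _).trans ?_
      simp
    · rw [zero_add]
      refine le_trans ?_ (col_vanish (deg n e) e (two_e_le n e))
      apply Nat.mul_le_mul_left
      refine Finset.card_le_card_of_injOn
        (fun b => fun i => β.repr (elt β b * (val z (elt β a) - val z' (elt β a))) i) ?_ ?_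
      · intro b hb
        have hb' := (Finset.mem_filter.mp (Finset.mem_coe.mp hb)).2
        rw [Finset.mem_coe, Finset.mem_filter]
        exact ⟨Finset.mem_univ _, fun i => col_coord β z z' a b hb' i⟩
      · intro b _ b' _ hbb
        have h1 : β.repr (elt β b * (val z (elt β a) - val z' (elt β a))) =
            β.repr (elt β b' * (val z (elt β a) - val z' (elt β a))) := by
          ext i
          exact congrFun hbb i
        exact col_elt_inj β (mul_right_cancel₀ h0 (β.repr.injective h1))
  have hsum : (univ.filter fun σ : (Fin (deg n e) → Bool) × (Fin (deg n e) → Bool) =>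
      hash β σ.1 σ.2 z = hash β σ.1 σ.2 z').card =
      ∑ a : Fin (deg n e) → Bool, ((univ : Finset (Fin (deg n e) → Bool)).filter fun b =>
        hash β a b z = hash β a b z').card := by
    rw [Finset.card_filter, Fintype.sum_prod_type]
    refine Finset.sum_congr rfl fun a _ => ?_
    rw [Finset.card_filter]
  have hle : 4 ^ e * n ≤ 2 ^ deg n e := by
    have h1 : n < 2 ^ (Nat.log 2 n + 1) := Nat.lt_pow_succ_log_self (by norm_num) n
    have h2 : (4 : ℕ) ^ e = 2 ^ (2 * e) := by
      rw [pow_mul]
      norm_num
    unfold deg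
    rw [h2, pow_add 2 (Nat.log 2 n + 1) (2 * e), mul_comm]
    exact Nat.mul_le_mul_right _ h1.le
  rw [hsum, hcard, Finset.mul_sum]
  calc ∑ a : Fin (deg n e) → Bool, 4 ^ e * ((univ : Finset (Fin (deg n e) → Bool)).filter
        fun b => hash β a b z = hash β a b z').card
      ≤ ∑ a : Fin (deg n e) → Bool,
        ((if val z (elt β a) - val z' (elt β a) = 0 then 4 ^ e * 2 ^ deg n e else 0) +
          2 ^ deg n e) := Finset.sum_le_sum fun a _ => hc1 a
    _ = ((univ : Finset (Fin (deg n e) → Bool)).filter fun a =>
          val z (elt β a) - val z' (elt β a) = 0).card * (4 ^ e * 2 ^ deg n e) +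
          2 ^ deg n e * 2 ^ deg n e := by
        rw [Finset.sum_add_distrib, ← Finset.sum_filter, Finset.sum_const, Finset.sum_const,
          smul_eq_mul, smul_eq_mul, Finset.card_univ]
        simp
    _ ≤ n * (4 ^ e * 2 ^ deg n e) + 2 ^ deg n e * 2 ^ deg n e := by
        gcongr
        exact col_roots β z z' hz
    _ = (4 ^ e * n) * 2 ^ deg n e + 2 ^ deg n e * 2 ^ deg n e := by ring
    _ ≤ 2 ^ deg n e * 2 ^ deg n e + 2 ^ deg n e * 2 ^ deg n e := by gcongr
    _ = 2 * (2 ^ deg n e * 2 ^ deg n e) := by ring

end Pool.Agent.HPM
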