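import Pool.Agent.UM.Defs
import Pool.Agent.Lib_helper20.LG.Model
import Pool.Agent.Lib_helper26.AC.ModelT

/-!
# Counting the pairs of a point and a hash condition

The input consists of `L` points of `{0,1}^n`, of `8 n 2^e` hash conditions, of a polarity bit and of
the digits of a threshold. A point is read as a polynomial over the field with two elements, of
degree less than `n`. A hash condition is given by `a`, `b` in the field with `2 ^ deg n e` elements
and by `2 e` bits `s`: the first `2 e` coordinates of `b x(a)` are `s`.
-/

set_option autoImplicit false

namespace Pool.Agent.HPM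

open Finset
open Pool.Agent.Lib_helper26.AC (binary)

/-- the degree of the field: `n 4 ^ e < 2 ^ deg n e` -/
def deg (n e : ℕ) : ℕ := Nat.log 2 n + 1 + 2 * e

/-- the number of conditions -/
def conds (n e : ℕ) : ℕ := 8 * n * 2 ^ e

/-- the number of digits of the threshold -/
def digs (n e L : ℕ) : ℕ := Nat.log 2 (conds n e * L) + 1

/-- The input variables: for each condition the coordinates of `a` and `b` and the bits `s`; the
polarity bit; the digits of the threshold; the bits of the points. -/
abbrev VarH (n e L : ℕ) : Type :=
  ((Fin (conds n e) × ((Fin (deg n e) ⊕ Fin (deg n e)) ⊕ Fin (2 * e))) ⊕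
    (Unit ⊕ Fin (digs n e L))) ⊕ (Fin L × Fin n)

/-- the field element with the coordinates `a` -/
noncomputable def elt {h : ℕ} (β : Module.Basis (Fin h) (ZMod 2) (GaloisField 2 h))
    (a : Fin h → Bool) : GaloisField 2 h := ∑ i, if a i then β i else 0

/-- the value at `a` of the polynomial with the coefficients `x` -/
noncomputable def val {n h : ℕ} (x : Fin n → Bool) (a : GaloisField 2 h) : GaloisField 2 h :=
  ∑ j : Fin n, if x j then a ^ (j : ℕ) else 0

lemma two_e_le (n e : ℕ) : 2 * e ≤ deg n e := by
  unfold deg
  omega

/-- the hash value of `x`: the first `2 e` coordinates of `b x(a)` -/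
noncomputable def hash {n e : ℕ}
    (β : Module.Basis (Fin (deg n e)) (ZMod 2) (GaloisField 2 (deg n e)))
    (a b : Fin (deg n e) → Bool) (x : Fin n → Bool) : Fin (2 * e) → Bool := fun i =>
  decide (β.repr (elt β b * val x (elt β a)) (Fin.castLE (two_e_le n e) i) = 1)

/-- More than `θ` pairs of a condition and a point are such that the point satisfies the condition
(or, if the polarity bit is `true`, does not satisfy it). -/
noncomputable def hashF {n e L : ℕ}
    (β : Module.Basis (Fin (deg n e)) (ZMod 2) (GaloisField 2 (deg n e)))
    (v : VarH n e L → Bool) : Bool :=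
  decide (binary (fun i => v (Sum.inl (Sum.inr (Sum.inr i)))) <
    (univ.filter (fun q : Fin (conds n e) × Fin L =>
      decide (hash β (fun i => v (Sum.inl (Sum.inl (q.1, Sum.inl (Sum.inl i)))))
        (fun i => v (Sum.inl (Sum.inl (q.1, Sum.inl (Sum.inr i)))))
        (fun j => v (Sum.inr (q.2, j))) =
          fun i => v (Sum.inl (Sum.inl (q.1, Sum.inr i)))) ≠
        v (Sum.inl (Sum.inr (Sum.inl ()))))).card)

/-- A nonuniform machine with random access to the input bits `I`, with the states `V` (of its
memory), which guesses `b` bits at each step. The time and the state determine the bit of the input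
that is read; the time, the state, the value of this bit and the guessed bits determine the next
state. -/
structure GMach (b : ℕ) (I V : Type) where
  /-- initial state -/
  start : V
  /-- the input bit read at time `t` in state `v` -/
  query : ℕ → V → I
  /-- next state -/
  next : ℕ → V → Bool → (Fin b → Bool) → V
  /-- accepting states -/
  acc : V → Prop

/-- The state after `t` steps on input `x` with the guesses `c`. -/
def GMach.state {b : ℕ} {I V : Type} (M : GMach b I V) (x : I → Bool) (c : ℕ → Fin b → Bool) :
    ℕ → V
  | 0 => M.start
  | t + 1 => M.next t (M.state x c t) (x (M.query t (M.state x c t))) (c t)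

/-- NP mode with `b` guessed bits at each step: for some guesses the state after `T` steps is
accepting, exactly for the inputs in `L`; the guesses may influence the states in any way, but not
which input bits are read. -/
def InNP (b : ℕ) (I V : Type) (T : ℕ) (L : (I → Bool) → Prop) : Prop :=
  ∃ M : GMach b I V,
    (∀ x c c', ∀ t < T, M.query t (M.state x c t) = M.query t (M.state x c' t)) ∧
    ∀ x, L x ↔ ∃ c, M.acc (M.state x c T)

/-- The sets of inputs decided in `T` steps by machines with the states `V` which guess nothing and
read the input bit `σ t` at time `t`. -/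
def DecO (I V : Type) (T : ℕ) (σ : Fin T → I) (L : (I → Bool) → Prop) : Prop :=
  ∃ M : GMach 0 I V, (∀ (t : Fin T) v, M.query t v = σ t) ∧
    ∀ x, L x ↔ M.acc (M.state x (fun _ _ => false) T)

end Pool.Agent.HPM
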