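import Pool.Agent.HPM.Stmts
import Pool.Agent.Lib_helper20.LG.Avoid

/-!
Random hash conditions (after the modules Avoid and Off).
-/

set_option autoImplicit false

namespace Pool.Agent.HPM.HASH

open Finset Pool.Agent.Lib_helper20.SRO
open Pool.Agent.Lib_helper20.LG.Av (card_all mix Zof)

variable {n e : ℕ} {S : Type} [Fintype S] {H : S → (Fin n → Bool) → Fin (2 * e) → Bool}

/-- the point satisfies the condition -/
def hit (H : S → (Fin n → Bool) → Fin (2 * e) → Bool) (z : Fin n → Bool)
    (p : S × (Fin (2 * e) → Bool)) : Bool := decide (H p.1 z = p.2)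

lemma card_P : Fintype.card (S × (Fin (2 * e) → Bool)) = 4 ^ e * Fintype.card S := by
  rw [Fintype.card_prod, Fintype.card_fun, Fintype.card_bool, Fintype.card_fin, pow_mul, mul_comm]
  norm_num

lemma card_hit (z : Fin n → Bool) :
    (univ.filter (fun p : S × (Fin (2 * e) → Bool) => hit H z p = true)).card =
      Fintype.card S := by
  classical
  have h1 : univ.filter (fun p : S × (Fin (2 * e) → Bool) => hit H z p = true) =
      (univ : Finset S).image (fun σ => (σ, H σ z)) := by
    ext p
    simp only [hit, mem_filter, mem_univ, true_and, mem_image, decide_eq_true_iff]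
    constructor
    · intro h
      exact ⟨p.1, by rw [h]⟩
    · rintro ⟨σ, rfl⟩
      rfl
  rw [h1, card_image_of_injective _ (fun a b h => (Prod.mk.inj h).1), card_univ]

lemma card_hit2 (z z' : Fin n → Bool) :
    (univ.filter (fun p : S × (Fin (2 * e) → Bool) => hit H z p = true ∧ hit H z' p = true)).card =
      (univ.filter fun σ => H σ z = H σ z').card := by
  classical
  have h1 : univ.filter (fun p : S × (Fin (2 * e) → Bool) => hit H z p = true ∧ hit H z' p = true) =
      (univ.filter fun σ => H σ z = H σ z').image (fun σ => (σ, H σ z)) := by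
    ext p
    simp only [hit, mem_filter, mem_univ, true_and, mem_image, decide_eq_true_iff]
    constructor
    · rintro ⟨h, h'⟩
      exact ⟨p.1, by rw [h, h'], by rw [h]⟩
    · rintro ⟨σ, hσ, rfl⟩
      exact ⟨rfl, hσ.symm⟩
  rw [h1, card_image_of_injective _ (fun a b h => (Prod.mk.inj h).1)]

/-- at most two thirds of the conditions miss a set of `4 ^ e` points -/
lemma card_miss (hcol : ∀ z z' : Fin n → Bool, z ≠ z' →
      4 ^ e * (univ.filter fun σ => H σ z = H σ z').card ≤ 2 * Fintype.card S)
    (Z : Finset (Fin n → Bool)) (hZ : Z.card = 4 ^ e) :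
    3 * (univ.filter (fun p : S × (Fin (2 * e) → Bool) => ∀ z ∈ Z, hit H z p = false)).card ≤
      2 * Fintype.card (S × (Fin (2 * e) → Bool)) := by
  classical
  set h : S × (Fin (2 * e) → Bool) → ℕ := fun p => (Z.filter (fun z => hit H z p = true)).card
    with hh
  have s1 : ∑ p, h p = Fintype.card (S × (Fin (2 * e) → Bool)) := by
    have : ∀ p, h p = ∑ z ∈ Z, if hit H z p = true then 1 else 0 := by
      intro p
      simp only [hh, card_filter]
    rw [Finset.sum_congr rfl (fun p _ => this p), Finset.sum_comm]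
    have : ∀ z ∈ Z, ∑ p : S × (Fin (2 * e) → Bool), (if hit H z p = true then 1 else 0) =
        Fintype.card S := by
      intro z _
      rw [← card_filter, card_hit]
    rw [Finset.sum_congr rfl this, Finset.sum_const, smul_eq_mul, hZ, card_P]
  have s2 : ∑ p, h p ^ 2 ≤ 3 * Fintype.card (S × (Fin (2 * e) → Bool)) := by
    have e1 : ∀ p, h p ^ 2 =
        ∑ z ∈ Z, ∑ z' ∈ Z, if hit H z p = true ∧ hit H z' p = true then 1 else 0 := by
      intro p
      have : h p = ∑ z ∈ Z, if hit H z p = true then 1 else 0 := by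
        simp only [hh, card_filter]
      rw [this, sq, Finset.sum_mul_sum]
      refine Finset.sum_congr rfl fun z _ => Finset.sum_congr rfl fun z' _ => ?_
      by_cases h1 : hit H z p = true <;> by_cases h2 : hit H z' p = true <;> simp [h1, h2]
    rw [Finset.sum_congr rfl (fun p _ => e1 p), Finset.sum_comm]
    have e2 : ∀ z ∈ Z, ∑ p : S × (Fin (2 * e) → Bool), ∑ z' ∈ Z,
        (if hit H z p = true ∧ hit H z' p = true then 1 else 0) ≤ 3 * Fintype.card S := by
      intro z hz
      rw [Finset.sum_comm]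
      have e3 : ∀ z' ∈ Z, ∑ p : S × (Fin (2 * e) → Bool),
          (if hit H z p = true ∧ hit H z' p = true then 1 else 0) =
          if z = z' then Fintype.card S else (univ.filter fun σ => H σ z = H σ z').card := by
        intro z' _
        rw [← card_filter]
        by_cases h : z = z'
        · subst h
          rw [if_pos rfl]
          simp only [and_self]
          exact card_hit z
        · rw [if_neg h, card_hit2]
      rw [Finset.sum_congr rfl e3, ← Finset.add_sum_erase Z _ hz, if_pos rfl]
      have e4 : 4 ^ e * ∑ z' ∈ Z.erase z, (if z = z' then Fintype.card S else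
            (univ.filter fun σ => H σ z = H σ z').card) ≤ 4 ^ e * (2 * Fintype.card S) := by
        rw [Finset.mul_sum]
        have : ∀ z' ∈ Z.erase z, 4 ^ e * (if z = z' then Fintype.card S else
            (univ.filter fun σ => H σ z = H σ z').card) ≤ 2 * Fintype.card S := by
          intro z' hz'
          have h : z ≠ z' := (Finset.ne_of_mem_erase hz').symm
          rw [if_neg h]
          exact hcol z z' h
        refine (Finset.sum_le_sum this).trans ?_
        rw [Finset.sum_const, smul_eq_mul]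
        refine Nat.mul_le_mul_right _ ?_
        rw [← hZ]
        exact card_le_card (Finset.erase_subset _ _)
      have e5 := Nat.le_of_mul_le_mul_left e4 (by positivity)
      omega
    refine (Finset.sum_le_sum e2).trans ?_
    rw [Finset.sum_const, smul_eq_mul, hZ, card_P]
    apply le_of_eq
    ring
  have s3 : ∀ p, 6 * h p ≤ h p ^ 2 + 9 * (if h p ≠ 0 then 1 else 0) := by
    intro p
    by_cases h0 : h p = 0
    · simp [h0]
    · rw [if_pos h0]
      have : 1 ≤ h p := Nat.one_le_iff_ne_zero.mpr h0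
      nlinarith [sq_nonneg ((h p : ℤ) - 3)]
  have s4 := Finset.sum_le_sum (s := univ) (fun p _ => s3 p)
  rw [← Finset.mul_sum, Finset.sum_add_distrib, ← Finset.mul_sum, ← card_filter, s1] at s4
  have s5 := card_filter_add_card_filter_not (s := (univ : Finset (S × (Fin (2 * e) → Bool))))
    (fun p => h p ≠ 0)
  rw [card_univ] at s5
  have s6 : univ.filter (fun p : S × (Fin (2 * e) → Bool) => ∀ z ∈ Z, hit H z p = false)
      = univ.filter (fun p => ¬ h p ≠ 0) := by
    ext p
    simp only [mem_filter, mem_univ, true_and, not_not, hh, card_eq_zero, filter_eq_empty_iff]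
    refine forall_congr' fun z => forall_congr' fun _ => ?_
    simp
  rw [s6]
  omega

/-- few families miss a set of `4 ^ e` points -/
lemma card_missT (hcol : ∀ z z' : Fin n → Bool, z ≠ z' →
      4 ^ e * (univ.filter fun σ => H σ z = H σ z').card ≤ 2 * Fintype.card S) {R : ℕ}
    (Z : Finset (Fin n → Bool)) (hZ : Z.card = 4 ^ e) :
    2 ^ R * (univ.filter (fun P : Fin (2 * R) → S × (Fin (2 * e) → Bool) =>
      ∀ t, ∀ z ∈ Z, hit H z (P t) = false)).card ≤
      Fintype.card (Fin (2 * R) → S × (Fin (2 * e) → Bool)) := by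
  classical
  rw [card_all (fun p : S × (Fin (2 * e) → Bool) => ∀ z ∈ Z, hit H z p = false),
    Fintype.card_fun (α := Fin (2 * R)), Fintype.card_fin, pow_mul, pow_mul, ← mul_pow]
  refine Nat.pow_le_pow_left ?_ R
  have h1 := card_miss hcol Z hZ
  set a := (univ.filter (fun p : S × (Fin (2 * e) → Bool) => ∀ z ∈ Z, hit H z p = false)).card
  set b := Fintype.card (S × (Fin (2 * e) → Bool))
  have h2 : (3 * a) * (3 * a) ≤ (2 * b) * (2 * b) := Nat.mul_le_mul h1 h1
  nlinarith

lemma card_offT {T : ℕ} (z : Fin n → Bool) :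
    (univ.filter (fun P : Fin T → S × (Fin (2 * e) → Bool) => ∀ t, hit H z (P t) = false)).card
      = ((4 ^ e - 1) * Fintype.card S) ^ T := by
  classical
  rw [card_all (fun p : S × (Fin (2 * e) → Bool) => hit H z p = false)]
  congr 1
  have h1 := card_filter_add_card_filter_not (s := (univ : Finset (S × (Fin (2 * e) → Bool))))
    (fun p => hit H z p = true)
  rw [card_univ, card_hit, card_P] at h1
  have h2 : univ.filter (fun p : S × (Fin (2 * e) → Bool) => hit H z p = false)
      = univ.filter (fun p => ¬ hit H z p = true) := by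
    ext p; simp
  rw [h2, Nat.sub_mul, one_mul]
  omega

lemma frac {D T E s : ℕ} (hD : D = 2 * E) (hE : 0 < E) (hT : T ≤ E * s) :
    D ^ T ≤ 2 ^ s * (D - 1) ^ T := by
  have hE' : (0 : ℝ) < E := by exact_mod_cast hE
  have hE1 : (1 : ℝ) ≤ E := by exact_mod_cast hE
  have hD' : (D : ℝ) = 2 * E := by exact_mod_cast hD
  have hD0 : (0 : ℝ) < D := by rw [hD']; positivity
  set r : ℝ := 1 - 1 / D with hr
  have hr2 : 1 / (D : ℝ) ≤ 1 / 2 := by
    apply one_div_le_one_div_of_le (by norm_num)
    rw [hD']; linarith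
  have hr0 : 0 < r := by rw [hr]; linarith
  have hr1 : r ≤ 1 := by
    have : 0 < 1 / (D : ℝ) := by positivity
    rw [hr]; linarith
  have b1 : 1 / 2 ≤ r ^ E := by
    have h := one_add_mul_le_pow (a := -(1 / (D : ℝ))) (by linarith) E
    have e : 1 + (E : ℝ) * -(1 / (D : ℝ)) = 1 / 2 := by
      rw [hD']; field_simp; ring
    rw [e] at h
    have e2 : 1 + -(1 / (D : ℝ)) = r := by rw [hr]; ring
    rwa [e2] at h
  have b2 : (1 / 2 : ℝ) ^ s ≤ r ^ (E * s) := by
    rw [pow_mul]
    exact pow_le_pow_left₀ (by norm_num) b1 s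
  have b3 : (1 / 2 : ℝ) ^ s ≤ r ^ T := b2.trans (pow_le_pow_of_le_one hr0.le hr1 hT)
  have hDn : 1 ≤ D := by omega
  have b4 : (D : ℝ) ^ T ≤ 2 ^ s * ((D - 1 : ℕ) : ℝ) ^ T := by
    have e : ((D - 1 : ℕ) : ℝ) = D * r := by
      push_cast [hDn]
      rw [hr]; field_simp
    rw [e, mul_pow]
    have : (D : ℝ) ^ T * 1 ≤ (D : ℝ) ^ T * (2 ^ s * r ^ T) := by
      refine mul_le_mul_of_nonneg_left ?_ (by positivity)
      have := mul_le_mul_of_nonneg_left b3 (show (0 : ℝ) ≤ 2 ^ s by positivity)
      refine le_trans (le_of_eq ?_) this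
      rw [← mul_pow]
      norm_num
    linarith
  exact_mod_cast b4

lemma rect {T m : ℕ} (hm : m * m = 4 ^ e) (P : Fin T → S × (Fin (2 * e) → Bool))
    (hP : ¬ RectFree (fun x => decide (∀ t, H (P t).1 x ≠ (P t).2)) m) :
    ∃ i : Finset (Fin n) × (Fin m → Fin n → Bool) × (Fin m → Fin n → Bool),
      (Zof i).card = 4 ^ e ∧ ∀ t, ∀ z ∈ Zof i, hit H z (P t) = false := by
  unfold RectFree at hP
  push Not at hP
  obtain ⟨U, X, Y, hX, hY, hmX, hmY, h⟩ := hP
  obtain ⟨X', hX', hX'c⟩ := Finset.exists_subset_card_eq hmX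
  obtain ⟨Y', hY', hY'c⟩ := Finset.exists_subset_card_eq hmY
  set x : Fin m → Fin n → Bool := fun i => ((X'.equivFinOfCardEq hX'c).symm i : Fin n → Bool)
    with hx
  set y : Fin m → Fin n → Bool := fun i => ((Y'.equivFinOfCardEq hY'c).symm i : Fin n → Bool)
    with hy
  have hxi : Function.Injective x := by
    intro i j hij
    exact (X'.equivFinOfCardEq hX'c).symm.injective (Subtype.ext hij)
  have hyi : Function.Injective y := by
    intro i j hij
    exact (Y'.equivFinOfCardEq hY'c).symm.injective (Subtype.ext hij)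
  have hxX : ∀ i, x i ∈ X := fun i => hX' ((X'.equivFinOfCardEq hX'c).symm i).2
  have hyY : ∀ i, y i ∈ Y := fun i => hY' ((Y'.equivFinOfCardEq hY'c).symm i).2
  refine ⟨(U, x, y), ?_, ?_⟩
  · rw [Zof, card_image_of_injective]
    · rw [card_univ, Fintype.card_prod, Fintype.card_fin, hm]
    · rintro ⟨i, j⟩ ⟨i', j'⟩ hij
      simp only at hij
      have e1 : x i = x i' := by
        funext c
        by_cases hc : c ∈ U
        · have := congrFun hij c
          simpa [mix, hc] using this
        · rw [hX _ (hxX i) c hc, hX _ (hxX i') c hc]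
      have e2 : y j = y j' := by
        funext c
        by_cases hc : c ∈ U
        · rw [hY _ (hyY j) c hc, hY _ (hyY j') c hc]
        · have := congrFun hij c
          simpa [mix, hc] using this
      rw [hxi e1, hyi e2]
  · intro t z hz
    rw [Zof, mem_image] at hz
    obtain ⟨j, -, rfl⟩ := hz
    have h1 := h (x j.1) (hxX _) (y j.2) (hyY _)
    have h2 : decide (∀ t, H (P t).1 (mix U (x j.1) (y j.2)) ≠ (P t).2) = true :=
      Bool.eq_true_of_not_eq_false h1
    rw [decide_eq_true_eq] at h2
    simpa [hit] using h2 t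

/-- Module HASH. -/
theorem t_HASH : S_HASH := by
  classical
  intro n e S _ _ H hn he hcol
  set m := 2 ^ e with hm
  have hmm : m * m = 4 ^ e := by
    rw [hm, ← pow_add, ← two_mul, pow_mul]
    norm_num
  have hm4 : 4 ≤ m := by
    calc 4 = 2 ^ 2 := by norm_num
      _ ≤ 2 ^ e := Nat.pow_le_pow_right (by norm_num) he
  set T := conds n e with hT
  have hT1 : T = 2 * (4 * n * m) := by
    rw [hT, conds]
    ring
  set s := 16 * n / 2 ^ e + 1 with hs
  have hs1 : 16 * n ≤ m * s := by
    have h1 := Nat.div_add_mod (16 * n) m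
    have h2 := Nat.mod_lt (16 * n) (show 0 < m by omega)
    have h3 : m * s = m * (16 * n / m) + m := by
      rw [hs]
      ring
    omega
  have hs2 : s ≤ 4 * n + 1 := by
    have h1 : 16 * n / 2 ^ e ≤ 16 * n / 4 := Nat.div_le_div_left hm4 (by norm_num)
    omega
  have hse : 16 * n / 2 ^ e + 2 = s + 1 := by omega
  rw [hse]
  by_contra hcon
  push Not at hcon
  set Ω := Fintype.card (Fin T → S × (Fin (2 * e) → Bool)) with hΩ
  have hΩ0 : 0 < Ω := Fintype.card_pos
  -- the bad families
  set B : Finset (Fin T → S × (Fin (2 * e) → Bool)) := univ.filter (fun P =>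
    ¬ RectFree (fun x => decide (∀ t, H (P t).1 x ≠ (P t).2)) m) with hB
  have hBcard : 2 ^ (4 * n * m) * B.card ≤ 2 ^ (n + 2 * (n * m)) * Ω := by
    set I := (univ : Finset (Finset (Fin n) × (Fin m → Fin n → Bool) ×
      (Fin m → Fin n → Bool))).filter (fun i => (Zof i).card = 4 ^ e) with hI
    have h1 : B ⊆ I.biUnion (fun i => univ.filter
        (fun P : Fin T → S × (Fin (2 * e) → Bool) => ∀ t, ∀ z ∈ Zof i, hit H z (P t) = false)) := by
      intro P hP
      rw [hB, mem_filter] at hP
      obtain ⟨i, hi1, hi2⟩ := rect hmm P hP.2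
      rw [mem_biUnion]
      refine ⟨i, ?_, ?_⟩
      · rw [hI, mem_filter]; exact ⟨mem_univ _, hi1⟩
      · rw [mem_filter]; exact ⟨mem_univ _, hi2⟩
    have h3 : ∀ i ∈ I, 2 ^ (4 * n * m) * (univ.filter (fun P : Fin T → S × (Fin (2 * e) → Bool) =>
        ∀ t, ∀ z ∈ Zof i, hit H z (P t) = false)).card ≤ Ω := by
      intro i hi
      have h4 := card_missT hcol (R := 4 * n * m) (Zof i) (mem_filter.mp hi).2
      rw [hΩ, hT1]
      exact h4
    have h2 : 2 ^ (4 * n * m) * B.card ≤ ∑ i ∈ I, Ω := by
      refine (Nat.mul_le_mul_left _ ((card_le_card h1).trans card_biUnion_le)).trans ?_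
      rw [Finset.mul_sum]
      exact Finset.sum_le_sum h3
    rw [Finset.sum_const, smul_eq_mul] at h2
    refine h2.trans (Nat.mul_le_mul_right _ ?_)
    refine (card_filter_le _ _).trans ?_
    rw [card_univ]
    simp only [Fintype.card_prod, Fintype.card_finset, Fintype.card_fin, Fintype.card_fun,
      Fintype.card_bool]
    rw [← pow_mul, ← pow_add, ← pow_add]
    refine Nat.pow_le_pow_right (by norm_num) (le_of_eq ?_)
    ring
  -- the sum of the numbers of accepted points
  set acc : (Fin T → S × (Fin (2 * e) → Bool)) → ℕ := fun P =>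
    (univ.filter (fun x : Fin n → Bool => decide (∀ t, H (P t).1 x ≠ (P t).2) = true)).card
    with hacc
  have hup : ∀ P, 2 ^ (s + 1) * acc P ≤ (if P ∈ B then 2 ^ (s + 1) * 2 ^ n else 0) + 2 ^ n := by
    intro P
    by_cases hP : P ∈ B
    · rw [if_pos hP]
      have : acc P ≤ 2 ^ n := by
        refine (card_filter_le _ _).trans ?_
        rw [card_univ]; simp
      have := Nat.mul_le_mul_left (2 ^ (s + 1)) this
      omega
    · rw [if_neg hP, zero_add]
      rw [hB, mem_filter, not_and, not_not] at hP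
      exact (hcon _ (hP (mem_univ _))).le
  have hsum1 : 2 ^ (s + 1) * ∑ P, acc P ≤ B.card * (2 ^ (s + 1) * 2 ^ n) + Ω * 2 ^ n := by
    rw [Finset.mul_sum]
    refine (Finset.sum_le_sum (fun P _ => hup P)).trans ?_
    rw [Finset.sum_add_distrib, Finset.sum_ite_mem, Finset.univ_inter, Finset.sum_const,
      Finset.sum_const, smul_eq_mul, smul_eq_mul, card_univ]
  have hoff : ∀ b : Fin n → Bool, Ω ≤ 2 ^ s *
      (univ.filter (fun P : Fin T → S × (Fin (2 * e) → Bool) => ∀ t, hit H b (P t) = false)).card := by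
    intro b
    rw [card_offT, hΩ, Fintype.card_fun (α := Fin T), Fintype.card_fin, card_P, mul_pow,
      mul_pow, ← mul_assoc]
    refine Nat.mul_le_mul_right _ ?_
    refine frac (E := 4 ^ e / 2) ?_ ?_ ?_
    · have : 4 ^ e = 2 * (m * (m / 2)) := by
        have h2 : m = 2 * (m / 2) := by
          have : 2 ∣ m := dvd_pow_self 2 (by omega)
          omega
        rw [← hmm]
        calc m * m = m * (2 * (m / 2)) := by rw [← h2]
          _ = _ := by ring
      omega
    · have : 4 ≤ 4 ^ e := by
        calc 4 = 4 ^ 1 := by norm_num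
          _ ≤ 4 ^ e := Nat.pow_le_pow_right (by norm_num) (by omega)
      omega
    · have h2 : m = 2 * (m / 2) := by
        have : 2 ∣ m := dvd_pow_self 2 (by omega)
        omega
      have h3 : 4 ^ e / 2 = m * (m / 2) := by
        have : 4 ^ e = 2 * (m * (m / 2)) := by
          rw [← hmm]
          calc m * m = m * (2 * (m / 2)) := by rw [← h2]
            _ = _ := by ring
        omega
      rw [h3, hT1]
      calc 2 * (4 * n * m) = (16 * n) * (m / 2) := by
            calc 2 * (4 * n * m) = 2 * (4 * n * (2 * (m / 2))) := by rw [← h2]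
              _ = _ := by ring
        _ ≤ (m * s) * (m / 2) := Nat.mul_le_mul_right _ hs1
        _ = m * (m / 2) * s := by ring
  have hsum2 : 2 ^ n * Ω ≤ 2 ^ s * ∑ P, acc P := by
    have e1 : ∑ P, acc P = ∑ b : Fin n → Bool,
        (univ.filter (fun P : Fin T → S × (Fin (2 * e) → Bool) => ∀ t, hit H b (P t) = false)).card := by
      have e2 : ∀ P, acc P = ∑ b : Fin n → Bool,
          if (∀ t, hit H b (P t) = false) then 1 else 0 := by
        intro P
        rw [← card_filter]
        simp only [hacc]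
        refine congrArg Finset.card (Finset.filter_congr fun b _ => ?_)
        simp [hit]
      rw [Finset.sum_congr rfl (fun P _ => e2 P), Finset.sum_comm]
      refine Finset.sum_congr rfl fun b _ => ?_
      rw [← card_filter]
    have e4 : ∑ _b : Fin n → Bool, Ω = 2 ^ n * Ω := by
      rw [Finset.sum_const, smul_eq_mul, card_univ, Fintype.card_fun, Fintype.card_bool,
        Fintype.card_fin]
    rw [e1, Finset.mul_sum, ← e4]
    exact Finset.sum_le_sum (fun b _ => hoff b)
  -- conclusion
  have f1 : 2 ^ n * Ω ≤ 2 ^ n * (2 ^ (s + 1) * B.card) := by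
    have h4 : 2 ^ (s + 1) * ∑ P, acc P = 2 * (2 ^ s * ∑ P, acc P) := by ring
    rw [h4] at hsum1
    have h3 : B.card * (2 ^ (s + 1) * 2 ^ n) = 2 ^ n * (2 ^ (s + 1) * B.card) := by ring
    have h5 : Ω * 2 ^ n = 2 ^ n * Ω := by ring
    rw [h3, h5] at hsum1
    omega
  have f2 : Ω ≤ 2 ^ (s + 1) * B.card := Nat.le_of_mul_le_mul_left f1 (by positivity)
  have f3 : 2 ^ (n + 2 * (n * m)) * (2 ^ (s + 2) * B.card) ≤ 2 ^ (n + 2 * (n * m)) * Ω := by
    refine le_trans ?_ hBcard
    rw [← mul_assoc, ← pow_add]
    refine Nat.mul_le_mul_right _ (Nat.pow_le_pow_right (by norm_num) ?_)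
    have h1 : n * 4 ≤ n * m := Nat.mul_le_mul_left _ hm4
    have h2 : 4 * n * m = 4 * (n * m) := by ring
    rw [h2]
    omega
  have f4 : 2 ^ (s + 2) * B.card ≤ Ω := Nat.le_of_mul_le_mul_left f3 (by positivity)
  have f5 : 2 ^ (s + 2) * B.card = 2 * (2 ^ (s + 1) * B.card) := by ring
  omega

end Pool.Agent.HPM.HASH
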