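import Pool.Agent.HPM.Stmts
import Pool.Agent.Lib_helper26.AC.PPT

/-!
The lower bound for counting hash conditions and its complement (after the module LowerT of
Lib_helper26/AC).
-/

set_option autoImplicit false

namespace Pool.Agent.HPM.LOW

open Finset Pool.Agent.Lib_helper20.SRO Pool.Agent.Lib_helper26.AC

lemma two_le_e {k e : ℕ} (hk : 1 ≤ k) (h : (k + 1) ^ (260 * k) ≤ 2 ^ e) : 2 ≤ e := by
  by_contra hcon
  have h1 : 2 ^ e ≤ 2 ^ 1 := Nat.pow_le_pow_right (by norm_num) (by omega)
  have h2 : 2 ^ 260 ≤ (k + 1) ^ (260 * k) := by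
    calc 2 ^ 260 ≤ (k + 1) ^ 260 := Nat.pow_le_pow_left (by omega) _
      _ ≤ (k + 1) ^ (260 * k) := Nat.pow_le_pow_right (by omega) (by omega)
  have h3 : (2 : ℕ) ^ 1 < 2 ^ 260 := Nat.pow_lt_pow_right (by norm_num) (by norm_num)
  omega

/-- Module LOW. -/
theorem t_LOW (hCOL : S_COL) (hHASH : S_HASH) (hBLK : S_BLK) : S_LOW := by
  intro n e L k β hL hk hke hen Q _ G a hacc hfew hcomp
  have h2e : 2 ≤ e := two_le_e hk hke
  have hn1 : 1 ≤ n := le_trans Nat.one_le_two_pow hen
  obtain ⟨P, hrect, hdense⟩ := hHASH n e ((Fin (deg n e) → Bool) × (Fin (deg n e) → Bool))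
    (fun σ z => hash β σ.1 σ.2 z) hn1 h2e (fun z z' hz => hCOL n e β z z' hn1 hz)
  have hpos : 0 < conds n e * L := by
    apply Nat.mul_pos _ hL
    unfold conds
    positivity
  have hlt : conds n e * L - 1 < 2 ^ digs n e L :=
    lt_of_le_of_lt (Nat.sub_le _ _) (Nat.lt_pow_succ_log_self (by norm_num) _)
  set g : (Fin n → Bool) → Bool := fun x =>
    decide (∀ t, hash β (P t).1.1 (P t).1.2 x ≠ (P t).2) with hg
  -- the special values of the variables of the first kind
  let α : Bool → (Fin (conds n e) × ((Fin (deg n e) ⊕ Fin (deg n e)) ⊕ Fin (2 * e))) ⊕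
      (Unit ⊕ Fin (digs n e L)) → Bool := fun p =>
    Sum.elim (fun q => Sum.elim (Sum.elim (fun i => (P q.1).1.1 i) (fun i => (P q.1).1.2 i))
      (fun i => (P q.1).2 i) q.2)
      (Sum.elim (fun _ => p) (fun i => p && (conds n e * L - 1).testBit i.val))
  have hval : ∀ (p : Bool) (b : Fin L × Fin n → Bool), hashF β (Sum.elim (α p) b) =
      decide ((if p then conds n e * L - 1 else 0) <
        (univ.filter (fun q : Fin (conds n e) × Fin L =>
          decide (hash β (P q.1).1.1 (P q.1).1.2 (fun j => b (q.2, j)) = (P q.1).2) ≠ p)).card) := by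
    intro p b
    have e : binary (fun i : Fin (digs n e L) => (p && (conds n e * L - 1).testBit i.val)) =
        if p then conds n e * L - 1 else 0 := by
      cases p
      · simp [binary]
      · simp only [Bool.true_and, if_true]
        rw [PT.binary_testBit, Nat.mod_eq_of_lt hlt]
    rw [← e]
    rfl
  have key1 : ∀ b : Fin L × Fin n → Bool, hashF β (Sum.elim (α true) b) = true ↔
      ∀ l, g (fun j => b (l, j)) = true := by
    intro b
    rw [hval, decide_eq_true_iff, if_pos rfl]
    have h2 := Finset.card_filter_add_card_filter_not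
      (s := (univ : Finset (Fin (conds n e) × Fin L)))
      (fun q => decide (hash β (P q.1).1.1 (P q.1).1.2 (fun j => b (q.2, j)) = (P q.1).2) ≠ true)
    rw [card_univ, Fintype.card_prod, Fintype.card_fin, Fintype.card_fin] at h2
    have h3 : (conds n e * L - 1 < (univ.filter (fun q : Fin (conds n e) × Fin L =>
        decide (hash β (P q.1).1.1 (P q.1).1.2 (fun j => b (q.2, j)) = (P q.1).2) ≠ true)).card) ↔
        (univ.filter (fun q : Fin (conds n e) × Fin L => ¬ (decide (hash β (P q.1).1.1
          (P q.1).1.2 (fun j => b (q.2, j)) = (P q.1).2) ≠ true))).card = 0 := by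
      revert h2 hpos
      generalize conds n e * L = Y
      intro hpos h2
      omega
    rw [h3, Finset.card_eq_zero, Finset.filter_eq_empty_iff]
    simp only [hg, decide_eq_true_iff, mem_univ, true_implies, not_not, Prod.forall]
    constructor
    · intro h l t
      have := h t l
      simpa using this
    · intro h t l
      have := h l t
      simpa using this
  have key2 : ∀ b : Fin L × Fin n → Bool, (!hashF β (Sum.elim (α false) b)) = true ↔
      ∀ l, g (fun j => b (l, j)) = true := by
    intro b
    rw [Bool.not_eq_true', hval, decide_eq_false_iff_not, if_neg Bool.false_ne_true, not_lt,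
      Nat.le_zero, Finset.card_eq_zero, Finset.filter_eq_empty_iff]
    simp only [hg, decide_eq_true_iff, mem_univ, true_implies, not_not, Prod.forall,
      decide_eq_false_iff_not]
    exact ⟨fun h l t => h t l, fun h t l => h l t⟩
  have hacc' : ∀ p, AccessPatternsAt G (α p) a := fun p b u v => hacc (Sum.elim (α p) b) u v
  have hfew' : ∀ p, FewTestsAt G (α p) (k * (n * L)) := fun p b hb => hfew _ hb
  rcases hcomp with hcomp | hcomp
  · exact hBLK k n L e a _ Q G (α true) g hk hke hen hL hrect hdense (hacc' true) (hfew' true)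
      (fun b => (hcomp _).trans (key1 b))
  · exact hBLK k n L e a _ Q G (α false) g hk hke hen hL hrect hdense (hacc' false) (hfew' false)
      (fun b => (hcomp _).trans (key2 b))

end Pool.Agent.HPM.LOW
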