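import Pool.Agent.HPM.Stmts
import Pool.Agent.APH.Det

/-!
A machine whose guesses have no influence on the cells read is a nondeterministic branching program
with one access pattern.
-/

set_option autoImplicit false

namespace Pool.Agent.HPM.MACH

open Pool.Agent.Lib_helper20.SRO

variable {b : ℕ} {I V : Type}

/-- the guesses that are all `false` -/
def ff {b : ℕ} : Fin b → Bool := fun _ => false

/-- Acceptance after `j` more steps; the cells read are those of the first run. -/
def accd (M : GMach b I V) (x : I → Bool) : ℕ → ℕ → V → V → Prop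
  | 0, _, _, s => M.acc s
  | j + 1, t, s₀, s => ∃ g, accd M x j (t + 1) (M.next t s₀ (x (M.query t s₀)) ff)
      (M.next t s (x (M.query t s₀)) g)

/-- The branching program of a machine. -/
def prg (M : GMach b I V) (T : ℕ) : NBP I (Option (Fin (T + 1) × V × V)) where
  source := some (0, M.start, M.start)
  sink := none
  edge u v o := (∃ (t t' : Fin (T + 1)) (s₀ s : V) (e : Bool) (g : Fin b → Bool),
      t'.val = t.val + 1 ∧ u = some (t, s₀, s) ∧ v = some (t', M.next t s₀ e ff, M.next t s e g) ∧
      o = some (M.query t s₀, e)) ∨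
    (∃ s₀ s, M.acc s ∧ u = some (Fin.last T, s₀, s) ∧ v = none ∧ o = none)

/-- The tests of `j` steps. -/
def steps (M : GMach b I V) (x : I → Bool) : ℕ → V → ℕ → List (I × Bool)
  | _, _, 0 => []
  | t, s, j + 1 => (M.query t s, x (M.query t s)) ::
      steps M x (t + 1) (M.next t s (x (M.query t s)) ff) j

lemma walk_det {M : GMach b I V} {T : ℕ} {x : I → Bool}
    {u v : Option (Fin (T + 1) × V × V)} {l : List (I × Bool)} (h : Walk (prg M T) u v l) :
    Agrees x l →
    (u = none → v = none ∧ l = []) ∧
    (∀ (t : Fin (T + 1)) (s₀ s : V), u = some (t, s₀, s) → l = steps M x t s₀ l.length ∧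
      (∀ (t' : Fin (T + 1)) (s₀' s' : V), v = some (t', s₀', s') → t'.val = t.val + l.length) ∧
      (v = none → t.val + l.length = T ∧ accd M x l.length t s₀ s)) := by
  induction h with
  | nil u =>
    intro _
    refine ⟨fun h => ⟨h, rfl⟩, fun t s₀ s hu => ⟨rfl, fun t' s₀' s' h' => ?_, fun h' => ?_⟩⟩
    · rw [hu] at h'
      have h2 := Option.some.inj h'
      rw [Prod.mk.injEq] at h2
      rw [← h2.1]
      rfl
    · rw [hu] at h'
      exact absurd h' (by simp)
  | @free u v w l he hw ih =>
    intro hl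
    rcases he with ⟨t, t', s₀, s, e, g, -, -, -, h4⟩ | ⟨s₀, s, hs, h1, h2, -⟩
    · exact absurd h4 (by simp)
    · obtain ⟨hw1, hl1⟩ := (ih hl).1 h2
      refine ⟨fun h => absurd (h1.symm.trans h) (by simp), fun t s₀' s' hu => ?_⟩
      rw [h1] at hu
      have h3 := Option.some.inj hu
      rw [Prod.mk.injEq, Prod.mk.injEq] at h3
      subst hl1
      refine ⟨rfl, fun t' s₀'' s'' h' => absurd (hw1.symm.trans h') (by simp), fun _ => ?_⟩
      rw [← h3.1, ← h3.2.2]
      exact ⟨rfl, hs⟩
  | @test u v w l y c he hw ih =>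
    intro hl
    have hl' : Agrees x l := fun p hp => hl p (List.mem_cons_of_mem _ hp)
    have hc : x y = c := hl (y, c) List.mem_cons_self
    rcases he with ⟨t, t', s₀, s, e, g, h0, h1, h2, h3⟩ | ⟨s₀, s, -, -, -, h4⟩
    · have h5 := Option.some.inj h3
      rw [Prod.mk.injEq] at h5
      obtain ⟨h5, h6⟩ := h5
      refine ⟨fun h => absurd (h1.symm.trans h) (by simp), fun t1 s1₀ s1 hu => ?_⟩
      rw [h1] at hu
      have h7 := Option.some.inj hu
      rw [Prod.mk.injEq, Prod.mk.injEq] at h7
      obtain ⟨h7, h8, h9⟩ := h7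
      subst h7 h8 h9
      have he : e = x (M.query t s₀) := by rw [← h6, ← hc, h5]
      subst he
      obtain ⟨ih1, ih2, ih3⟩ := (ih hl').2 t' _ _ h2
      rw [h0] at ih1 ih2 ih3
      refine ⟨?_, fun t'' s₀'' s'' h' => ?_, fun h' => ?_⟩
      · rw [List.length_cons, steps, ← ih1, h5, h6]
      · rw [ih2 t'' s₀'' s'' h', List.length_cons]
        ring
      · obtain ⟨h9, h10⟩ := ih3 h'
        refine ⟨?_, ?_⟩
        · rw [List.length_cons]
          omega
        · rw [List.length_cons, accd]
          exact ⟨g, h10⟩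
    · exact absurd h4 (by simp)

/-- Two walks between the same nodes which agree with an input have the same tests. -/
lemma walk_unique {M : GMach b I V} {T : ℕ} {x : I → Bool}
    {u v : Option (Fin (T + 1) × V × V)} {l l' : List (I × Bool)} (h : Walk (prg M T) u v l)
    (hl : Agrees x l) (h' : Walk (prg M T) u v l') (hl' : Agrees x l') : l = l' := by
  obtain ⟨h1, h2⟩ := walk_det h hl
  obtain ⟨h1', h2'⟩ := walk_det h' hl'
  rcases hu : u with _ | ⟨t, s₀, s⟩
  · rw [(h1 hu).2, (h1' hu).2]
  · obtain ⟨a1, a2, a3⟩ := h2 t s₀ s hu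
    obtain ⟨b1, b2, b3⟩ := h2' t s₀ s hu
    have hlen : l.length = l'.length := by
      rcases hv : v with _ | ⟨t', s₀', s'⟩
      · have := (a3 hv).1
        have := (b3 hv).1
        omega
      · have := a2 t' s₀' s' hv
        have := b2 t' s₀' s' hv
        omega
    rw [a1, b1, hlen]

theorem prg_accepts (M : GMach b I V) (T : ℕ) (x : I → Bool) :
    (prg M T).Accepts x ↔ accd M x T 0 M.start M.start := by
  constructor
  · rintro ⟨l, hw, hl⟩
    obtain ⟨h1, h2⟩ := (walk_det hw hl).2 0 M.start M.start rfl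
    obtain ⟨h3, h4⟩ := h2.2 rfl
    have h5 : l.length = T := by simpa using h3
    rw [← h5]
    exact h4
  · intro hacc
    have key : ∀ j (t : Fin (T + 1)) (s₀ s : V), t.val + j = T → accd M x j t s₀ s →
        ∃ l, Walk (prg M T) (some (t, s₀, s)) none l ∧ Agrees x l := by
      intro j
      induction j with
      | zero =>
        intro t s₀ s ht ha
        have ht' : t = Fin.last T := Fin.ext (by simpa using ht)
        refine ⟨[], Walk.free (v := none) (Or.inr ⟨s₀, s, ha, ?_, rfl, rfl⟩) (Walk.nil _),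
          fun p hp => absurd hp (by simp)⟩
        rw [ht']
      | succ j ih =>
        rintro t s₀ s ht ⟨g, ha⟩
        have ht' : t.val + 1 < T + 1 := by omega
        obtain ⟨l, hw, hl⟩ := ih ⟨t.val + 1, ht'⟩ _ _ (by simp only; omega) ha
        refine ⟨(M.query t s₀, x (M.query t s₀)) :: l,
          Walk.test _ _ (Or.inl ⟨t, ⟨t.val + 1, ht'⟩, s₀, s, x (M.query t s₀), g, rfl,
            rfl, rfl, rfl⟩) hw, ?_⟩
        intro p hp
        rcases List.mem_cons.1 hp with rfl | hp
        · rfl
        · exact hl p hp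
    obtain ⟨l, hw, hl⟩ := key T 0 M.start M.start (by simp) hacc
    exact ⟨l, hw, hl⟩

/-! ### the real runs -/

/-- the two runs: the first with guesses `false`, both read the cells of the first -/
def pr (M : GMach b I V) (x : I → Bool) (c : ℕ → Fin b → Bool) : ℕ → V × V
  | 0 => (M.start, M.start)
  | t + 1 => (M.next t (pr M x c t).1 (x (M.query t (pr M x c t).1)) ff,
      M.next t (pr M x c t).2 (x (M.query t (pr M x c t).1)) (c t))

lemma pr_congr (M : GMach b I V) (x : I → Bool) {c c' : ℕ → Fin b → Bool} (t : ℕ)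
    (h : ∀ t' < t, c t' = c' t') : pr M x c t = pr M x c' t := by
  induction t with
  | zero => rfl
  | succ t ih =>
    rw [pr, pr, ih (fun t' ht' => h t' (Nat.lt_succ_of_lt ht')), h t (Nat.lt_succ_self t)]

lemma accd_pr (M : GMach b I V) (x : I → Bool) (j : ℕ) : ∀ (t : ℕ)
    (c : ℕ → Fin b → Bool), accd M x j t (pr M x c t).1 (pr M x c t).2 →
    ∃ c' : ℕ → Fin b → Bool, M.acc (pr M x c' (t + j)).2 := by
  induction j with
  | zero =>
    intro t c h
    exact ⟨c, h⟩
  | succ j ih =>
    rintro t c ⟨g, h⟩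
    have h1 : pr M x (Function.update c t g) t = pr M x c t :=
      pr_congr M x t (fun t' ht' => Function.update_of_ne ht'.ne _ _)
    obtain ⟨c', h'⟩ := ih (t + 1) (Function.update c t g) (by
      rw [pr, h1, Function.update_self]
      exact h)
    refine ⟨c', ?_⟩
    rw [show t + (j + 1) = t + 1 + j by ring]
    exact h'

lemma pr_st {M : GMach b I V} {T : ℕ}
    (hb : ∀ x c c', ∀ t < T, M.query t (M.state x c t) = M.query t (M.state x c' t))
    (x : I → Bool) (c : ℕ → Fin b → Bool) (t : ℕ) (ht : t ≤ T) :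
    pr M x c t = (M.state x (fun _ => ff) t, M.state x c t) := by
  induction t with
  | zero => rfl
  | succ t ih =>
    have h1 : M.query t (M.state x c t) = M.query t (M.state x (fun _ => ff) t) :=
      hb x c (fun _ => ff) t ht
    rw [pr, ih (Nat.le_of_succ_le ht), GMach.state, GMach.state, h1]

lemma accd_iff {M : GMach b I V} {T : ℕ}
    (hb : ∀ x c c', ∀ t < T, M.query t (M.state x c t) = M.query t (M.state x c' t))
    (x : I → Bool) :
    accd M x T 0 M.start M.start ↔ ∃ c, M.acc (M.state x c T) := by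
  constructor
  · intro h
    obtain ⟨c, hc⟩ := accd_pr M x T 0 (fun _ => ff) h
    rw [zero_add, pr_st hb x _ T le_rfl] at hc
    exact ⟨c, hc⟩
  · rintro ⟨c, hc⟩
    have key : ∀ j t, t + j = T → accd M x j t (pr M x c t).1 (pr M x c t).2 := by
      intro j
      induction j with
      | zero =>
        intro t ht
        rw [add_zero] at ht
        subst ht
        rw [pr_st hb x _ t le_rfl]
        exact hc
      | succ j ih =>
        intro t ht
        exact ⟨c t, ih (t + 1) (by omega)⟩
    exact key T 0 (zero_add T)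

/-- Module MACH. -/
theorem t_MACH : S_MACH := by
  rintro b T W X V _ f ⟨M, hb, hf⟩
  refine ⟨Option (Fin (T + 1) × V × V), inferInstance, prg M T, ?_, ?_, ?_, ?_⟩
  · intro z u v
    rw [Nat.cast_one, Set.encard_le_one_iff]
    rintro S S' ⟨l, h1, h2, h3⟩ ⟨l', h1', h2', h3'⟩
    rw [h3, h3', walk_unique h1 h2 h1' h2']
  · rintro z ⟨l, hw, hl⟩
    refine ⟨l, hw, hl, ?_⟩
    obtain ⟨h1, h2⟩ := (walk_det hw hl).2 0 M.start M.start rfl
    have h3 := (h2.2 rfl).1
    have h4 : l.countP (fun p => p.1.isRight) ≤ l.length := List.countP_le_length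
    have h5 : l.length = T := by simpa using h3
    omega
  · intro x
    rw [prg_accepts, accd_iff hb]
    exact (hf x).symm
  · have h1 : 0 < Fintype.card V := Fintype.card_pos_iff.2 ⟨M.start⟩
    have h2 : 0 < (T + 1) * Fintype.card V ^ 2 := by positivity
    rw [Fintype.card_option, Fintype.card_prod, Fintype.card_prod, Fintype.card_fin]
    have h3 : (T + 1) * (Fintype.card V * Fintype.card V) = (T + 1) * Fintype.card V ^ 2 := by
      rw [sq]
    omega

end Pool.Agent.HPM.MACH
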