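import Pool.Agent.HPM.Stmts

/-!
The numerical estimates: the trade-off with parameters implies the one without (after
Pool/Agent/APH/Num.lean).
-/

set_option autoImplicit false

namespace Pool.Agent.HPM.NUM

open Real Filter

lemma ev1 (r : ℕ) (hr : 1 ≤ r) :
    ∀ᶠ n : ℕ in atTop, 260 * log (3 * log n) + 1 ≤ log n / (4 * r) := by
  have hr0 : (0 : ℝ) < r := by exact_mod_cast hr
  have h1 : Tendsto (fun n : ℕ => log (n : ℝ)) atTop atTop :=
    tendsto_log_atTop.comp tendsto_natCast_atTop_atTop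
  have h2 : Tendsto (fun n : ℕ => 3 * log (n : ℝ)) atTop atTop := h1.const_mul_atTop (by norm_num)
  have hε : (0 : ℝ) < 1 / (8 * r) / 780 := by positivity
  have h3 := (isLittleO_log_id_atTop.comp_tendsto h2).bound hε
  filter_upwards [h3, h2.eventually_ge_atTop 1, h1.eventually_ge_atTop (8 * r)] with n hn h5 h6
  simp only [Function.comp_apply, id_eq, norm_eq_abs] at hn
  have h7 : 0 ≤ log (3 * log (n : ℝ)) := log_nonneg h5
  rw [abs_of_nonneg h7, abs_of_nonneg (by linarith)] at hn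
  have h8 : 260 * log (3 * log (n : ℝ)) ≤ log n / (8 * r) := by
    calc 260 * log (3 * log (n : ℝ)) ≤ 260 * (1 / (8 * r) / 780 * (3 * log n)) := by linarith
      _ = log n / (8 * r) := by ring
  have h9 : 1 ≤ log (n : ℝ) / (8 * r) := by
    rw [le_div_iff₀ (by positivity)]
    linarith
  have h10 : log (n : ℝ) / (4 * r) = log n / (8 * r) + log n / (8 * r) := by ring
  linarith

lemma ev2 (r : ℕ) (hr : 1 ≤ r) : ∀ᶠ n : ℕ in atTop, (16 : ℝ) ≤ (n : ℝ) ^ (3 / (2 * r) : ℝ) := by
  have hr0 : (0 : ℝ) < r := by exact_mod_cast hr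
  exact ((tendsto_rpow_atTop (show (0 : ℝ) < 3 / (2 * r) by positivity)).comp
    tendsto_natCast_atTop_atTop).eventually_ge_atTop 16

lemma ev3 : ∀ᶠ n : ℕ in atTop, 80 * log n ≤ (n : ℝ) ^ (1 / 2 : ℝ) := by
  have h1 : Tendsto (fun n : ℕ => (n : ℝ)) atTop atTop := tendsto_natCast_atTop_atTop
  have h3 := ((isLittleO_log_rpow_atTop (show (0 : ℝ) < 1 / 2 by norm_num)).comp_tendsto h1).bound
    (show (0 : ℝ) < 1 / 80 by norm_num)
  filter_upwards [h3, h1.eventually_ge_atTop 1] with n hn h5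
  simp only [Function.comp_apply, norm_eq_abs] at hn
  rw [abs_of_nonneg (log_nonneg h5), abs_of_nonneg (by positivity)] at hn
  linarith

/-- Module NUM. -/
theorem t_NUM : S_NUM := by
  intro r hr
  have hr0 : (0 : ℝ) < r := by
    have : 0 < r := by omega
    exact_mod_cast this
  have hr2 : (2 : ℝ) ≤ r := by exact_mod_cast hr
  obtain ⟨n₁, hn₁⟩ := eventually_atTop.1 ((ev1 r (by omega)).and ((ev2 r (by omega)).and
    (ev3.and ((tendsto_log_atTop.comp tendsto_natCast_atTop_atTop).eventually_ge_atTop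
      (100 * r : ℝ)))))
  refine ⟨1 / (10000 * r), max 16 n₁, by positivity, ?_⟩
  intro n hn N hN1 hN2
  have hn16 : 16 ≤ n := le_trans (le_max_left _ _) hn
  obtain ⟨e1, e2, e3, e4⟩ := hn₁ n (le_trans (le_max_right _ _) hn)
  simp only [Function.comp_apply] at e4
  set e : ℕ := Nat.log 2 n / r with he
  set x : ℝ := log (n : ℝ) with hx
  have hn0 : (0 : ℝ) < n := by
    have : 0 < n := by omega
    exact_mod_cast this
  have hn1 : (1 : ℝ) ≤ n := by exact_mod_cast (by omega : 1 ≤ n)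
  have hx100 : 200 ≤ x := by nlinarith
  have hl2 := log_two_gt_d9
  have hl2' := log_two_lt_d9
  -- the number `2 ^ e`
  have hre : 2 ^ (r * e) ≤ n := by
    calc 2 ^ (r * e) ≤ 2 ^ Nat.log 2 n :=
          Nat.pow_le_pow_right (by norm_num) (by rw [he]; exact Nat.mul_div_le _ _)
      _ ≤ n := Nat.pow_log_le_self 2 (by omega)
  have hre2 : n < 2 ^ (r * (e + 1)) := by
    calc n < 2 ^ (Nat.log 2 n + 1) := Nat.lt_pow_succ_log_self (by norm_num) n
      _ ≤ 2 ^ (r * (e + 1)) := by
          refine Nat.pow_le_pow_right (by norm_num) ?_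
          have h1 := Nat.div_add_mod (Nat.log 2 n) r
          have h2 := Nat.mod_lt (Nat.log 2 n) (show 0 < r by omega)
          rw [mul_add, mul_one, he]
          omega
  have hlow : x ≤ r * (e + 1) * log 2 := by
    have h1 : (n : ℝ) ≤ (2 : ℝ) ^ (r * (e + 1)) := by exact_mod_cast hre2.le
    have h2 := log_le_log hn0 h1
    rw [log_pow] at h2
    push_cast at h2
    linarith
  have hup : r * e * log 2 ≤ x := by
    have h1 : (2 : ℝ) ^ (r * e) ≤ (n : ℝ) := by exact_mod_cast hre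
    have h2 := log_le_log (by positivity) h1
    rw [log_pow] at h2
    push_cast at h2
    linarith
  have he2 : x / r - log 2 ≤ e * log 2 := by
    have h1 : x / r ≤ (e + 1) * log 2 := by
      rw [div_le_iff₀ hr0]
      calc x ≤ r * (e + 1) * log 2 := hlow
        _ = (e + 1) * log 2 * r := by ring
    linarith
  have he3 : e * log 2 ≤ x / r := by
    rw [le_div_iff₀ hr0]
    calc e * log 2 * r = r * e * log 2 := by ring
      _ ≤ x := hup
  have hxr : 100 ≤ x / r := by
    rw [le_div_iff₀ hr0]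
    linarith
  have hege : 2 ≤ e := by
    by_contra hcon
    have h1 : (e : ℝ) ≤ 1 := by exact_mod_cast (by omega : e ≤ 1)
    have h2 : (e : ℝ) * log 2 ≤ 1 * log 2 := mul_le_mul_of_nonneg_right h1 (by linarith)
    linarith
  -- the number `N`
  have hNr1 : (n : ℝ) * 4 ^ e ≤ N := by exact_mod_cast hN1
  have hNr2 : (N : ℝ) ≤ 2 * ((n : ℝ) * 4 ^ e) := by exact_mod_cast hN2
  have hnN : (n : ℝ) ≤ N := by
    refine le_trans ?_ hNr1
    exact le_mul_of_one_le_right hn0.le (one_le_pow₀ (by norm_num))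
  have hN0 : (0 : ℝ) < N := lt_of_lt_of_le hn0 hnN
  have h4e : (4 : ℝ) ^ e = rexp (2 * (e * log 2)) := by
    rw [show (4 : ℝ) = 2 ^ 2 by norm_num, ← pow_mul, ← rpow_natCast, rpow_def_of_pos (by norm_num)]
    congr 1
    push_cast
    ring
  have hNpow : (N : ℝ) ≤ 2 * (n : ℝ) ^ (1 + 2 / r : ℝ) := by
    refine hNr2.trans ?_
    refine mul_le_mul_of_nonneg_left ?_ (by norm_num)
    rw [rpow_add hn0, rpow_one]
    refine mul_le_mul_of_nonneg_left ?_ hn0.le
    rw [h4e, rpow_def_of_pos hn0]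
    apply exp_le_exp.2
    have h1 : log (n : ℝ) * (2 / r) = 2 * (x / r) := by ring
    rw [h1]
    linarith
  set y : ℝ := log (N : ℝ) with hy
  have hy1 : x ≤ y := log_le_log hn0 hnN
  have hy2 : y ≤ 3 * x := by
    have h1 : log (N : ℝ) ≤ log (2 * (n : ℝ) ^ (1 + 2 / r : ℝ)) := log_le_log hN0 hNpow
    rw [log_mul (by norm_num) (by positivity), log_rpow hn0] at h1
    have h2 : (2 : ℝ) / r ≤ 1 := by
      rw [div_le_one hr0]
      exact hr2
    have h3 : (1 + 2 / r : ℝ) * log n ≤ 2 * x := mul_le_mul_of_nonneg_right (by linarith)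
      (by linarith)
    linarith
  set z : ℝ := log y with hz
  have hz1 : 1 ≤ z := by
    have h1 : log (Real.exp 1) ≤ log y := by
      apply log_le_log (Real.exp_pos 1)
      have := Real.exp_one_lt_d9
      linarith
    rwa [log_exp] at h1
  have hz2 : 260 * z + 1 ≤ x / (4 * r) := by
    refine le_trans ?_ e1
    have : z ≤ log (3 * x) := log_le_log (by linarith) hy2
    linarith
  -- the number k
  set w : ℝ := 2 / (10000 * r) * y / z with hw
  have hy0' : 0 < y := by linarith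
  have hz0 : 0 < z := by linarith
  have hw0 : 0 < w := by
    rw [hw]
    positivity
  set k : ℕ := ⌈w⌉₊ with hk
  have hk1 : 1 ≤ k := Nat.one_le_ceil_iff.2 hw0
  have hkw : w ≤ k := Nat.le_ceil w
  have hkw' : (k : ℝ) < w + 1 := Nat.ceil_lt_add_one hw0.le
  have hwz : w * z = 2 / (10000 * r) * y := by
    rw [hw]
    field_simp
  have hcr : 2 / (10000 * r : ℝ) ≤ 1 / 10000 := by
    rw [div_le_div_iff₀ (by positivity) (by norm_num)]
    linarith
  have hy0 : 0 ≤ y := by linarith
  have hwy : w ≤ 1 / 10000 * y := by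
    rw [hw]
    calc 2 / (10000 * r) * y / z ≤ 2 / (10000 * r) * y := div_le_self (by positivity) hz1
      _ ≤ 1 / 10000 * y := mul_le_mul_of_nonneg_right hcr hy0
  have hk2 : ((k : ℝ) + 1) ≤ y := by linarith
  have hlogk : log ((k : ℝ) + 1) ≤ z := log_le_log (by positivity) hk2
  have hlogk0 : 0 ≤ log ((k : ℝ) + 1) :=
    log_nonneg (by linarith [show (1 : ℝ) ≤ k by exact_mod_cast hk1])
  have hpow : log (((k : ℝ) + 1) ^ (260 * k)) ≤ x / (2 * r) := by
    rw [log_pow]
    push_cast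
    have h1 : (260 * (k : ℝ)) * log ((k : ℝ) + 1) ≤ (260 * (w + 1)) * z := by
      apply mul_le_mul _ hlogk hlogk0 (by positivity)
      linarith
    have h2 : (260 * (w + 1)) * z = 260 * (w * z) + 260 * z := by ring
    rw [h2, hwz] at h1
    have h3 : 260 * (2 / (10000 * r) * y) ≤ x / (4 * r) := by
      have h4 : 260 * (2 / (10000 * r) * y) ≤ 260 * (2 / (10000 * r) * (3 * x)) := by
        refine mul_le_mul_of_nonneg_left (mul_le_mul_of_nonneg_left hy2 (by positivity))
          (by norm_num)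
      refine h4.trans ?_
      have h5 : 260 * (2 / (10000 * r) * (3 * x)) = 624 / 1000 * (x / (4 * r)) := by ring
      rw [h5]
      have : 0 ≤ x / (4 * r) := by positivity
      linarith
    have h6 : x / (2 * r) = x / (4 * r) + x / (4 * r) := by ring
    linarith
  have hpow2 : ((k : ℝ) + 1) ^ (260 * k) ≤ (n : ℝ) ^ (1 / (2 * r) : ℝ) := by
    rw [← log_le_log_iff (by positivity) (by positivity), log_rpow hn0]
    refine hpow.trans (le_of_eq ?_)
    ring
  have hB0 : (0 : ℝ) < ((k : ℝ) + 1) ^ (260 * k) := by positivity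
  refine ⟨hn16, hege, k, hk1, ?_, ?_, ?_⟩
  · have h1 : ((k : ℝ) + 1) ^ (260 * k) ≤ (2 : ℝ) ^ e := by
      rw [← log_le_log_iff (by positivity) (by positivity), log_pow 2]
      refine hpow.trans (le_trans ?_ he2)
      have h6 : x / r = x / (2 * r) + x / (2 * r) := by ring
      have h7 : 50 ≤ x / (2 * r) := by
        rw [le_div_iff₀ (by positivity)]
        linarith
      linarith
    exact_mod_cast h1
  · intro T hT
    have hT1 : (T : ℝ) ≤ w / 2 * N := by
      refine hT.trans (le_of_eq ?_)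
      rw [hw]
      ring
    constructor
    · have h1 : (T : ℝ) ≤ (k * (n * 4 ^ e) : ℕ) := by
        refine hT1.trans ?_
        have h2 : (N : ℝ) ≤ 2 * (n * 4 ^ e : ℕ) := by exact_mod_cast hN2
        have h3 : w / 2 * N ≤ w / 2 * (2 * (n * 4 ^ e : ℕ)) :=
          mul_le_mul_of_nonneg_left h2 (by positivity)
        have h4 : w / 2 * (2 * (n * 4 ^ e : ℕ)) = w * ((n * 4 ^ e : ℕ) : ℝ) := by ring
        have h5 : w * ((n * 4 ^ e : ℕ) : ℝ) ≤ k * ((n * 4 ^ e : ℕ) : ℝ) :=
          mul_le_mul_of_nonneg_right hkw (Nat.cast_nonneg _)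
        have h6 : ((k * (n * 4 ^ e) : ℕ) : ℝ) = k * ((n * 4 ^ e : ℕ) : ℝ) := by
          push_cast
          ring
        rw [h6]
        linarith
      exact_mod_cast h1
    · have hyN : y ≤ N := by
        have := log_le_sub_one_of_pos hN0
        linarith
      have hN400 : (100 : ℝ) ≤ N := by linarith
      have h1 : (T : ℝ) + 1 ≤ (N ^ 2 : ℕ) := by
        have h2 : w / 2 * N ≤ 1 / 10000 * N * N := by
          have : w / 2 ≤ 1 / 10000 * N := by linarith
          exact mul_le_mul_of_nonneg_right this hN0.le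
        push_cast
        nlinarith
      exact_mod_cast h1
  · have h1 : (n : ℝ) ^ (1 - 1 / (2 * r) : ℝ) ≤ (n : ℝ) / ((k : ℝ) + 1) ^ (260 * k) := by
      rw [le_div_iff₀ hB0]
      calc (n : ℝ) ^ (1 - 1 / (2 * r) : ℝ) * ((k : ℝ) + 1) ^ (260 * k)
          ≤ (n : ℝ) ^ (1 - 1 / (2 * r) : ℝ) * (n : ℝ) ^ (1 / (2 * r) : ℝ) :=
            mul_le_mul_of_nonneg_left hpow2 (by positivity)
        _ = n := by
            rw [← rpow_add hn0]
            norm_num
    have h2 : (N : ℝ) ^ (1 - 4 / r : ℝ) ≤ 2 * (n : ℝ) ^ (1 - 2 / r : ℝ) := by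
      have hN1' : (1 : ℝ) ≤ N := hn1.trans hnN
      have h22 : (2 : ℝ) / r ≤ 1 := by
        rw [div_le_one hr0]
        exact hr2
      rcases le_total (4 : ℝ) r with h4 | h4
      · have h41 : (0 : ℝ) ≤ 1 - 4 / r := by
          rw [sub_nonneg, div_le_one hr0]
          exact h4
        have h42 : (1 - 4 / r : ℝ) ≤ 1 := by
          have : (0 : ℝ) ≤ 4 / r := by positivity
          linarith
        calc (N : ℝ) ^ (1 - 4 / r : ℝ) ≤ (2 * (n : ℝ) ^ (1 + 2 / r : ℝ)) ^ (1 - 4 / r : ℝ) :=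
              rpow_le_rpow hN0.le hNpow h41
          _ = (2 : ℝ) ^ (1 - 4 / r : ℝ) * (n : ℝ) ^ ((1 + 2 / r) * (1 - 4 / r) : ℝ) := by
              rw [mul_rpow (by norm_num) (by positivity), ← rpow_mul hn0.le]
          _ ≤ (2 : ℝ) ^ (1 : ℝ) * (n : ℝ) ^ (1 - 2 / r : ℝ) := by
              apply mul_le_mul _ _ (by positivity) (by positivity)
              · exact rpow_le_rpow_of_exponent_le one_le_two h42
              · apply rpow_le_rpow_of_exponent_le hn1
                have h5 : ((1 : ℝ) + 2 / r) * (1 - 4 / r) = 1 - 2 / r - 8 * (1 / r) ^ 2 := by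
                  ring
                have h6 : (0 : ℝ) ≤ 8 * (1 / r) ^ 2 := by positivity
                rw [h5]
                linarith
          _ = 2 * (n : ℝ) ^ (1 - 2 / r : ℝ) := by rw [rpow_one]
      · have h41 : (1 - 4 / r : ℝ) ≤ 0 := by
          rw [sub_nonpos, le_div_iff₀ hr0]
          linarith
        have h5 : (N : ℝ) ^ (1 - 4 / r : ℝ) ≤ 1 := rpow_le_one_of_one_le_of_nonpos hN1' h41
        have h6 : (1 : ℝ) ≤ (n : ℝ) ^ (1 - 2 / r : ℝ) := one_le_rpow hn1 (by linarith)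
        linarith
    have h3 : (N : ℝ) ^ 8 = (2 : ℝ) ^ (8 * (y / log 2)) := by
      rw [rpow_def_of_pos (by norm_num), show log 2 * (8 * (y / log 2)) = 8 * y by
        field_simp]
      rw [show (8 : ℝ) * y = ((8 : ℕ) : ℝ) * y by norm_num, ← log_pow, exp_log (by positivity)]
    have h3' : ((2 : ℝ) ^ ((N : ℝ) ^ (1 - 4 / r : ℝ))) ^ 4 =
        (2 : ℝ) ^ (4 * (N : ℝ) ^ (1 - 4 / r : ℝ)) := by
      rw [← rpow_natCast, ← rpow_mul (by norm_num)]
      congr 1
      push_cast
      ring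
    rw [h3, h3', ← rpow_add (by norm_num)]
    apply rpow_le_rpow_of_exponent_le one_le_two
    refine le_trans ?_ h1
    have h4 : 8 * (y / log 2) ≤ 40 * x := by
      rw [← mul_div_assoc, div_le_iff₀ (by linarith)]
      nlinarith
    have h5 : (n : ℝ) ^ (1 - 1 / (2 * r) : ℝ) =
        (n : ℝ) ^ (1 - 2 / r : ℝ) * (n : ℝ) ^ (3 / (2 * r) : ℝ) := by
      rw [← rpow_add hn0]
      congr 1
      ring
    have h6 : 16 * (n : ℝ) ^ (1 - 2 / r : ℝ) ≤ (n : ℝ) ^ (1 - 1 / (2 * r) : ℝ) := by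
      rw [h5, mul_comm]
      exact mul_le_mul_of_nonneg_left e2 (by positivity)
    have h7 : (n : ℝ) ^ (1 / 2 : ℝ) ≤ (n : ℝ) ^ (1 - 1 / (2 * r) : ℝ) := by
      apply rpow_le_rpow_of_exponent_le hn1
      have : (1 : ℝ) / (2 * r) ≤ 1 / 2 := by
        rw [div_le_div_iff₀ (by positivity) (by norm_num)]
        linarith
      linarith
    linarith

end Pool.Agent.HPM.NUM
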