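import Pool.Agent.HPM.Main
import Pool.Agent.HPM.Col
import Pool.Agent.HPM.Hash
import Pool.Agent.HPM.Blk
import Pool.Agent.HPM.Low
import Pool.Agent.HPM.Mac
import Pool.Agent.HPM.Nume
import Pool.Agent.HPM.Card

/-!
The modules are put together.
-/

set_option autoImplicit false

namespace Pool.Agent.HPM

theorem t_LOW' : S_LOW := LOW.t_LOW t_COL HASH.t_HASH BLK.t_BLK

theorem t_NUM' : S_NUM := NUM.t_NUM

theorem t_MACH' : S_MACH := MACH.t_MACH

end Pool.Agent.HPM
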