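import Pool.Agent.HPM.Defs

/-!
# The function of the final theorem

The function `hashF` of `Pool/Agent/HPM/Defs.lean`, written with named parts (the two functions are
equal, `hashF_eq`).
-/

set_option autoImplicit false

namespace Pool.Agent.HPM.Fn

open Finset
open Pool.Agent.Lib_helper26.AC (binary)

/-- The coordinates of the elements of the field with `2 ^ h` elements: a basis over the field with
two elements. -/
abbrev Coord (h : ℕ) : Type := Module.Basis (Fin h) (ZMod 2) (GaloisField 2 h)

/-- the hash value of `x`: the first `2 e` coordinates of `b x(a)` -/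
noncomputable def hash {n e h : ℕ} (β : Coord h) (hh : 2 * e ≤ h) (a b : Fin h → Bool)
    (x : Fin n → Bool) : Fin (2 * e) → Bool := fun i =>
  decide (β.repr (elt β b * val x (elt β a)) (Fin.castLE hh i) = 1)

/-- The point `l` of the input `v` satisfies the condition `t` of the input: its hash value for the
elements `a`, `b` of the condition is `s`. -/
def Sat {n e L : ℕ} (β : Coord (deg n e)) (v : VarH n e L → Bool) (t : Fin (conds n e))
    (l : Fin L) : Prop :=
  hash β (two_e_le n e) (fun i => v (Sum.inl (Sum.inl (t, Sum.inl (Sum.inl i)))))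
    (fun i => v (Sum.inl (Sum.inl (t, Sum.inl (Sum.inr i))))) (fun j => v (Sum.inr (l, j))) =
      fun i => v (Sum.inl (Sum.inl (t, Sum.inr i)))

/-- the polarity bit -/
def pol {n e L : ℕ} (v : VarH n e L → Bool) : Bool := v (Sum.inl (Sum.inr (Sum.inl ())))

/-- the number of the pairs of a condition and a point such that the point satisfies the condition
(or, if the polarity bit is `true`, does not satisfy it) -/
noncomputable def count {n e L : ℕ} (β : Coord (deg n e)) (v : VarH n e L → Bool) : ℕ :=
  Nat.card {q : Fin (conds n e) × Fin L // Sat β v q.1 q.2 ↔ pol v = false}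

/-- the threshold -/
def thr {n e L : ℕ} (v : VarH n e L → Bool) : ℕ :=
  binary fun i : Fin (digs n e L) => v (Sum.inl (Sum.inr (Sum.inr i)))

/-- the function: more than `thr` pairs are counted -/
noncomputable def hashF {n e L : ℕ} (β : Coord (deg n e)) (v : VarH n e L → Bool) : Bool :=
  decide (thr v < count β v)

theorem hashF_eq {n e L : ℕ} (β : Coord (deg n e)) :
    (hashF β : (VarH n e L → Bool) → Bool) = Pool.Agent.HPM.hashF β := by
  funext v
  unfold hashF Pool.Agent.HPM.hashF thr
  have h : count β v = (univ.filter (fun q : Fin (conds n e) × Fin L =>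
      decide (Pool.Agent.HPM.hash β (fun i => v (Sum.inl (Sum.inl (q.1, Sum.inl (Sum.inl i)))))
        (fun i => v (Sum.inl (Sum.inl (q.1, Sum.inl (Sum.inr i)))))
        (fun j => v (Sum.inr (q.2, j))) =
          fun i => v (Sum.inl (Sum.inl (q.1, Sum.inr i)))) ≠
        v (Sum.inl (Sum.inr (Sum.inl ()))))).card := by
    classical
    unfold count
    rw [Nat.card_eq_fintype_card, Fintype.card_subtype]
    congr 1
    ext q
    simp only [mem_filter, mem_univ, true_and]
    unfold pol Sat
    change (Pool.Agent.HPM.hash β _ _ _ = _ ↔ _) ↔ _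
    by_cases h1 : Pool.Agent.HPM.hash β (fun i => v (Sum.inl (Sum.inl (q.1, Sum.inl (Sum.inl i)))))
        (fun i => v (Sum.inl (Sum.inl (q.1, Sum.inl (Sum.inr i)))))
        (fun j => v (Sum.inr (q.2, j))) = fun i => v (Sum.inl (Sum.inl (q.1, Sum.inr i)))
    · cases v (Sum.inl (Sum.inr (Sum.inl ()))) <;> simp [h1]
    · cases v (Sum.inl (Sum.inr (Sum.inl ()))) <;> simp [h1]
  rw [h]

end Pool.Agent.HPM.Fn
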