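import Pool.Agent.HPM.Many
import Pool.Agent.HPM.Fun

/-!
# Upper bound: PP mode for every reading schedule
-/

set_option autoImplicit false

namespace Pool.Agent.HPM

open Finset
open Pool.Agent.Lib_helper26.AC (binary)
open Pool.Agent.UM (InPP)

namespace SCH

/-! ### Sums over the cells -/

section sum

variable {s T : ℕ} {I A : Type} [AddCommMonoid A]

open Classical in
/-- the contribution of the cells read at the time `t` -/
noncomputable def con (σ : Fin T → Fin s → I) (ρ : I → Fin T × Fin s) (g : I → Bool → A) (t : ℕ)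
    (a : Fin s → Bool) : A :=
  if h : t < T then ∑ j, if ρ (σ ⟨t, h⟩ j) = (⟨t, h⟩, j) then g (σ ⟨t, h⟩ j) (a j) else 0 else 0

/-- the machine that adds the contributions of the cells -/
noncomputable def mach (i₀ : I) (σ : Fin T → Fin s → I) (ρ : I → Fin T × Fin s)
    (g : I → Bool → A) (acc : A → Prop) : GMachs s 0 I A where
  start := 0
  query t _ := if h : t < T then σ ⟨t, h⟩ else fun _ => i₀
  next t v a _ := v + con σ ρ g t a
  acc := acc

theorem mach_state (i₀ : I) (σ : Fin T → Fin s → I) (ρ : I → Fin T × Fin s)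
    (g : I → Bool → A) (acc : A → Prop) (x : I → Bool) (c : ℕ → Fin 0 → Bool) (t : ℕ) :
    (mach i₀ σ ρ g acc).state x c t =
      ∑ τ ∈ range t, con σ ρ g τ (fun j => x ((if h : τ < T then σ ⟨τ, h⟩ else fun _ => i₀) j)) := by
  induction t with
  | zero => rfl
  | succ t ih =>
    rw [sum_range_succ, ← ih]
    rfl

/-- **Sums over the cells can be computed in every schedule.** -/
theorem decOs_sum [Fintype I] (i₀ : I) (σ : Fin T → Fin s → I) (hσ : ∀ i, ∃ t j, σ t j = i)
    (g : I → Bool → A) (acc : A → Prop) :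
    DecOs s I A T σ (fun x => acc (∑ i, g i (x i))) := by
  classical
  have h1 : ∀ i, ∃ p : Fin T × Fin s, σ p.1 p.2 = i := fun i => by
    obtain ⟨t, j, h⟩ := hσ i
    exact ⟨(t, j), h⟩
  choose ρ hρ using h1
  refine ⟨mach i₀ σ ρ g acc, fun t v => ?_, fun x => ?_⟩
  · show (if h : (t : ℕ) < T then σ ⟨t, h⟩ else fun _ => i₀) = σ t
    rw [dif_pos t.2]
  · have h2 : (mach i₀ σ ρ g acc).state x (fun _ _ => false) T = ∑ i, g i (x i) := by
      rw [mach_state, ← Fin.sum_univ_eq_sum_range (fun τ => con σ ρ g τ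
        (fun j => x ((if h : τ < T then σ ⟨τ, h⟩ else fun _ => i₀) j))) T]
      have h3 : ∀ t : Fin T, con σ ρ g t
          (fun j => x ((if h : (t : ℕ) < T then σ ⟨t, h⟩ else fun _ => i₀) j)) =
          ∑ j, if ρ (σ t j) = (t, j) then g (σ t j) (x (σ t j)) else 0 := by
        intro t
        unfold con
        rw [dif_pos t.2]
        refine sum_congr rfl fun j _ => ?_
        rw [dif_pos t.2]
      rw [sum_congr rfl fun t _ => h3 t, ← Fintype.sum_prod_type'
        (f := fun (t : Fin T) (j : Fin s) => if ρ (σ t j) = (t, j) then g (σ t j) (x (σ t j)) else 0),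
        ← sum_filter]
      refine sum_nbij' (fun p => σ p.1 p.2) ρ (fun p _ => mem_univ _) (fun i _ => ?_) (fun p hp => ?_)
        (fun i _ => hρ i) (fun p _ => rfl)
      · rw [mem_filter]
        exact ⟨mem_univ _, by rw [hρ i]⟩
      · rw [mem_filter] at hp
        exact hp.2
    show acc (∑ i, g i (x i)) ↔ acc ((mach i₀ σ ρ g acc).state x (fun _ _ => false) T)
    rw [h2]

end sum

/-! ### PP mode -/

theorem inPP_of_count {I Ω : Type} [Fintype Ω] {𝓒 : ((I → Bool) → Prop) → Prop}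
    (hT : 𝓒 fun _ => True) (hF : 𝓒 fun _ => False) (P : Ω → (I → Bool) → Prop)
    (hP : ∀ ω, 𝓒 (P ω)) (W R : ℕ) (hR : R ≤ 2 ^ W) (hΩ : Fintype.card Ω ≤ 2 ^ W + R)
    (L : (I → Bool) → Prop) (hL : ∀ x, L x ↔ R < Nat.card {ω // P ω x}) :
    InPP 𝓒 (W + 1) L := by
  classical
  have hcard : Fintype.card (Fin (2 ^ (W + 1))) =
      Fintype.card (Ω ⊕ (Fin (2 ^ W - R) ⊕ Fin (2 ^ W + R - Fintype.card Ω))) := by
    rw [Fintype.card_sum, Fintype.card_sum, Fintype.card_fin, Fintype.card_fin, Fintype.card_fin,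
      pow_succ]
    omega
  let φ := Fintype.equivOfCardEq hcard
  let Q : Ω ⊕ (Fin (2 ^ W - R) ⊕ Fin (2 ^ W + R - Fintype.card Ω)) → (I → Bool) → Prop :=
    Sum.elim P (Sum.elim (fun _ _ => True) (fun _ _ => False))
  have hQ : ∀ ω, 𝓒 (Q ω) := by
    rintro (ω | ω | ω)
    · exact hP ω
    · exact hT
    · exact hF
  refine ⟨fun w => Q (φ w), fun w => hQ _, fun x => ?_⟩
  have h1 : Nat.card {w // Q (φ w) x} = Nat.card {ω // P ω x} + (2 ^ W - R) := by
    have e1 : {w // Q (φ w) x} ≃ {ω // Q ω x} := φ.subtypeEquiv fun w => Iff.rfl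
    rw [Nat.card_congr e1, Nat.card_congr (Equiv.subtypeSum), Nat.card_sum,
      Nat.card_congr (Equiv.subtypeSum (p := fun ω => Q (Sum.inr ω) x)), Nat.card_sum]
    have e2 : Nat.card {a : Fin (2 ^ W - R) // Q (Sum.inr (Sum.inl a)) x} = 2 ^ W - R := by
      have : ∀ a : Fin (2 ^ W - R), Q (Sum.inr (Sum.inl a)) x := fun a => trivial
      rw [Nat.card_congr (Equiv.subtypeUnivEquiv this), Nat.card_fin]
    have e3 : Nat.card {a : Fin (2 ^ W + R - Fintype.card Ω) // Q (Sum.inr (Sum.inr a)) x} = 0 := by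
      rw [Nat.card_eq_zero]
      left
      exact ⟨fun a => a.2⟩
    rw [e2, e3]
    rfl
  rw [hL x, h1, pow_succ]
  omega

/-! ### The machines -/

variable {n e L : ℕ}

/-- the states: whether all guesses were right; the value of the polynomial; the polarity bit -/
abbrev St (n e : ℕ) : Type := Additive (ZMod 2) × (GaloisField 2 (deg n e) × ZMod 2)

/-- the guesses: a pair of a condition and a point, and the bits of the condition -/
abbrev Gs (n e L : ℕ) : Type := (Fin (conds n e) × Fin L) ×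
  ((Fin (deg n e) → Bool) × (Fin (deg n e) → Bool) × (Fin (2 * e) → Bool))

/-- the bit `y` of the cell agrees with the guess -/
def ok (ω : Gs n e L) : VarH n e L → Bool → Bool
  | Sum.inl (Sum.inl (t, Sum.inl (Sum.inl i))), y => decide (t = ω.1.1 → y = ω.2.1 i)
  | Sum.inl (Sum.inl (t, Sum.inl (Sum.inr i))), y => decide (t = ω.1.1 → y = ω.2.2.1 i)
  | Sum.inl (Sum.inl (t, Sum.inr i)), y => decide (t = ω.1.1 → y = ω.2.2.2 i)
  | Sum.inl (Sum.inr _), _ => true
  | Sum.inr _, _ => true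

/-- the contribution of the cell to the value of the polynomial -/
noncomputable def zc (β : Fn.Coord (deg n e)) (ω : Gs n e L) :
    VarH n e L → Bool → GaloisField 2 (deg n e)
  | Sum.inl _, _ => 0
  | Sum.inr (l, j), y => if l = ω.1.2 then (if y then elt β ω.2.1 ^ (j : ℕ) else 0) else 0

/-- the polarity bit -/
def pc : VarH n e L → Bool → ZMod 2
  | Sum.inl (Sum.inr (Sum.inl _)), y => if y then 1 else 0
  | _, _ => 0

/-- the contribution of the cell -/
noncomputable def gc (β : Fn.Coord (deg n e)) (ω : Gs n e L) (i : VarH n e L) (y : Bool) :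
    St n e := (Additive.ofMul (if ok ω i y then 1 else 0), (zc β ω i y, pc i y))

/-- acceptance -/
def ac (β : Fn.Coord (deg n e)) (ω : Gs n e L) (u : St n e) : Prop :=
  Additive.toMul u.1 = 1 ∧
    (((fun i => decide (β.repr (elt β ω.2.2.1 * u.2.1) (Fin.castLE (two_e_le n e) i) = 1)) =
      ω.2.2.2) ↔ u.2.2 = 0)

theorem sum_zc (β : Fn.Coord (deg n e)) (ω : Gs n e L) (x : VarH n e L → Bool) :
    ∑ i, zc β ω i (x i) = val (fun j => x (Sum.inr (ω.1.2, j))) (elt β ω.2.1) := by
  have h0 : ∀ i, zc β ω (Sum.inl i) (x (Sum.inl i)) = 0 := fun i => rfl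
  rw [Fintype.sum_sum_type, sum_congr rfl fun i _ => h0 i, sum_const_zero, zero_add,
    Fintype.sum_prod_type, sum_eq_single ω.1.2]
  · unfold val
    refine sum_congr rfl fun j _ => ?_
    show (if ω.1.2 = ω.1.2 then _ else _) = _
    rw [if_pos rfl]
  · intro l _ hl
    refine sum_eq_zero fun j _ => ?_
    show (if l = ω.1.2 then _ else _) = _
    rw [if_neg hl]
  · intro h
    exact absurd (mem_univ _) h

theorem sum_pc (x : VarH n e L → Bool) :
    ∑ i, pc i (x i) = if Fn.pol x then 1 else 0 := by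
  rw [Fintype.sum_sum_type, Fintype.sum_sum_type, Fintype.sum_sum_type]
  have h1 : ∀ i : Fin (conds n e) × ((Fin (deg n e) ⊕ Fin (deg n e)) ⊕ Fin (2 * e)),
      pc (Sum.inl (Sum.inl i) : VarH n e L) (x (Sum.inl (Sum.inl i))) = 0 := fun i => rfl
  have h2 : ∀ i : Fin (digs n e L), pc (Sum.inl (Sum.inr (Sum.inr i)) : VarH n e L)
      (x (Sum.inl (Sum.inr (Sum.inr i)))) = 0 := fun i => rfl
  have h3 : ∀ i : Fin L × Fin n, pc (Sum.inr i : VarH n e L) (x (Sum.inr i)) = 0 := fun i => rfl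
  rw [sum_congr rfl fun i _ => h1 i, sum_congr rfl fun i _ => h2 i, sum_congr rfl fun i _ => h3 i]
  simp only [sum_const_zero, add_zero, zero_add, univ_unique, sum_singleton]
  rfl

/-- the guess is right and the pair is counted -/
def Pr (β : Fn.Coord (deg n e)) (ω : Gs n e L) (x : VarH n e L → Bool) : Prop :=
  ((fun i => x (Sum.inl (Sum.inl (ω.1.1, Sum.inl (Sum.inl i))))) = ω.2.1 ∧
    (fun i => x (Sum.inl (Sum.inl (ω.1.1, Sum.inl (Sum.inr i))))) = ω.2.2.1 ∧
    (fun i => x (Sum.inl (Sum.inl (ω.1.1, Sum.inr i)))) = ω.2.2.2) ∧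
  (Fn.Sat β x ω.1.1 ω.1.2 ↔ Fn.pol x = false)

theorem all_ok (ω : Gs n e L) (x : VarH n e L → Bool) : (∀ i, ok ω i (x i) = true) ↔
    ((fun i => x (Sum.inl (Sum.inl (ω.1.1, Sum.inl (Sum.inl i))))) = ω.2.1 ∧
    (fun i => x (Sum.inl (Sum.inl (ω.1.1, Sum.inl (Sum.inr i))))) = ω.2.2.1 ∧
    (fun i => x (Sum.inl (Sum.inl (ω.1.1, Sum.inr i)))) = ω.2.2.2) := by
  constructor
  · intro h
    refine ⟨funext fun i => ?_, funext fun i => ?_, funext fun i => ?_⟩
    · have := h (Sum.inl (Sum.inl (ω.1.1, Sum.inl (Sum.inl i))))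
      unfold ok at this
      exact (decide_eq_true_iff.1 this) rfl
    · have := h (Sum.inl (Sum.inl (ω.1.1, Sum.inl (Sum.inr i))))
      unfold ok at this
      exact (decide_eq_true_iff.1 this) rfl
    · have := h (Sum.inl (Sum.inl (ω.1.1, Sum.inr i)))
      unfold ok at this
      exact (decide_eq_true_iff.1 this) rfl
  · rintro ⟨h1, h2, h3⟩ i
    rcases i with ((⟨t, ((i | i) | i)⟩) | i) | i
    · unfold ok
      refine decide_eq_true_iff.2 fun ht => ?_
      subst ht
      exact congrFun h1 i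
    · unfold ok
      refine decide_eq_true_iff.2 fun ht => ?_
      subst ht
      exact congrFun h2 i
    · unfold ok
      refine decide_eq_true_iff.2 fun ht => ?_
      subst ht
      exact congrFun h3 i
    · rfl
    · rfl

theorem ac_iff (β : Fn.Coord (deg n e)) (ω : Gs n e L) (x : VarH n e L → Bool) :
    Pr β ω x ↔ ac β ω (∑ i, gc β ω i (x i)) := by
  have e1 : Additive.toMul (∑ i, gc β ω i (x i)).1 = if ∀ i, ok ω i (x i) = true then 1 else 0 := by
    rw [Prod.fst_sum]
    have e0 : ∑ i, (gc β ω i (x i)).1 =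
        Additive.ofMul (∏ i, (if ok ω i (x i) = true then (1 : ZMod 2) else 0)) := by
      rw [ofMul_prod]
      rfl
    rw [e0, toMul_ofMul, prod_ite_zero]
    simp
  have e2 : (∑ i, gc β ω i (x i)).2.1 = val (fun j => x (Sum.inr (ω.1.2, j))) (elt β ω.2.1) := by
    rw [Prod.snd_sum, Prod.fst_sum, ← sum_zc]
    rfl
  have e3 : (∑ i, gc β ω i (x i)).2.2 = if Fn.pol x then 1 else 0 := by
    rw [Prod.snd_sum, Prod.snd_sum, ← sum_pc]
    rfl
  unfold ac Pr
  rw [e1, e2, e3, ← all_ok]
  have h1 : ((if ∀ i, ok ω i (x i) = true then (1 : ZMod 2) else 0) = 1) ↔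
      ∀ i, ok ω i (x i) = true := by
    split_ifs with h
    · exact iff_of_true rfl h
    · exact iff_of_false zero_ne_one h
  have h2 : ((if Fn.pol x = true then (1 : ZMod 2) else 0) = 0) ↔ Fn.pol x = false := by
    cases Fn.pol x <;> simp
  rw [h1, h2]
  refine and_congr_right fun h => ?_
  rw [all_ok] at h
  obtain ⟨a1, a2, a3⟩ := h
  unfold Fn.Sat
  rw [a1, a2, a3]
  exact Iff.rfl

/-- the pairs which are counted -/
theorem card_Pr (β : Fn.Coord (deg n e)) (x : VarH n e L → Bool) :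
    Nat.card {ω : Gs n e L // Pr β ω x} = Fn.count β x := by
  unfold Fn.count
  refine Nat.card_congr ⟨fun ω => ⟨ω.1.1, ω.2.2⟩, fun q => ⟨(q.1,
    (fun i => x (Sum.inl (Sum.inl (q.1.1, Sum.inl (Sum.inl i)))),
    fun i => x (Sum.inl (Sum.inl (q.1.1, Sum.inl (Sum.inr i)))),
    fun i => x (Sum.inl (Sum.inl (q.1.1, Sum.inr i))))), ⟨rfl, rfl, rfl⟩, q.2⟩, ?_, ?_⟩
  · rintro ⟨⟨q, a, b, s'⟩, ⟨h1, h2, h3⟩, h4⟩
    simp only at h1 h2 h3
    subst h1 h2 h3
    rfl
  · rintro ⟨q, hq⟩
    rfl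

/-! ### The digits of the threshold -/

/-- the number `2 ^ m - 1 - θ` -/
theorem card_dig {m : ℕ} (z : Fin m → Bool) :
    Nat.card {p : Σ i : Fin m, Fin (2 ^ (i : ℕ)) // z p.1 = false} + binary z = 2 ^ m - 1 := by
  have h1 : Nat.card {p : Σ i : Fin m, Fin (2 ^ (i : ℕ)) // z p.1 = false} =
      ∑ i : Fin m, if z i = false then 2 ^ (i : ℕ) else 0 := by
    classical
    rw [Nat.card_eq_fintype_card, Fintype.card_subtype, card_eq_sum_ones, sum_filter,
      Fintype.sum_sigma]
    refine sum_congr rfl fun i _ => ?_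
    split_ifs with h
    · simp [h]
    · simp [h]
  rw [h1]
  unfold binary
  rw [← sum_add_distrib]
  have h2 : ∀ i : Fin m, ((if z i = false then 2 ^ (i : ℕ) else 0) +
      if z i = true then 2 ^ (i : ℕ) else 0) = 2 ^ (i : ℕ) := by
    intro i
    cases z i <;> simp
  rw [sum_congr rfl fun i _ => h2 i, Fin.sum_univ_eq_sum_range (fun i => 2 ^ i) m,
    Nat.geomSum_eq le_rfl]
  simp

/-- the contribution of the cells for the machine which looks at one digit -/
noncomputable def dc (i₁ : VarH n e L) (i : VarH n e L) (y : Bool) : St n e :=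
  (0, (0, if i = i₁ then (if y then 1 else 0) else 0))

theorem sum_dc (i₁ : VarH n e L) (x : VarH n e L → Bool) :
    (∑ i, dc i₁ i (x i)).2.2 = if x i₁ then 1 else 0 := by
  rw [Prod.snd_sum, Prod.snd_sum]
  show ∑ i, (if i = i₁ then (if x i then (1 : ZMod 2) else 0) else 0) = _
  rw [sum_ite_eq']
  simp

noncomputable instance : Fintype (St n e) := Fintype.ofFinite _

theorem card_St : Fintype.card (St n e) = 2 ^ (deg n e + 2) := by
  rw [← Nat.card_eq_fintype_card, Nat.card_prod, Nat.card_prod, GaloisField.card 2 _ (by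
    unfold deg
    omega)]
  have h1 : Nat.card (Additive (ZMod 2)) = 2 := by
    rw [Nat.card_congr Additive.toMul, Nat.card_zmod]
  rw [h1, Nat.card_zmod]
  ring

theorem card_Gs : Fintype.card (Gs n e L) = conds n e * L * 2 ^ (2 * deg n e + 2 * e) := by
  rw [Fintype.card_prod, Fintype.card_prod, Fintype.card_prod, Fintype.card_prod, Fintype.card_fun,
    Fintype.card_fun, Fintype.card_fin, Fintype.card_fin, Fintype.card_fin, Fintype.card_fin,
    Fintype.card_bool, pow_add, two_mul (deg n e), pow_add]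
  ring

theorem card_Dg (m : ℕ) : Fintype.card (Σ i : Fin m, Fin (2 ^ (i : ℕ))) = 2 ^ m - 1 := by
  rw [Fintype.card_sigma]
  simp only [Fintype.card_fin]
  rw [Fin.sum_univ_eq_sum_range (fun i => 2 ^ i) m, Nat.geomSum_eq le_rfl]
  simp

end SCH

open SCH in
/-- **Upper bound for every schedule.** `hashF` is in PP mode of deterministic machines with
`2 ^ (deg + 2)` states that read the cells in any given schedule. -/
theorem t_SCH (n e L : ℕ) (β : Fn.Coord (deg n e)) : ∃ (V : Type) (_ : Fintype V),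
    Fintype.card V = 2 ^ (deg n e + 2) ∧
    ∀ (s T : ℕ) (σ : Fin T → Fin s → VarH n e L), (∀ i, ∃ t j, σ t j = i) →
      InPP (DecOs s (VarH n e L) V T σ) (digs n e L + (2 * deg n e + 2 * e) + 1)
        (fun v => Fn.hashF β v = true) := by
  classical
  refine ⟨St n e, inferInstance, card_St, fun s T σ hσ => ?_⟩
  have i₀ : VarH n e L := Sum.inl (Sum.inr (Sum.inl ()))
  have hcon : ∀ Q : Prop, DecOs s (VarH n e L) (St n e) T σ (fun _ => Q) := fun Q =>
    decOs_sum i₀ σ hσ (fun _ _ => (0 : St n e)) (fun _ => Q)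
  have hdig : ∀ i₁ : VarH n e L, DecOs s (VarH n e L) (St n e) T σ (fun x => x i₁ = false) := by
    intro i₁
    have h := decOs_sum i₀ σ hσ (dc (n := n) (e := e) (L := L) i₁) (fun u => u.2.2 = 0)
    have e1 : (fun x : VarH n e L → Bool => x i₁ = false) =
        fun x => (∑ i, dc i₁ i (x i)).2.2 = 0 := by
      funext x
      rw [sum_dc]
      cases x i₁ <;> simp
    rw [e1]
    exact h
  have hpr : ∀ ω : Gs n e L, DecOs s (VarH n e L) (St n e) T σ (Pr β ω) := by
    intro ω
    have h := decOs_sum i₀ σ hσ (gc β ω) (ac β ω)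
    have e1 : Pr β ω = fun x => ac β ω (∑ i, gc β ω i (x i)) := by
      funext x
      exact propext (ac_iff β ω x)
    rw [e1]
    exact h
  let Ω : Type := Gs n e L ⊕ (Σ i : Fin (digs n e L), Fin (2 ^ (i : ℕ)))
  let P : Ω → (VarH n e L → Bool) → Prop := Sum.elim (Pr β)
    (fun p x => x (Sum.inl (Sum.inr (Sum.inr p.1))) = false)
  have hYM : conds n e * L < 2 ^ digs n e L := Nat.lt_pow_succ_log_self (by norm_num) _
  refine inPP_of_count (hcon True) (hcon False) P ?_ (digs n e L + (2 * deg n e + 2 * e))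
    (2 ^ digs n e L - 1) ?_ ?_ _ fun x => ?_
  · rintro (ω | p)
    · exact hpr ω
    · exact hdig _
  · exact (Nat.sub_le _ _).trans (Nat.pow_le_pow_right (by norm_num) (by omega))
  · show Fintype.card (Gs n e L ⊕ (Σ i : Fin (digs n e L), Fin (2 ^ (i : ℕ)))) ≤ _
    rw [Fintype.card_sum, card_Gs, card_Dg, pow_add 2 (digs n e L)]
    exact Nat.add_le_add_right (Nat.mul_le_mul_right _ hYM.le) _
  · have h1 : Nat.card {ω : Ω // P ω x} = Fn.count β x +
        Nat.card {p : Σ i : Fin (digs n e L), Fin (2 ^ (i : ℕ)) //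
          x (Sum.inl (Sum.inr (Sum.inr p.1))) = false} := by
      rw [Nat.card_congr (Equiv.subtypeSum), Nat.card_sum]
      congr 1
      exact card_Pr β x
    have h2 := card_dig (fun i : Fin (digs n e L) => x (Sum.inl (Sum.inr (Sum.inr i))))
    rw [h1]
    unfold Fn.hashF Fn.thr
    rw [decide_eq_true_iff]
    have h3 : 1 ≤ 2 ^ digs n e L := Nat.one_le_two_pow
    omega

end Pool.Agent.HPM
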