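import Pool.Agent.HPM.Many
import Pool.Agent.HPM.Mac

/-!
# Machines some of whose guesses influence everything
-/

set_option autoImplicit false

namespace Pool.Agent.HPM

open Pool.Agent.Lib_helper20.SRO

namespace UNI

variable {W I : Type} {Q : W → Type}

/-- The union of branching programs. -/
def un (G : ∀ w, NBP I (Q w)) : NBP I (Option (Option (Σ w, Q w))) where
  source := some none
  sink := none
  edge u v o :=
    (∃ w, u = some none ∧ v = some (some ⟨w, (G w).source⟩) ∧ o = none) ∨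
    (∃ w p q, u = some (some ⟨w, p⟩) ∧ v = some (some ⟨w, q⟩) ∧ (G w).edge p q o) ∨
    (∃ w, u = some (some ⟨w, (G w).sink⟩) ∧ v = none ∧ o = none)

variable {G : ∀ w, NBP I (Q w)}

lemma walk_sink {u v : Option (Option (Σ w, Q w))} {l : List (I × Bool)}
    (h : Walk (un G) u v l) (hu : u = none) : v = none ∧ l = [] := by
  cases h with
  | nil => exact ⟨hu, rfl⟩
  | free he _ =>
    subst hu
    rcases he with ⟨w, h1, -⟩ | ⟨w, p, q, h1, -⟩ | ⟨w, h1, -⟩ <;> exact absurd h1 (by simp)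
  | test y c he _ =>
    subst hu
    rcases he with ⟨w, h1, -⟩ | ⟨w, p, q, h1, -⟩ | ⟨w, h1, -⟩ <;> exact absurd h1 (by simp)

lemma walk_in {u v : Option (Option (Σ w, Q w))} {l : List (I × Bool)}
    (h : Walk (un G) u v l) : ∀ w p, u = some (some ⟨w, p⟩) →
      (∃ q, v = some (some ⟨w, q⟩) ∧ Walk (G w) p q l) ∨
        (v = none ∧ Walk (G w) p (G w).sink l) := by
  induction h with
  | nil u =>
    intro w p hu
    exact Or.inl ⟨p, hu, Walk.nil p⟩
  | @free u v' v l he hw ih =>
    intro w p hu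
    subst hu
    rcases he with ⟨w', h1, -⟩ | ⟨w', p', q', h1, h2, h3⟩ | ⟨w', h1, h2, -⟩
    · exact absurd h1 (by simp)
    · cases h1
      rcases ih w q' h2 with ⟨q, h4, h5⟩ | ⟨h4, h5⟩
      · exact Or.inl ⟨q, h4, Walk.free h3 h5⟩
      · exact Or.inr ⟨h4, Walk.free h3 h5⟩
    · cases h1
      obtain ⟨h4, h5⟩ := walk_sink hw h2
      subst h5
      exact Or.inr ⟨h4, Walk.nil _⟩
  | @test u v' v l y c he hw ih =>
    intro w p hu
    subst hu
    rcases he with ⟨w', h1, -⟩ | ⟨w', p', q', h1, h2, h3⟩ | ⟨w', h1, h2, h3⟩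
    · exact absurd h1 (by simp)
    · cases h1
      rcases ih w q' h2 with ⟨q, h4, h5⟩ | ⟨h4, h5⟩
      · exact Or.inl ⟨q, h4, Walk.test y c h3 h5⟩
      · exact Or.inr ⟨h4, Walk.test y c h3 h5⟩
    · exact absurd h3 (by simp)

lemma walk_src {u v : Option (Option (Σ w, Q w))} {l : List (I × Bool)}
    (h : Walk (un G) u v l) (hu : u = some none) : (v = some none ∧ l = []) ∨
      ∃ w, Walk (un G) (some (some ⟨w, (G w).source⟩)) v l := by
  cases h with
  | nil => exact Or.inl ⟨hu, rfl⟩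
  | free he hw =>
    subst hu
    rcases he with ⟨w, -, h2, -⟩ | ⟨w, p, q, h1, -⟩ | ⟨w, h1, -⟩
    · subst h2
      exact Or.inr ⟨w, hw⟩
    · exact absurd h1 (by simp)
    · exact absurd h1 (by simp)
  | test y c he hw =>
    subst hu
    rcases he with ⟨w, -, -, h3⟩ | ⟨w, p, q, h1, -⟩ | ⟨w, h1, -⟩
    · exact absurd h3 (by simp)
    · exact absurd h1 (by simp)
    · exact absurd h1 (by simp)

lemma walk_lift {w : W} {p q : Q w} {l : List (I × Bool)} (h : Walk (G w) p q l) :
    Walk (un G) (some (some ⟨w, p⟩)) (some (some ⟨w, q⟩)) l := by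
  induction h with
  | nil => exact Walk.nil _
  | free he _ ih => exact Walk.free (Or.inr (Or.inl ⟨w, _, _, rfl, rfl, he⟩)) ih
  | test y c he _ ih => exact Walk.test y c (Or.inr (Or.inl ⟨w, _, _, rfl, rfl, he⟩)) ih

lemma walk_app {N : Type} {G : NBP I N} {u v w : N} {l l' : List (I × Bool)}
    (h : Walk G u v l) (h' : Walk G v w l') : Walk G u w (l ++ l') := by
  induction h with
  | nil => exact h'
  | free he _ ih => exact Walk.free he (ih h')
  | test y c he _ ih => exact Walk.test y c he (ih h')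

lemma walk_full {w : W} {l : List (I × Bool)} (h : Walk (G w) (G w).source (G w).sink l) :
    Walk (un G) (some none) none l := by
  refine Walk.free (Or.inl ⟨w, rfl, rfl, rfl⟩) ?_
  have h1 := walk_app (walk_lift h)
    (Walk.free (w := none) (Or.inr (Or.inr ⟨w, rfl, rfl, rfl⟩)) (Walk.nil _))
  rwa [List.append_nil] at h1

lemma walk_acc {l : List (I × Bool)} (h : Walk (un G) (some none) none l) :
    ∃ w, Walk (G w) (G w).source (G w).sink l := by
  rcases walk_src h rfl with ⟨h1, -⟩ | ⟨w, h1⟩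
  · exact absurd h1 (by simp)
  · rcases walk_in h1 w _ rfl with ⟨q, h2, -⟩ | ⟨-, h2⟩
    · exact absurd h2 (by simp)
    · exact ⟨w, h2⟩

/-- The union of programs with one access pattern each. -/
theorem union {K : Type} [Fintype K] [Nonempty K] {W X : Type} {T B : ℕ}
    {f : (W ⊕ X → Bool) → Bool} {F : K → (W ⊕ X → Bool) → Bool}
    (hf : ∀ x, f x = true ↔ ∃ k, F k x = true)
    (h : ∀ k, ∃ (Q : Type) (_ : Fintype Q) (G : NBP (W ⊕ X) Q), G.AccessPatterns 1 ∧
      G.FewTests T ∧ G.Computes (F k) ∧ Fintype.card Q ≤ B) :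
    ∃ (Q : Type) (_ : Fintype Q) (G : NBP (W ⊕ X) Q), G.AccessPatterns (Fintype.card K) ∧
      G.FewTests T ∧ G.Computes f ∧ Fintype.card Q ≤ Fintype.card K * B + 2 := by
  classical
  choose Q hQ G h1 h2 h3 h4 using h
  have hK : (1 : ℕ∞) ≤ (Fintype.card K : ℕ) := by
    have : 1 ≤ Fintype.card K := Fintype.card_pos
    exact_mod_cast this
  have inner : ∀ (z : W ⊕ X → Bool) (k : K) (p : Q k) (v : Option (Option (Σ k, Q k))),
      {S : Set X | ∃ l, Walk (un G) (some (some ⟨k, p⟩)) v l ∧ Agrees z l ∧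
        S = {x | ∃ c, (Sum.inr x, c) ∈ l}}.encard ≤ 1 := by
    intro z k p v
    rw [Set.encard_le_one_iff]
    rintro S S' ⟨l, hl, hz, hS⟩ ⟨l', hl', hz', hS'⟩
    rcases walk_in hl k p rfl with ⟨q, h5, h6⟩ | ⟨h5, h6⟩
    · rcases walk_in hl' k p rfl with ⟨q', h5', h6'⟩ | ⟨h5', h6'⟩
      · rw [h5] at h5'
        cases h5'
        have h7 := h1 k z p q
        rw [Nat.cast_one, Set.encard_le_one_iff] at h7
        exact h7 S S' ⟨l, h6, hz, hS⟩ ⟨l', h6', hz', hS'⟩
      · rw [h5] at h5'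
        exact absurd h5' (by simp)
    · rcases walk_in hl' k p rfl with ⟨q', h5', h6'⟩ | ⟨h5', h6'⟩
      · rw [h5] at h5'
        exact absurd h5' (by simp)
      · have h7 := h1 k z p (G k).sink
        rw [Nat.cast_one, Set.encard_le_one_iff] at h7
        exact h7 S S' ⟨l, h6, hz, hS⟩ ⟨l', h6', hz', hS'⟩
  refine ⟨Option (Option (Σ k, Q k)), inferInstance, un G, ?_, ?_, ?_, ?_⟩
  · intro z u v
    rcases u with _ | _ | ⟨k, p⟩
    · refine le_trans ?_ hK
      rw [Set.encard_le_one_iff]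
      rintro S S' ⟨l, hl, hz, hS⟩ ⟨l', hl', hz', hS'⟩
      rw [hS, hS', (walk_sink hl rfl).2, (walk_sink hl' rfl).2]
    · by_cases hv : v = some none
      · refine le_trans ?_ hK
        have key : ∀ l, Walk (un G) (some none) v l → l = [] := by
          intro l hl
          rcases walk_src hl rfl with ⟨-, h5⟩ | ⟨k, h5⟩
          · exact h5
          · rcases walk_in h5 k _ rfl with ⟨q, h6, -⟩ | ⟨h6, -⟩
            · rw [hv] at h6
              exact absurd h6 (by simp)
            · rw [hv] at h6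
              exact absurd h6 (by simp)
        rw [Set.encard_le_one_iff]
        rintro S S' ⟨l, hl, hz, hS⟩ ⟨l', hl', hz', hS'⟩
        rw [hS, hS', key l hl, key l' hl']
      · let P : K → Set (Set X) := fun k => {S : Set X | ∃ l,
          Walk (un G) (some (some ⟨k, (G k).source⟩)) v l ∧ Agrees z l ∧
          S = {x | ∃ c, (Sum.inr x, c) ∈ l}}
        let c : K → Set X := fun k => if h : (P k).Nonempty then h.some else ∅
        have hc : ∀ k, ∀ S ∈ P k, S = c k := by
          intro k S hS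
          have h5 : (P k).Nonempty := ⟨S, hS⟩
          have h6 : c k = h5.some := dif_pos h5
          rw [h6]
          exact (Set.encard_le_one_iff.1 (inner z k (G k).source v)) S _ hS h5.some_mem
        have h5 : {S : Set X | ∃ l, Walk (un G) (some none) v l ∧ Agrees z l ∧
            S = {x | ∃ c, (Sum.inr x, c) ∈ l}} ⊆ c '' Set.univ := by
          rintro S ⟨l, hl, hz, hS⟩
          rcases walk_src hl rfl with ⟨h6, -⟩ | ⟨k, h6⟩
          · exact absurd h6 hv
          · exact ⟨k, Set.mem_univ k, (hc k S ⟨l, h6, hz, hS⟩).symm⟩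
        refine (Set.encard_le_encard h5).trans ((Set.encard_image_le _ _).trans ?_)
        rw [Set.encard_univ, ENat.card_eq_coe_fintype_card]
    · exact (inner z k p v).trans hK
  · rintro z ⟨l, hl, hz⟩
    obtain ⟨k, h5⟩ := walk_acc hl
    obtain ⟨l', h6, h7, h8⟩ := h2 k z ⟨l, h5, hz⟩
    exact ⟨l', walk_full h6, h7, h8⟩
  · intro z
    rw [hf]
    constructor
    · rintro ⟨l, hl, hz⟩
      obtain ⟨k, h5⟩ := walk_acc hl
      exact ⟨k, (h3 k z).1 ⟨l, h5, hz⟩⟩
    · rintro ⟨k, hk⟩
      obtain ⟨l, h5, h6⟩ := (h3 k z).2 hk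
      exact ⟨l, walk_full h5, h6⟩
  · rw [Fintype.card_option, Fintype.card_option, Fintype.card_sigma]
    have h5 : ∑ k, Fintype.card (Q k) ≤ Fintype.card K * B := by
      refine (Finset.sum_le_card_nsmul _ _ B fun k _ => h4 k).trans ?_
      rw [smul_eq_mul, Finset.card_univ]
    omega

/-- A machine with `g` free guesses, which reads `s` bits at once, is a branching program with
`2 ^ g` access patterns. -/
theorem machg {s b g T : ℕ} (hs : 0 < s) {W X V : Type} [Fintype V]
    {f : (W ⊕ X → Bool) → Bool} (h : InNPg s b g (W ⊕ X) V T (fun x => f x = true)) :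
    ∃ (Q : Type) (_ : Fintype Q) (G : NBP (W ⊕ X) Q), G.AccessPatterns (2 ^ g) ∧
      G.FewTests (T * s) ∧ G.Computes f ∧
      Fintype.card Q ≤ 4 * (2 ^ g * ((T * s + 1) * Fintype.card (V × (Fin s → Bool)) ^ 2)) := by
  classical
  obtain ⟨M, hM, hf⟩ := h
  have hV : 0 < Fintype.card (V × (Fin s → Bool)) :=
    Fintype.card_pos_iff.2 ⟨((M fun _ => false).start, fun _ => false)⟩
  have h1 := union (K := Fin g → Bool) (T := T * s)
    (B := 2 * ((T * s + 1) * Fintype.card (V × (Fin s → Bool)) ^ 2)) (f := f)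
    (F := fun w x => decide (∃ c, (M w).acc ((M w).state x c T)))
    (fun x => by simpa using hf x)
    (fun w => MACH.t_MACH b (T * s) W X (V × (Fin s → Bool)) _ (inNP_of_inNPs hs
      ⟨M w, hM w, fun x => by simp⟩))
  have hg : Fintype.card (Fin g → Bool) = 2 ^ g := by simp
  rw [hg] at h1
  obtain ⟨Q, hQ, G, g1, g2, g3, g4⟩ := h1
  refine ⟨Q, hQ, G, g1, g2, g3, g4.trans ?_⟩
  have h2 : 1 ≤ 2 ^ g * ((T * s + 1) * Fintype.card (V × (Fin s → Bool)) ^ 2) := by
    have : 0 < 2 ^ g * ((T * s + 1) * Fintype.card (V × (Fin s → Bool)) ^ 2) := by positivity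
    omega
  have h3 : 2 ^ g * (2 * ((T * s + 1) * Fintype.card (V × (Fin s → Bool)) ^ 2)) =
      2 * (2 ^ g * ((T * s + 1) * Fintype.card (V × (Fin s → Bool)) ^ 2)) := by ring
  omega

end UNI

end Pool.Agent.HPM
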