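import Pool.Agent.HPM.Stmts
import Pool.Agent.HPM.Sch
import Pool.Agent.HPM.Uni

/-!
The assembly.
-/

set_option autoImplicit false

namespace Pool.Agent.HPM

open Pool.Agent.Lib_helper20.SRO (NBP Walk Agrees)
open Pool.Agent.UM (InPP)

namespace MAIN

lemma few_mono {W X Q : Type} {G : NBP (W ⊕ X) Q} {m m' : ℕ} (hm : m ≤ m') (h : G.FewTests m) :
    G.FewTests m' := by
  intro b hb
  obtain ⟨l, h1, h2, h3⟩ := h b hb
  exact ⟨l, h1, h2, h3.trans hm⟩

lemma one_le_A {N r : ℕ} (hN : 1 ≤ N) : (1 : ℝ) ≤ (2 : ℝ) ^ ((N : ℝ) ^ (1 - 4 / r : ℝ)) :=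
  Real.one_le_rpow one_le_two (Real.rpow_nonneg (Nat.cast_nonneg _) _)

/-- The upper bound, with the number of states and of random bits in terms of `N`. -/
lemma upper {n e L N : ℕ} (h16 : 16 ≤ n) (hL : L = 4 ^ e)
    (h1 : n * L ≤ N)
    (β : Module.Basis (Fin (deg n e)) (ZMod 2) (GaloisField 2 (deg n e))) :
    ∃ (V : Type) (_ : Fintype V) (W : ℕ), Fintype.card V ≤ N ^ 2 ∧ 2 ^ W ≤ N ^ 5 ∧
      ∀ (s T : ℕ) (σ : Fin T → Fin s → VarH n e L), (∀ i, ∃ t j, σ t j = i) →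
        InPP (DecOs s (VarH n e L) V T σ) W (fun x => hashF β x = true) := by
  obtain ⟨V, hV, hc, hpp⟩ := t_SCH n e L β
  have hE : 1 ≤ 4 ^ e := Nat.one_le_pow _ _ (by norm_num)
  have h2 : 2 ^ deg n e ≤ 2 * n * 4 ^ e := by
    unfold deg
    rw [pow_add, pow_add, pow_mul, pow_one]
    have := Nat.pow_log_le_self 2 (show n ≠ 0 by omega)
    calc 2 ^ Nat.log 2 n * 2 * (2 ^ 2) ^ e ≤ n * 2 * (2 ^ 2) ^ e := by gcongr
      _ = 2 * n * 4 ^ e := by norm_num; ring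
  refine ⟨V, hV, digs n e L + (2 * deg n e + 2 * e) + 1, ?_, ?_, fun s T σ hσ => ?_⟩
  · rw [hc]
    calc 2 ^ (deg n e + 2) = 2 ^ deg n e * 4 := by rw [pow_add]; norm_num
      _ ≤ 2 * n * 4 ^ e * 4 := by gcongr
      _ = 8 * (n * 4 ^ e) := by ring
      _ ≤ (n * 4 ^ e) * (n * 4 ^ e) := by
          refine Nat.mul_le_mul_right _ ?_
          calc 8 ≤ n * 1 := by omega
            _ ≤ n * 4 ^ e := Nat.mul_le_mul_left _ hE
      _ = (n * 4 ^ e) ^ 2 := by ring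
      _ ≤ _ := Nat.pow_le_pow_left (by rw [← hL]; exact h1) 2
  · have h3 : 2 ^ Nat.log 2 (conds n e * L) ≤ conds n e * L := by
      apply Nat.pow_log_le_self
      have : 0 < conds n e * L := by
        apply Nat.mul_pos
        · unfold conds
          positivity
        · rw [hL]
          positivity
      omega
    have h4 : (4 : ℕ) ^ e = 2 ^ e * 2 ^ e := by
      rw [← mul_pow]
      norm_num
    have h5 : 2 ^ (2 * e) = 4 ^ e := by
      rw [pow_mul]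
      norm_num
    unfold digs
    calc 2 ^ (Nat.log 2 (conds n e * L) + 1 + (2 * deg n e + 2 * e) + 1) =
          2 ^ Nat.log 2 (conds n e * L) * (2 ^ deg n e) ^ 2 * 2 ^ (2 * e) * 4 := by ring
      _ ≤ conds n e * L * (2 * n * 4 ^ e) ^ 2 * 4 ^ e * 4 := by
          rw [h5]
          gcongr
      _ = 128 * (n ^ 3 * 2 ^ e * (4 ^ e) ^ 4) := by
          rw [hL, conds]
          ring
      _ ≤ n ^ 2 * (n ^ 3 * 4 ^ e * (4 ^ e) ^ 4) := by
          gcongr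
          · calc 128 ≤ 16 ^ 2 := by norm_num
              _ ≤ n ^ 2 := Nat.pow_le_pow_left h16 2
          · norm_num
      _ = (n * 4 ^ e) ^ 5 := by ring
      _ ≤ _ := Nat.pow_le_pow_left (by rw [← hL]; exact h1) 5
  · have h := hpp s T σ hσ
    rw [Fn.hashF_eq] at h
    exact h

end MAIN

open MAIN in
/-- The theorem, from the modules. -/
theorem main (hLOW : S_LOW) (hNUM : S_NUM) (hCARD : S_CARD) :
    (∀ r : ℕ, 2 ≤ r → ∃ (c : ℝ) (n₀ : ℕ), 0 < c ∧ ∀ n ≥ n₀, ∀ e L N : ℕ,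
      e = Nat.log 2 n / r → L = 4 ^ e → N = Fintype.card (VarH n e L) →
      ∀ β : Module.Basis (Fin (deg n e)) (ZMod 2) (GaloisField 2 (deg n e)),
      (n * L ≤ N ∧ N ≤ 2 * (n * L)) ∧
      (∀ (s b g T : ℕ) (V : Type) [Fintype V], 0 < s → (s : ℝ) + g ≤ (N : ℝ) ^ (1 - 4 / r : ℝ) →
        (T : ℝ) * s ≤ c * N * Real.log N / Real.log (Real.log N) →
        (InNPg s b g (VarH n e L) V T (fun x => hashF β x = true) ∨
          InNPg s b g (VarH n e L) V T (fun x => ¬ hashF β x = true)) →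
        (2 : ℝ) ^ ((N : ℝ) ^ (1 - 4 / r : ℝ)) ≤ Fintype.card V) ∧
      (∀ (Q : Type) [Fintype Q] (G : NBP (VarH n e L) Q) (a m : ℕ),
        (a : ℝ) ≤ 2 ^ ((N : ℝ) ^ (1 - 4 / r : ℝ)) →
        (m : ℝ) ≤ c * N * Real.log N / Real.log (Real.log N) →
        G.AccessPatterns a → G.FewTests m →
        (G.Computes (hashF β) ∨ G.Computes (fun v => !hashF β v)) →
        (2 : ℝ) ^ ((N : ℝ) ^ (1 - 4 / r : ℝ)) ≤ Fintype.card Q) ∧
      ∃ (V : Type) (_ : Fintype V) (W : ℕ), Fintype.card V ≤ N ^ 2 ∧ 2 ^ W ≤ N ^ 5 ∧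
        ∀ (s T : ℕ) (σ : Fin T → Fin s → VarH n e L), (∀ i, ∃ t j, σ t j = i) →
          InPP (DecOs s (VarH n e L) V T σ) W (fun x => hashF β x = true)) := by
  intro r hr
  obtain ⟨c, n₁, hc, hnum⟩ := hNUM r hr
  obtain ⟨n₂, hcard⟩ := hCARD r (by omega)
  refine ⟨c, max n₁ n₂, hc, ?_⟩
  intro n hn e L N he hL hN β
  obtain ⟨hN1, hN2⟩ : n * L ≤ N ∧ N ≤ 2 * (n * L) := by
    have h := hcard n (le_trans (le_max_right _ _) hn)
    rw [← he, ← hL] at h
    rw [hN]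
    exact h
  have h := hnum n (le_trans (le_max_left _ _) hn) N (by rw [← he, ← hL]; exact hN1)
    (by rw [← he, ← hL]; exact hN2)
  rw [← he] at h
  obtain ⟨h16, h2e, k, hk, hke, hT, hexp⟩ := h
  rw [← hL] at hT
  have hL1 : 1 ≤ L := by
    rw [hL]
    exact Nat.one_le_pow _ _ (by norm_num)
  have hen : 2 ^ e ≤ n := by
    calc 2 ^ e ≤ 2 ^ Nat.log 2 n :=
          Nat.pow_le_pow_right (by norm_num) (by rw [he]; exact Nat.div_le_self _ _)
      _ ≤ n := Nat.pow_log_le_self 2 (by omega)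
  have hNn : n ≤ N := le_trans (Nat.le_mul_of_pos_right _ hL1) hN1
  have hLN : L ≤ N := le_trans (Nat.le_mul_of_pos_left _ (by omega)) hN1
  have hN16 : (16 : ℝ) ≤ N := by exact_mod_cast h16.trans hNn
  have hLr : (L : ℝ) ≤ N := by exact_mod_cast hLN
  have hA1 : (1 : ℝ) ≤ (2 : ℝ) ^ ((N : ℝ) ^ (1 - 4 / r : ℝ)) := one_le_A (by omega)
  set A : ℝ := (2 : ℝ) ^ ((N : ℝ) ^ (1 - 4 / r : ℝ)) with hA
  refine ⟨⟨hN1, hN2⟩, ?_, ?_, ?_⟩
  · intro s b g T V _ hs hsN hTc hin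
    obtain ⟨hT1, hT2⟩ := hT (T * s) (by push_cast; exact hTc)
    have hS : ((2 : ℝ) ^ s) * 2 ^ g ≤ A := by
      rw [hA, ← pow_add, ← Real.rpow_natCast]
      exact Real.rpow_le_rpow_of_exponent_le (by norm_num) (by push_cast; exact hsN)
    have key : ∀ (Q : Type) (_ : Fintype Q) (G : NBP (VarH n e L) Q), G.AccessPatterns (2 ^ g) →
        G.FewTests (T * s) → (G.Computes (hashF β) ∨ G.Computes (fun v => !hashF β v)) →
        Fintype.card Q ≤
          4 * (2 ^ g * ((T * s + 1) * Fintype.card (V × (Fin s → Bool)) ^ 2)) →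
        A ≤ Fintype.card V := by
      intro Q _ G g1 g2 g3 g4
      by_contra hcon
      rw [not_le] at hcon
      have hcV : (Fintype.card (V × (Fin s → Bool)) : ℝ) = Fintype.card V * 2 ^ s := by
        rw [Fintype.card_prod, Fintype.card_fun, Fintype.card_fin, Fintype.card_bool]
        push_cast
        ring
      have h1 := hLOW n e L k β hL1 hk hke hen Q G (2 ^ g) g1 (few_mono hT1 g2) g3
      have h2 : (Fintype.card Q : ℝ) ≤ 4 * ((2 : ℝ) ^ g *
          ((N : ℝ) ^ 2 * (Fintype.card (V × (Fin s → Bool)) : ℝ) ^ 2)) := by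
        have h5 : 4 * (2 ^ g * ((T * s + 1) * Fintype.card (V × (Fin s → Bool)) ^ 2)) ≤
            4 * (2 ^ g * (N ^ 2 * Fintype.card (V × (Fin s → Bool)) ^ 2)) :=
          Nat.mul_le_mul_left _ (Nat.mul_le_mul_left _ (Nat.mul_le_mul_right _ hT2))
        exact_mod_cast g4.trans h5
      have h3 : (2 : ℝ) ^ g * ((2 : ℝ) ^ g * (Fintype.card (V × (Fin s → Bool)) : ℝ) ^ 2) ≤
          A ^ 4 := by
        rw [hcV]
        calc (2 : ℝ) ^ g * ((2 : ℝ) ^ g * ((Fintype.card V : ℝ) * 2 ^ s) ^ 2) =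
              (Fintype.card V : ℝ) ^ 2 * (2 ^ s * 2 ^ g) ^ 2 := by ring
          _ ≤ A ^ 2 * A ^ 2 :=
              mul_le_mul (pow_le_pow_left₀ (by positivity) hcon.le 2)
                (pow_le_pow_left₀ (by positivity) hS 2) (by positivity) (by positivity)
          _ = A ^ 4 := by ring
      have h4 : (N : ℝ) ^ 8 * A ^ 4 ≤ N * (4 * ((N : ℝ) ^ 2 * A ^ 4)) := by
        calc (N : ℝ) ^ 8 * A ^ 4 ≤ L * (2 ^ g : ℕ) * Fintype.card Q := hexp.trans h1
          _ = L * (2 ^ g * Fintype.card Q) := by push_cast; ring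
          _ ≤ N * (2 ^ g * (4 * ((2 : ℝ) ^ g *
                ((N : ℝ) ^ 2 * (Fintype.card (V × (Fin s → Bool)) : ℝ) ^ 2)))) :=
              mul_le_mul hLr (mul_le_mul_of_nonneg_left h2 (by positivity)) (by positivity)
                (by linarith)
          _ = N * (4 * ((N : ℝ) ^ 2 * ((2 : ℝ) ^ g *
                ((2 : ℝ) ^ g * (Fintype.card (V × (Fin s → Bool)) : ℝ) ^ 2)))) := by
              ring
          _ ≤ N * (4 * ((N : ℝ) ^ 2 * A ^ 4)) := by gcongr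
      have h5 : (N : ℝ) * (4 * ((N : ℝ) ^ 2 * A ^ 4)) < (N : ℝ) ^ 8 * A ^ 4 := by
        have h6 : (N : ℝ) * (4 * ((N : ℝ) ^ 2 * A ^ 4)) = 4 * ((N : ℝ) ^ 3 * A ^ 4) := by ring
        have h7 : (N : ℝ) ^ 8 * A ^ 4 = (N : ℝ) ^ 5 * ((N : ℝ) ^ 3 * A ^ 4) := by ring
        rw [h6, h7]
        have h8 : (4 : ℝ) < (N : ℝ) ^ 5 := by
          have h9 : (16 : ℝ) ^ 5 ≤ (N : ℝ) ^ 5 := pow_le_pow_left₀ (by norm_num) hN16 5
          linarith
        have h10 : (0 : ℝ) < (N : ℝ) ^ 3 * A ^ 4 := by positivity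
        exact mul_lt_mul_of_pos_right h8 h10
      linarith
    rcases hin with hin | hin
    · obtain ⟨Q, hQ, G, g1, g2, g3, g4⟩ := UNI.machg hs hin
      exact key Q hQ G g1 g2 (Or.inl g3) g4
    · have e1 : (fun x : VarH n e L → Bool => ¬ hashF β x = true) =
          fun x => (fun v => !hashF β v) x = true := by
        funext x
        simp
      rw [e1] at hin
      obtain ⟨Q, hQ, G, g1, g2, g3, g4⟩ := UNI.machg hs hin
      exact key Q hQ G g1 g2 (Or.inr g3) g4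
  · intro Q _ G a m ha hm hacc hfew hcomp
    have h1 := hLOW n e L k β hL1 hk hke hen Q G a hacc (few_mono (hT m hm).1 hfew) hcomp
    have h2 : (L : ℝ) * a * Fintype.card Q ≤ (N * A) * Fintype.card Q :=
      mul_le_mul_of_nonneg_right (mul_le_mul hLr ha (Nat.cast_nonneg _) (by linarith))
        (Nat.cast_nonneg _)
    have h3 : (N * A) * ((N : ℝ) ^ 7 * A ^ 3) ≤ (N * A) * Fintype.card Q := by
      calc (N * A) * ((N : ℝ) ^ 7 * A ^ 3) = (N : ℝ) ^ 8 * A ^ 4 := by ring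
        _ ≤ _ := hexp.trans (h1.trans h2)
    have h4 : (N : ℝ) ^ 7 * A ^ 3 ≤ Fintype.card Q := le_of_mul_le_mul_left h3 (by positivity)
    refine le_trans ?_ h4
    have h5 : (1 : ℝ) ≤ (N : ℝ) ^ 7 := one_le_pow₀ (by linarith)
    have h6 : (1 : ℝ) ≤ A ^ 2 := one_le_pow₀ hA1
    calc A = 1 * (1 * A) := by ring
      _ ≤ (N : ℝ) ^ 7 * (A ^ 2 * A) := by gcongr
      _ = (N : ℝ) ^ 7 * A ^ 3 := by ring
  · exact upper h16 hL hN1 β

end Pool.Agent.HPM
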