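import Pool.Agent.HPM.Modes

/-!
# Nondeterministic machines that read many cells at once
-/

set_option autoImplicit false

namespace Pool.Agent.HPM

/-- NP mode with `b` guessed bits at each step, for machines that read `s` input bits at once: for
some guesses the state after `T` steps is accepting, exactly for the inputs in `L`; the guesses may
influence the states in any way, but not which input bits are read. -/
def InNPs (s b : ℕ) (I V : Type) (T : ℕ) (L : (I → Bool) → Prop) : Prop :=
  ∃ M : GMachs s b I V,
    (∀ x c c', ∀ t < T, M.query t (M.state x c t) = M.query t (M.state x c' t)) ∧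
    ∀ x, L x ↔ ∃ c, M.acc (M.state x c T)

namespace MANY

variable {s b : ℕ} {I V : Type}

/-- the number of the cell that is read at the time `t` -/
def idx (hs : 0 < s) (t : ℕ) : Fin s := ⟨t % s, Nat.mod_lt _ hs⟩

/-- the machine that reads the cells one after the other -/
def sim (M : GMachs s b I V) (hs : 0 < s) : GMach b I (V × (Fin s → Bool)) where
  start := (M.start, fun _ => false)
  query t v := M.query (t / s) v.1 (idx hs t)
  next t v a g := if t % s + 1 = s then
    (M.next (t / s) v.1 (Function.update v.2 (idx hs t) a) g, v.2)
    else (v.1, Function.update v.2 (idx hs t) a)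
  acc v := M.acc v.1

/-- the guesses at the last reads -/
def lst (s : ℕ) (c : ℕ → Fin b → Bool) (t : ℕ) : Fin b → Bool := c (s * t + (s - 1))

variable (M : GMachs s b I V) (hs : 0 < s)

lemma div_eq {t i : ℕ} (hi : i < s) : (s * t + i) / s = t := by
  rw [Nat.mul_add_div (by omega), Nat.div_eq_of_lt hi, add_zero]

lemma mod_eq {t i : ℕ} (hi : i < s) : (s * t + i) % s = i := by
  rw [Nat.mul_add_mod, Nat.mod_eq_of_lt hi]

/-- the state after a read -/
theorem state_succ (x : I → Bool) (c : ℕ → Fin b → Bool) (t i : ℕ) (hi : i < s) :
    (sim M hs).state x c (s * t + i + 1) =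
      (fun v : V × (Fin s → Bool) =>
        (fun b' : Fin s → Bool => if i + 1 = s then (M.next t v.1 b' (c (s * t + i)), v.2)
          else (v.1, b')) (Function.update v.2 ⟨i, hi⟩ (x (M.query t v.1 ⟨i, hi⟩))))
        ((sim M hs).state x c (s * t + i)) := by
  have e1 : (s * t + i) / s = t := div_eq hi
  have e2 : (s * t + i) % s = i := mod_eq hi
  have e3 : idx hs (s * t + i) = ⟨i, hi⟩ := Fin.ext e2
  simp only [GMach.state, sim, e1, e2, e3]

/-- the states -/
theorem state (x : I → Bool) (c : ℕ → Fin b → Bool) (t : ℕ) : ∀ i : ℕ, i < s →
    ((sim M hs).state x c (s * t + i)).1 = M.state x (lst s c) t ∧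
      ∀ j : Fin s, j.val < i → ((sim M hs).state x c (s * t + i)).2 j =
        x (M.query t (M.state x (lst s c) t) j) := by
  have step : ∀ t i : ℕ, ∀ hi : i < s, i + 1 < s →
      (((sim M hs).state x c (s * t + i)).1 = M.state x (lst s c) t ∧
        ∀ j : Fin s, j.val < i → ((sim M hs).state x c (s * t + i)).2 j =
          x (M.query t (M.state x (lst s c) t) j)) →
      (((sim M hs).state x c (s * t + (i + 1))).1 = M.state x (lst s c) t ∧
        ∀ j : Fin s, j.val < i + 1 → ((sim M hs).state x c (s * t + (i + 1))).2 j =
          x (M.query t (M.state x (lst s c) t) j)) := by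
    rintro t i hi hi1 ⟨h1, h3⟩
    have e := state_succ M hs x c t i hi
    rw [← add_assoc, e]
    simp only [if_neg (show ¬ i + 1 = s by omega)]
    refine ⟨h1, fun j hj => ?_⟩
    by_cases hji : j = ⟨i, hi⟩
    · subst hji
      rw [Function.update_self, h1]
    · rw [Function.update_of_ne hji]
      refine h3 j ?_
      have : j.val ≠ i := fun h => hji (Fin.ext h)
      omega
  induction t with
  | zero =>
    intro i
    induction i with
    | zero =>
      intro _
      exact ⟨rfl, fun j hj => absurd hj (Nat.not_lt_zero _)⟩
    | succ i ih =>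
      intro hi
      exact step 0 i (by omega) hi (ih (by omega))
  | succ t iht =>
    intro i
    induction i with
    | zero =>
      intro _
      obtain ⟨h1, h3⟩ := iht (s - 1) (by omega)
      have e0 : s * (t + 1) + 0 = s * t + (s - 1) + 1 := by
        rw [Nat.mul_succ]
        omega
      have e := state_succ M hs x c t (s - 1) (by omega)
      have e4 : Function.update ((sim M hs).state x c (s * t + (s - 1))).2
          ⟨s - 1, by omega⟩ (x (M.query t ((sim M hs).state x c
            (s * t + (s - 1))).1 ⟨s - 1, by omega⟩)) =
          fun i => x (M.query t (M.state x (lst s c) t) i) := by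
        funext j
        by_cases hji : j = ⟨s - 1, by omega⟩
        · subst hji
          rw [Function.update_self, h1]
        · rw [Function.update_of_ne hji]
          refine h3 j ?_
          have h5 : j.val ≠ s - 1 := fun h => hji (Fin.ext h)
          have := j.2
          omega
      rw [e0, e]
      simp only [if_pos (show s - 1 + 1 = s by omega)]
      refine ⟨?_, fun j hj => absurd hj (Nat.not_lt_zero _)⟩
      rw [e4, h1]
      rfl
    | succ i ih =>
      intro hi
      exact step (t + 1) i (by omega) hi (ih (by omega))

end MANY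

open MANY in
/-- A machine that reads `s` cells at once is simulated by one that reads one cell. -/
theorem inNP_of_inNPs {s b : ℕ} (hs : 0 < s) {I V : Type} {T : ℕ} {L : (I → Bool) → Prop}
    (h : InNPs s b I V T L) : InNP b I (V × (Fin s → Bool)) (T * s) L := by
  obtain ⟨M, h1, h2⟩ := h
  have hfin : ∀ x c, ((sim M hs).state x c (T * s)).1 = M.state x (lst s c) T := by
    intro x c
    have h3 := (state M hs x c T 0 hs).1
    rw [add_zero, mul_comm] at h3
    exact h3
  refine ⟨sim M hs, fun x c c' τ hτ => ?_, fun x => ?_⟩
  · have h4 : s * (τ / s) + τ % s = τ := Nat.div_add_mod τ s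
    have h5 : τ % s < s := Nat.mod_lt _ hs
    have h6 : τ / s < T := Nat.div_lt_of_lt_mul (by rwa [mul_comm])
    have h7 : ∀ c, ((sim M hs).state x c τ).1 = M.state x (lst s c) (τ / s) := by
      intro c
      have h3 := (state M hs x c (τ / s) (τ % s) h5).1
      rw [h4] at h3
      exact h3
    show M.query (τ / s) ((sim M hs).state x c τ).1 (idx hs τ) =
      M.query (τ / s) ((sim M hs).state x c' τ).1 (idx hs τ)
    rw [h7, h7]
    exact congrFun (h1 x (lst s c) (lst s c') (τ / s) h6) _
  · rw [h2]
    constructor
    · rintro ⟨c, hc⟩
      refine ⟨fun τ => c (τ / s), ?_⟩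
      show M.acc ((sim M hs).state x (fun τ => c (τ / s)) (T * s)).1
      rw [hfin]
      have h8 : lst s (fun τ => c (τ / s)) = c := by
        funext t
        show c ((s * t + (s - 1)) / s) = c t
        rw [div_eq (by omega)]
      rw [h8]
      exact hc
    · rintro ⟨c, hc⟩
      refine ⟨lst s c, ?_⟩
      have hc' : M.acc ((sim M hs).state x c (T * s)).1 := hc
      rw [hfin] at hc'
      exact hc'

end Pool.Agent.HPM
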