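import Pool.Agent.HPM.Defs

/-!
# The machines and the modes of the final theorem
-/

set_option autoImplicit false

namespace Pool.Agent.HPM

/-- A nonuniform machine with random access to the input bits `I`, with the states `V` (of its
memory), which guesses `b` bits at each step and reads `s` input bits at once. The time and the
state determine which `s` bits of the input are read; the time, the state, the values of these bits
and the guessed bits determine the next state. -/
structure GMachs (s b : ℕ) (I V : Type) where
  /-- initial state -/
  start : V
  /-- the `s` input bits read at time `t` in state `v` -/
  query : ℕ → V → Fin s → I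
  /-- next state -/
  next : ℕ → V → (Fin s → Bool) → (Fin b → Bool) → V
  /-- accepting states -/
  acc : V → Prop

/-- The state after `t` steps on input `x` with the guesses `c`. -/
def GMachs.state {s b : ℕ} {I V : Type} (M : GMachs s b I V) (x : I → Bool)
    (c : ℕ → Fin b → Bool) : ℕ → V
  | 0 => M.start
  | t + 1 => M.next t (M.state x c t) (fun i => x (M.query t (M.state x c t) i)) (c t)

/-- NP mode with two kinds of guesses: for some guesses the state after `T` steps is accepting,
exactly for the inputs in `L`. There are `g` guessed bits `w` that may influence everything, at all
times; the machine guesses `b` further bits at each step, which may influence the states in any way,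
but not which input bits are read. The machine reads `s` input bits at once. -/
def InNPg (s b g : ℕ) (I V : Type) (T : ℕ) (L : (I → Bool) → Prop) : Prop :=
  ∃ M : (Fin g → Bool) → GMachs s b I V,
    (∀ w x c c', ∀ t < T,
      (M w).query t ((M w).state x c t) = (M w).query t ((M w).state x c' t)) ∧
    ∀ x, L x ↔ ∃ w c, (M w).acc ((M w).state x c T)

/-- The sets of inputs decided in `T` steps by machines with the states `V` which guess nothing and
read the `s` input bits `σ t` at time `t`. -/
def DecOs (s : ℕ) (I V : Type) (T : ℕ) (σ : Fin T → Fin s → I) (L : (I → Bool) → Prop) : Prop :=
  ∃ M : GMachs s 0 I V, (∀ (t : Fin T) v, M.query t v = σ t) ∧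
    ∀ x, L x ↔ M.acc (M.state x (fun _ _ => false) T)

end Pool.Agent.HPM
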