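import Pool.Agent.HPM.Stmts
import Pool.Agent.Lib_helper26.AC.PPT

/-!
Counting the pairs of a point and a hash condition is in the PP mode, by machines that read all
cells once, in the same order.
-/

set_option autoImplicit false

namespace Pool.Agent.HPM.PPU

open Finset
open Pool.Agent.Lib_helper26.AC (binary)
open Pool.Agent.Lib_helper26.AC.PT (mod_two_pow_succ' binary_lt card_ge)
open Pool.Agent.UM (InPP)

/-! ### Machines that read the cells of a list -/

/-- the machine that reads the cells of the list `K` -/
def foldM {I V : Type} (K : List I) (i₀ : I) (f : V → I → Bool → V) (q₀ : V) (acc : V → Prop) :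
    GMach 0 I V where
  start := q₀
  query := fun t _ => K.getD t i₀
  next := fun t q c _ => f q (K.getD t i₀) c
  acc := acc

theorem foldM_state {I V : Type} (K : List I) (i₀ : I) (f : V → I → Bool → V) (q₀ : V)
    (acc : V → Prop) (x : I → Bool) (c : ℕ → Fin 0 → Bool) (t : ℕ) (ht : t ≤ K.length) :
    (foldM K i₀ f q₀ acc).state x c t = (K.take t).foldl (fun q y => f q y (x y)) q₀ := by
  induction t with
  | zero => simp [GMach.state, foldM]
  | succ t ih =>
    have hlt : t < K.length := ht
    have h1 : K.getD t i₀ = K[t] := by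
      rw [List.getD_eq_getElem?_getD, List.getElem?_eq_getElem hlt, Option.getD_some]
    rw [List.take_add_one, List.getElem?_eq_getElem hlt, Option.toList_some, List.foldl_append,
      ← ih (Nat.le_of_succ_le ht)]
    show f ((foldM K i₀ f q₀ acc).state x c t) (K.getD t i₀) (x (K.getD t i₀)) = _
    rw [h1]
    rfl

theorem decO_fold {I V : Type} (K : List I) (i₀ : I) (f : V → I → Bool → V) (q₀ : V)
    (acc : V → Prop) (N : ℕ) (hN : K.length = N) :
    DecO I V N (fun t => K.getD t i₀) (fun x => acc (K.foldl (fun q y => f q y (x y)) q₀)) := by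
  refine ⟨foldM K i₀ f q₀ acc, fun t v => rfl, fun x => ?_⟩
  rw [foldM_state K i₀ f q₀ acc x _ N hN.ge, List.take_of_length_le hN.le]
  rfl

/-! ### The order -/

variable {n e L : ℕ}

/-- the parts of a condition -/
abbrev Prt (n e : ℕ) : Type := (Fin (deg n e) ⊕ Fin (deg n e)) ⊕ Fin (2 * e)

/-- the cells of the conditions -/
noncomputable def condL (n e L : ℕ) : List (VarH n e L) :=
  (univ : Finset (Fin (conds n e) × Prt n e)).toList.map fun c => Sum.inl (Sum.inl c)

/-- the bits of the points -/
noncomputable def ptL (n e L : ℕ) : List (VarH n e L) :=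
  (univ : Finset (Fin L × Fin n)).toList.map Sum.inr

/-- the polarity bit -/
abbrev pol : VarH n e L := Sum.inl (Sum.inr (Sum.inl ()))

/-- the digits of the threshold -/
def digL (n e L : ℕ) : List (VarH n e L) :=
  (List.finRange (digs n e L)).map fun i => Sum.inl (Sum.inr (Sum.inr i))

/-- the order of the cells -/
noncomputable def ordH (n e L : ℕ) : List (VarH n e L) :=
  condL n e L ++ (ptL n e L ++ (pol :: digL n e L))

theorem mem_ordH (x : VarH n e L) : x ∈ ordH n e L := by
  unfold ordH condL ptL digL
  rcases x with (c | u | i) | p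
  · simp
  · simp
  · simp
  · simp

theorem nodup_ordH : (ordH n e L).Nodup := by
  unfold ordH condL ptL digL
  rw [List.nodup_append, List.nodup_append, List.nodup_cons]
  refine ⟨(Finset.nodup_toList _).map (fun a b h => Sum.inl_injective (Sum.inl_injective h)),
    ⟨(Finset.nodup_toList _).map Sum.inr_injective, ⟨by simp, (List.nodup_finRange _).map
      (fun a b h => Sum.inr_injective (Sum.inr_injective (Sum.inl_injective h)))⟩, ?_⟩, ?_⟩
  · intro a ha b hb hab
    subst hab
    obtain ⟨p, _, rfl⟩ := List.mem_map.1 ha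
    simp at hb
  · intro a ha b hb hab
    subst hab
    obtain ⟨p, _, rfl⟩ := List.mem_map.1 ha
    simp at hb

theorem length_ordH : (ordH n e L).length = Fintype.card (VarH n e L) := by
  classical
  rw [← List.toFinset_card_of_nodup nodup_ordH, ← card_univ]
  congr 1
  ext x
  simp [mem_ordH x]

theorem bij_ordH : Function.Bijective
    (fun t : Fin (Fintype.card (VarH n e L)) => (ordH n e L).getD t pol) := by
  refine (Fintype.bijective_iff_injective_and_card _).2 ⟨fun a b h => ?_, Fintype.card_fin _⟩
  have ha : (a : ℕ) < (ordH n e L).length := by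
    rw [length_ordH]
    exact a.2
  have hb : (b : ℕ) < (ordH n e L).length := by
    rw [length_ordH]
    exact b.2
  simp only [List.getD_eq_getElem?_getD, List.getElem?_eq_getElem ha,
    List.getElem?_eq_getElem hb, Option.getD_some] at h
  exact Fin.ext ((nodup_ordH.getElem_inj_iff).1 h)

/-! ### The program of a pair -/

/-- the states: the parts of the condition, a field element, a bit -/
abbrev St (n e : ℕ) : Type := (Prt n e → Bool) × GaloisField 2 (deg n e) × Bool

variable (β : Module.Basis (Fin (deg n e)) (ZMod 2) (GaloisField 2 (deg n e)))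

/-- the step of the program of the pair `(t₀, l₀)` -/
noncomputable def stp (t₀ : Fin (conds n e)) (l₀ : Fin L) (q : St n e) (x : VarH n e L)
    (c : Bool) : St n e :=
  match x with
  | Sum.inl (Sum.inl (t, i)) => if t = t₀ then (Function.update q.1 i c, q.2) else q
  | Sum.inl (Sum.inr (Sum.inl _)) => (q.1, q.2.1, c)
  | Sum.inl (Sum.inr (Sum.inr _)) => q
  | Sum.inr p => (q.1, q.2.1 + (if p.1 = l₀ ∧ c = true then
      (elt β fun i => q.1 (Sum.inl (Sum.inl i))) ^ (p.2 : ℕ) else 0), q.2.2)

variable (t₀ : Fin (conds n e)) (l₀ : Fin L) (v : VarH n e L → Bool)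

open Classical in
theorem fold_cond (K : List (Fin (conds n e) × Prt n e)) : ∀ q : St n e,
    (K.map fun c => (Sum.inl (Sum.inl c) : VarH n e L)).foldl
      (fun q y => stp β t₀ l₀ q y (v y)) q =
      (fun i => if (t₀, i) ∈ K then v (Sum.inl (Sum.inl (t₀, i))) else q.1 i, q.2) := by
  induction K with
  | nil => intro q; simp
  | cons c K ih =>
    intro q
    obtain ⟨t, j⟩ := c
    rw [List.map_cons, List.foldl_cons, ih]
    show ((fun i => if (t₀, i) ∈ K then v (Sum.inl (Sum.inl (t₀, i))) else
      (if t = t₀ then (Function.update q.1 j (v (Sum.inl (Sum.inl (t, j)))), q.2) else q).1 i),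
      (if t = t₀ then (Function.update q.1 j (v (Sum.inl (Sum.inl (t, j)))), q.2) else q).2) = _
    by_cases ht : t = t₀
    · subst ht
      rw [if_pos rfl]
      refine Prod.ext (funext fun i => ?_) rfl
      by_cases hi : i = j
      · subst hi
        simp
      · have h1 : (t, i) ∈ (t, j) :: K ↔ (t, i) ∈ K := by
          rw [List.mem_cons, Prod.mk.injEq]
          exact ⟨fun h => h.resolve_left fun h => hi h.2, Or.inr⟩
        simp only [h1, Function.update_of_ne hi]
    · rw [if_neg ht]
      refine Prod.ext (funext fun i => ?_) rfl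
      have h1 : (t₀, i) ∈ (t, j) :: K ↔ (t₀, i) ∈ K := by
        rw [List.mem_cons, Prod.mk.injEq]
        exact ⟨fun h => h.resolve_left fun h => ht h.1.symm, Or.inr⟩
      simp only [h1]

theorem fold_pt (K : List (Fin L × Fin n)) : ∀ q : St n e,
    (K.map fun c => (Sum.inr c : VarH n e L)).foldl (fun q y => stp β t₀ l₀ q y (v y)) q =
      (q.1, q.2.1 + (K.map fun p => if p.1 = l₀ ∧ v (Sum.inr p) = true then
        (elt β fun i => q.1 (Sum.inl (Sum.inl i))) ^ (p.2 : ℕ) else 0).sum, q.2.2) := by
  induction K with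
  | nil => intro q; simp
  | cons p K ih =>
    intro q
    rw [List.map_cons, List.foldl_cons, ih, List.map_cons, List.sum_cons, ← add_assoc]
    rfl

theorem fold_id {I V : Type} (f : V → I → V) (K : List I) (h : ∀ q, ∀ y ∈ K, f q y = q) (q : V) :
    K.foldl f q = q := by
  induction K with
  | nil => rfl
  | cons y K ih =>
    rw [List.foldl_cons, h q y List.mem_cons_self]
    exact ih fun q y hy => h q y (List.mem_cons_of_mem _ hy)

theorem fold_ord : (ordH n e L).foldl (fun q y => stp β t₀ l₀ q y (v y))
    ((fun _ => false), 0, false) = ((fun i => v (Sum.inl (Sum.inl (t₀, i)))),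
      val (fun j => v (Sum.inr (l₀, j))) (elt β fun i => v (Sum.inl (Sum.inl
        (t₀, Sum.inl (Sum.inl i))))), v pol) := by
  unfold ordH condL ptL digL
  rw [List.foldl_append, List.foldl_append, List.foldl_cons, fold_cond, fold_pt, fold_id]
  · simp only [mem_toList, mem_univ, if_true, stp, zero_add]
    refine Prod.ext rfl (Prod.ext ?_ rfl)
    simp only
    rw [Finset.sum_map_toList, Fintype.sum_prod_type, Finset.sum_eq_single l₀]
    · unfold val
      simp only [true_and]
    · intro l _ hl
      refine Finset.sum_eq_zero fun j _ => if_neg fun h => hl h.1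
    · intro h
      exact absurd (mem_univ _) h
  · intro q y hy
    obtain ⟨i, _, rfl⟩ := List.mem_map.1 hy
    rfl

/-- the accepting states of the program of a pair -/
def accP (q : St n e) : Prop :=
  decide ((fun i => decide (β.repr (elt β (fun i => q.1 (Sum.inl (Sum.inr i))) * q.2.1)
    (Fin.castLE (two_e_le n e) i) = 1)) = fun i => q.1 (Sum.inr i)) ≠ q.2.2

/-! ### The threshold -/

/-- the step of the program that compares the threshold with `d`: the lowest digits come first -/
def stpZ (d : ℕ) (q : St n e) (x : VarH n e L) (c : Bool) : St n e :=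
  match x with
  | Sum.inl (Sum.inr (Sum.inr i)) =>
    (q.1, q.2.1, if c = d.testBit i.val then q.2.2 else d.testBit i.val)
  | _ => q

theorem fold_Z (d : ℕ) (a : Prt n e → Bool) (y : GaloisField 2 (deg n e)) (m : ℕ)
    (hm : m ≤ digs n e L) :
    (((List.finRange (digs n e L)).take m).map
      fun i => (Sum.inl (Sum.inr (Sum.inr i)) : VarH n e L)).foldl
      (fun q x => stpZ d q x (v x)) (a, y, true) =
    (a, y, decide (binary (fun i : Fin m => v (Sum.inl (Sum.inr (Sum.inr (Fin.castLE hm i))))) ≤
      d % 2 ^ m)) := by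
  induction m with
  | zero => simp [binary]
  | succ m ih =>
    have hlt : m < (List.finRange (digs n e L)).length := by
      rw [List.length_finRange]
      exact hm
    rw [List.take_add_one, List.getElem?_eq_getElem hlt, Option.toList_some, List.map_append,
      List.foldl_append, ih (Nat.le_of_succ_le hm)]
    simp only [List.map_cons, List.map_nil, List.foldl_cons, List.foldl_nil,
      List.getElem_finRange, stpZ]
    have hb : binary (fun i : Fin (m + 1) => v (Sum.inl (Sum.inr (Sum.inr (Fin.castLE hm i))))) =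
        binary (fun i : Fin m => v (Sum.inl (Sum.inr (Sum.inr
          (Fin.castLE (Nat.le_of_succ_le hm) i))))) +
          if v (Sum.inl (Sum.inr (Sum.inr ⟨m, hm⟩))) then 2 ^ m else 0 := by
      rw [binary, Fin.sum_univ_castSucc]
      rfl
    have h1 := binary_lt (fun i : Fin m => v (Sum.inl (Sum.inr (Sum.inr
      (Fin.castLE (Nat.le_of_succ_le hm) i)))))
    have h2 : d % 2 ^ m < 2 ^ m := Nat.mod_lt _ (by positivity)
    rw [hb, mod_two_pow_succ']
    congr 2
    have hc : (Fin.cast (List.length_finRange (n := digs n e L)) ⟨m, hlt⟩) =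
      (⟨m, hm⟩ : Fin (digs n e L)) := rfl
    simp only [hc]
    cases hz : v (Sum.inl (Sum.inr (Sum.inr ⟨m, hm⟩))) <;> cases he : d.testBit m <;> simp <;>
      omega

theorem fold_ordZ {d : ℕ} (hd : d < 2 ^ digs n e L) : (ordH n e L).foldl
    (fun q y => stpZ d q y (v y)) ((fun _ => false), 0, true) = ((fun _ => false), 0,
      decide (binary (fun i => v (Sum.inl (Sum.inr (Sum.inr i)))) ≤ d)) := by
  have h := fold_Z (n := n) (e := e) (L := L) v d (fun _ => false) 0 (digs n e L) le_rfl
  rw [Nat.mod_eq_of_lt hd, List.take_of_length_le (List.length_finRange).le] at h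
  unfold ordH
  rw [List.foldl_append, List.foldl_append, List.foldl_cons, fold_id (K := condL n e L),
    fold_id (K := ptL n e L)]
  · exact h
  · intro q y hy
    obtain ⟨i, _, rfl⟩ := List.mem_map.1 hy
    rfl
  · intro q y hy
    obtain ⟨i, _, rfl⟩ := List.mem_map.1 hy
    rfl

/-! ### The programs -/

/-- the indices of the programs -/
abbrev Idx (n e L : ℕ) : Type :=
  ((Fin (conds n e) × Fin L) ⊕ Fin (2 ^ digs n e L - conds n e * L)) ⊕ Fin (2 ^ digs n e L)

theorem le_digs (n e L : ℕ) : conds n e * L ≤ 2 ^ digs n e L :=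
  (Nat.lt_pow_succ_log_self (by norm_num) _).le

theorem card_Idx (n e L : ℕ) : Fintype.card (Idx n e L) = 2 ^ (digs n e L + 1) := by
  rw [Fintype.card_sum, Fintype.card_sum, Fintype.card_prod, Fintype.card_fin, Fintype.card_fin,
    Fintype.card_fin, Fintype.card_fin, pow_succ]
  have := le_digs n e L
  omega

/-- the sets accepted by the programs -/
def mem (j : Idx n e L) (v : VarH n e L → Bool) : Prop :=
  match j with
  | Sum.inl (Sum.inl (t₀, l₀)) => accP β ((ordH n e L).foldl
      (fun q y => stp β t₀ l₀ q y (v y)) ((fun _ => false), 0, false))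
  | Sum.inl (Sum.inr _) => False
  | Sum.inr d => ((ordH n e L).foldl
      (fun q y => stpZ d.val q y (v y)) (((fun _ => false), 0, true) : St n e)).2.2 = true

theorem mem_dec (j : Idx n e L) : DecO (VarH n e L) (St n e) (Fintype.card (VarH n e L))
    (fun t => (ordH n e L).getD t pol) (mem β j) := by
  rcases j with (⟨t₀, l₀⟩ | _) | d
  · exact decO_fold (ordH n e L) pol (stp β t₀ l₀) ((fun _ => false), 0, false) (accP β) _
      length_ordH
  · exact decO_fold (ordH n e L) pol (fun q _ _ => q) (((fun _ => false), 0, false) : St n e)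
      (fun _ => False) _ length_ordH
  · exact decO_fold (ordH n e L) pol (stpZ d.val) (((fun _ => false), 0, true) : St n e)
      (fun q => q.2.2 = true) _ length_ordH

theorem mem_pair (t₀ : Fin (conds n e)) (l₀ : Fin L) (v : VarH n e L → Bool) :
    mem β (Sum.inl (Sum.inl (t₀, l₀))) v ↔
      decide (hash β (fun i => v (Sum.inl (Sum.inl (t₀, Sum.inl (Sum.inl i)))))
        (fun i => v (Sum.inl (Sum.inl (t₀, Sum.inl (Sum.inr i)))))
        (fun j => v (Sum.inr (l₀, j))) =
          fun i => v (Sum.inl (Sum.inl (t₀, Sum.inr i)))) ≠ v pol := by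
  show accP β ((ordH n e L).foldl (fun q y => stp β t₀ l₀ q y (v y))
    ((fun _ => false), 0, false)) ↔ _
  rw [fold_ord]
  exact Iff.rfl

theorem mem_thr (d : Fin (2 ^ digs n e L)) (v : VarH n e L → Bool) :
    mem β (Sum.inr d) v ↔ binary (fun i => v (Sum.inl (Sum.inr (Sum.inr i)))) ≤ d.val := by
  show ((ordH n e L).foldl (fun q y => stpZ d.val q y (v y))
    (((fun _ => false), 0, true) : St n e)).2.2 = true ↔ _
  rw [fold_ordZ v d.2]
  exact decide_eq_true_iff

theorem card_mem (v : VarH n e L → Bool) : Nat.card {j : Idx n e L // mem β j v} =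
    (univ.filter (fun q : Fin (conds n e) × Fin L =>
      decide (hash β (fun i => v (Sum.inl (Sum.inl (q.1, Sum.inl (Sum.inl i)))))
        (fun i => v (Sum.inl (Sum.inl (q.1, Sum.inl (Sum.inr i)))))
        (fun j => v (Sum.inr (q.2, j))) =
          fun i => v (Sum.inl (Sum.inl (q.1, Sum.inr i)))) ≠ v pol)).card +
    (2 ^ digs n e L - binary (fun i => v (Sum.inl (Sum.inr (Sum.inr i))))) := by
  classical
  have e1 : Nat.card {j : Idx n e L // mem β j v} = ∑ j : Idx n e L, if mem β j v then 1 else 0 := by
    rw [Nat.card_eq_fintype_card, Fintype.card_subtype, Finset.card_filter]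
  have h0 : ∑ x : Fin (2 ^ digs n e L - conds n e * L),
      (if mem β (Sum.inl (Sum.inr x) : Idx n e L) v then 1 else 0) = 0 :=
    Finset.sum_eq_zero fun x _ => if_neg fun h => h
  rw [e1, Fintype.sum_sum_type, Fintype.sum_sum_type, h0, add_zero]
  congr 1
  · rw [Finset.card_filter]
    refine Finset.sum_congr rfl fun q _ => ?_
    exact if_congr (mem_pair β q.1 q.2 v) rfl rfl
  · refine Eq.trans ?_ (card_ge (2 ^ digs n e L)
      (binary fun i => v (Sum.inl (Sum.inr (Sum.inr i)))))
    rw [Finset.card_filter]
    refine Finset.sum_congr rfl fun d _ => ?_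
    exact if_congr (mem_thr β d v) rfl rfl

/-- the field is finite -/
noncomputable abbrev fGal (n e : ℕ) : Fintype (GaloisField 2 (deg n e)) := Fintype.ofFinite _

attribute [local instance] fGal

theorem card_St (n e : ℕ) : Fintype.card (St n e) ≤ 2 ^ (3 * deg n e + 2 * e + 1) := by
  have h1 : Fintype.card (GaloisField 2 (deg n e)) = 2 ^ deg n e := by
    rw [← Nat.card_eq_fintype_card]
    refine GaloisField.card 2 (deg n e) ?_
    unfold deg
    omega
  rw [Fintype.card_prod, Fintype.card_prod, h1, Fintype.card_fun, Fintype.card_bool,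
    Fintype.card_sum, Fintype.card_sum, Fintype.card_fin, Fintype.card_fin]
  refine le_of_eq ?_
  rw [← pow_succ, ← pow_add]
  congr 1
  ring

end Pool.Agent.HPM.PPU

namespace Pool.Agent.HPM

open PPU in
/-- Module PPU. -/
theorem t_PPU : S_PPU := by
  intro n e L β hn hL
  letI := fGal n e
  refine ⟨St n e, inferInstance, fun t => (ordH n e L).getD t pol, card_St n e, bij_ordH, ?_⟩
  let E : Fin (2 ^ (digs n e L + 1)) ≃ Idx n e L :=
    (Fintype.equivFinOfCardEq (card_Idx n e L)).symm
  refine ⟨fun w => mem β (E w), fun w => mem_dec β (E w), fun v => ?_⟩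
  have h1 : Nat.card {w // mem β (E w) v} = Nat.card {j : Idx n e L // mem β j v} :=
    Nat.card_congr (E.subtypeEquiv fun w => Iff.rfl)
  show hashF β v = true ↔ _
  rw [h1, card_mem]
  unfold hashF
  rw [decide_eq_true_iff]
  have h2 := Pool.Agent.Lib_helper26.AC.PT.binary_lt
    (fun i : Fin (digs n e L) => v (Sum.inl (Sum.inr (Sum.inr i))))
  have h3 : ∀ X Y θ M : ℕ, X = Y → θ < M → (θ < X ↔ M * 2 < 2 * (Y + (M - θ))) := by
    intro X Y θ M h h'
    omega
  rw [pow_succ]
  exact h3 _ _ _ _ rfl h2

end Pool.Agent.HPM
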