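import Pool.Agent.HPM.Defs
import Pool.Agent.Lib_helper20.SRO.Defs
import Pool.Agent.Lib_helper26.AC.Model

/-!
# Statements of the modules (upgrade of AccessPatternMajority, MP_153864_lc)

Architect helper47. Every module file `Pool/Agent/HPM/<Name>.lean` imports `Pool.Agent.HPM.Stmts` (and
whatever it needs of the older libraries) and proves the named statement; helper lemmas are private or
carry the name of the module. Other modules of HPM are used only as hypotheses.
-/

set_option autoImplicit false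

namespace Pool.Agent.HPM

open Finset
open Pool.Agent.Lib_helper20.SRO (NBP RectFree)
open Pool.Agent.Lib_helper26.AC (AccessPatternsAt FewTestsAt)
open Pool.Agent.UM (InPP)

/-- COL (file Col.lean): two different points rarely have the same hash value.

Proof. `elt β` is a bijection from the bit strings to the field `K`, with `|K| = 2 ^ h`,
`h = deg n e`, `n * 4 ^ e ≤ 2 ^ h` (`Nat.lt_pow_succ_log_self`). Let `y a = val z a - val z' a`, the
value at `a` of the nonzero polynomial `∑ j, (z j - z' j) X ^ j` of degree `< n`, so `y a = 0` for at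
most `n` of the `a` (`Polynomial.card_roots'`). For `y a = 0` there are `2 ^ h` values of `b`. For
`y a ≠ 0` the hash values agree iff the first `2 e` coordinates of `b * y a` vanish (both coordinates
are in `ZMod 2`, `decide (· = 1)` is injective there); `b ↦ b * y a` is a bijection of `K`, and
`2 ^ (h - 2 e)` elements of `K` have vanishing first `2 e` coordinates. Altogether
`4 ^ e * # ≤ 4 ^ e * (n * 2 ^ h + 2 ^ h * 2 ^ (h - 2 e)) ≤ 2 * (2 ^ h) ^ 2`. -/
def S_COL : Prop :=
  ∀ (n e : ℕ) (β : Module.Basis (Fin (deg n e)) (ZMod 2) (GaloisField 2 (deg n e)))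
    (z z' : Fin n → Bool), 1 ≤ n → z ≠ z' →
    4 ^ e * (univ.filter fun σ : (Fin (deg n e) → Bool) × (Fin (deg n e) → Bool) =>
      hash β σ.1 σ.2 z = hash β σ.1 σ.2 z').card ≤
      2 * Fintype.card ((Fin (deg n e) → Bool) × (Fin (deg n e) → Bool))

/-- HASH (file Hash.lean): random conditions.

Adapt `exists_off`, `rect'` of Pool/Agent/Lib_helper26/AC/Off.lean and the lemmas of the namespace
`Av` in Pool/Agent/Lib_helper20/LG/Avoid.lean. A condition is `p = (σ, s)`, in the finite set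
`Ω₁ = S × (Fin (2 e) → Bool)` with `|Ω₁| = 4 ^ e |S|`; `hit z p` means `H p.1 z = p.2`.
(a) `#{p | hit z p} = |S|`; for `z ≠ z'`, `4 ^ e * #{p | hit z p ∧ hit z' p} ≤ 2 |S|` (hypothesis).
(b) For a set `Z` of `4 ^ e` points let `h p = #{z ∈ Z | hit z p}`. Then `∑ p, h p = |Ω₁|` and
`∑ p, h p ^ 2 ≤ 4 ^ e |S| + 4 ^ e * 2 |S| = 3 |Ω₁|`; from `6 h ≤ h ^ 2 + 9 * [h ≠ 0]` one gets
`3 * #{p | h p = 0} ≤ 2 |Ω₁|`.
(c) Hence for `T = conds n e = 8 n 2^e` the number of `P : Fin T → Ω₁` that all miss `Z` is at most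
`(2/3)^T |Ω₁|^T`, and `9 * 4 ≤ ...`: `(2/3)^2 ≤ 1/2`, so `2 ^ (4 n 2^e) * #miss ≤ |Ω₁|^T`.
(d) If the function is not `RectFree` there is a rectangle `Zof i` of `2^e * 2^e = 4^e` points that
is missed (as in `rect'`, with `m = 2 ^ e`); there are at most `2 ^ (n + 2 n 2^e)` of them, so
`2 ^ (4 n 2^e) * #bad ≤ 2 ^ (n + 2 n 2^e) * |Ω|`.
(e) With `D = 4 ^ e = 2 E` and `s = 16 n / 2^e + 1` (so `16 n ≤ 2^e s`, `T ≤ E s`) the fraction of
`P` that a fixed point avoids is `(1 - 1/D)^T ≥ ((1 - 1/D)^E)^s ≥ (1/2)^s` (Bernoulli, see `Av.frac`).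
(f) If no `P` were good, then `2^n |Ω| 2^(-s) ≤ ∑_P acc P ≤ #bad 2^n + |Ω| 2^n 2^(-s-1)` (for
the `P` that are not bad `acc P < 2^(n-s-1)`), so `|Ω| ≤ 2^(s+1) #bad ≤ 2^(s + 1 + n - 2 n 2^e) |Ω|`,
a contradiction since `s + 1 + n < 2 n 2^e` for `2^e ≥ 4` (`16 n / 2^e ≤ 4 n`). -/
def S_HASH : Prop :=
  ∀ (n e : ℕ) (S : Type) [Fintype S] [Nonempty S] (H : S → (Fin n → Bool) → Fin (2 * e) → Bool),
    1 ≤ n → 2 ≤ e →
    (∀ z z' : Fin n → Bool, z ≠ z' →
      4 ^ e * (univ.filter fun σ => H σ z = H σ z').card ≤ 2 * Fintype.card S) →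
    ∃ P : Fin (conds n e) → S × (Fin (2 * e) → Bool),
      RectFree (fun x => decide (∀ t, H (P t).1 x ≠ (P t).2)) (2 ^ e) ∧
      2 ^ n ≤ 2 ^ (16 * n / 2 ^ e + 2) *
        (univ.filter fun x : Fin n → Bool => decide (∀ t, H (P t).1 x ≠ (P t).2) = true).card

/-- BLK (file Blk.lean): the lower bound for suitable conditions. -/
def S_BLK : Prop :=
  ∀ (k n L e a : ℕ) (W N : Type) [Fintype N] (G : NBP (W ⊕ (Fin L × Fin n)) N) (c : W → Bool)
    (g : (Fin n → Bool) → Bool), 1 ≤ k → (k + 1) ^ (260 * k) ≤ 2 ^ e → 2 ^ e ≤ n → 1 ≤ L →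
    RectFree g (2 ^ e) →
    2 ^ n ≤ 2 ^ (16 * n / 2 ^ e + 2) * (univ.filter fun x : Fin n → Bool => g x = true).card →
    AccessPatternsAt G c a → FewTestsAt G c (k * (n * L)) →
    (∀ b : Fin L × Fin n → Bool, G.Accepts (Sum.elim c b) ↔ ∀ l, g (fun j => b (l, j)) = true) →
    (2 : ℝ) ^ ((n : ℝ) / (k + 1) ^ (260 * k)) ≤ L * a * Fintype.card N

/-- LOW (file Low.lean): the lower bound for `hashF` and its complement. -/
def S_LOW : Prop :=
  ∀ (n e L k : ℕ) (β : Module.Basis (Fin (deg n e)) (ZMod 2) (GaloisField 2 (deg n e))), 1 ≤ L →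
    1 ≤ k → (k + 1) ^ (260 * k) ≤ 2 ^ e → 2 ^ e ≤ n →
    ∀ (Q : Type) [Fintype Q] (G : NBP (VarH n e L) Q) (a : ℕ),
      G.AccessPatterns a → G.FewTests (k * (n * L)) →
      (G.Computes (hashF β) ∨ G.Computes (fun v => !hashF β v)) →
      (2 : ℝ) ^ ((n : ℝ) / (k + 1) ^ (260 * k)) ≤ L * a * Fintype.card Q

/-- PPU (file Ppu.lean): `hashF` is in PP mode, by machines that read all cells once, in the same
order.

Proof. The order `σ`: all cells of the conditions, then all bits of points, then the polarity bit, then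
the digits of the threshold, the lowest first. State: the bits of `a`, `b`, `s`, an element of the
field, a bit (`2 ^ (3 h + 2 e + 1)` states). With `M = 2 ^ digs > Y = conds * L` there are
`2 M = 2 ^ (digs + 1)` programs: for each pair `q` of a condition and a point (`Y` of them) the program
that stores the bits of its condition, adds `a ^ j` to the field element when it reads a `1` in
`(l, j)`, compares the polarity bit and accepts iff (hash value = `s`) `≠` polarity; `M - Y`
programs that reject; and for each `e < M` the program that accepts iff the threshold is at most `e`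
(see `stpZ`, `progZ`, `fold_Z` in Pool/Agent/Lib_helper26/AC/PPT.lean). The number of accepting
programs is `cnt + (M - θ)`, which is more than `M` iff `θ < cnt` (`θ = binary z < M`). All programs
ignore (but read) the other cells. The member of `DecO` is the machine with `query t v = σ t`; its
state at time `N` is the fold over the list of the cells. -/
def S_PPU : Prop :=
  ∀ (n e L : ℕ) (β : Module.Basis (Fin (deg n e)) (ZMod 2) (GaloisField 2 (deg n e))),
    1 ≤ n → 1 ≤ L →
    ∃ (V : Type) (_ : Fintype V) (σ : Fin (Fintype.card (VarH n e L)) → VarH n e L),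
      Fintype.card V ≤ 2 ^ (3 * deg n e + 2 * e + 1) ∧ Function.Bijective σ ∧
      InPP (DecO (VarH n e L) V (Fintype.card (VarH n e L)) σ) (digs n e L + 1)
        (fun v => hashF β v = true)

/-- MACH (file Mac.lean): a machine whose guesses have no influence on the cells read is a
nondeterministic branching program with one access pattern.

Proof (see Pool/Agent/APH/Det.lean for the case without guesses). Nodes: `Option (Fin (T + 1) × V × V)`.
The first `V` is the state `v₀` of the run in which all guesses are `false`, it determines the test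
`query t v₀`; edges from `some (t, v₀, v)` to
`some (t + 1, M.next t v₀ e (fun _ => false), M.next t v e g)` labelled
`(query t v₀, e)` for every guess `g`; unlabelled edges from `some (T, v₀, v)` with `acc v` to the sink
`none`. For each input the tests of a walk from `(t, v₀, v)` are those of the deterministic run from
`v₀`, so they are determined by the end points: one access pattern. By the hypothesis of blindness the
real run with guesses `c` reads the same cells, so it is a walk, and conversely. -/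
def S_MACH : Prop :=
  ∀ (b T : ℕ) (W X V : Type) [Fintype V] (f : (W ⊕ X → Bool) → Bool),
    InNP b (W ⊕ X) V T (fun x => f x = true) →
    ∃ (Q : Type) (_ : Fintype Q) (G : NBP (W ⊕ X) Q), G.AccessPatterns 1 ∧ G.FewTests T ∧
      G.Computes f ∧ Fintype.card Q ≤ 2 * ((T + 1) * Fintype.card V ^ 2)

/-- NUM (file Nume.lean): the statement without parameters. `e = log n / r`, `L = 4 ^ e`.

Adapt Pool/Agent/APH/Num.lean (case of fixed exponents there). With `x = log n`, `y = log N`: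
`n 4^e ≤ N ≤ 2 n 4^e`, `n^(1/r) / 2 < 2^e ≤ n^(1/r)` give `N ≤ 2 n^(1 + 2/r)`, `x ≤ y ≤ 4 x`. Let
`z = log y`, `w = 2 c y / z`, `k = ⌈w⌉₊`: `(k + 1) ^ (260 k) ≤ 2 ^ e` since
`260 k log (k + 1) ≤ 260 (w + 1) z = 520 c y + 260 z ≤ x / r * (1/2)` for `c = 1 / (10000 r)` and large
`n`, and `n / (k + 1)^(260 k) ≥ n / 2 ^ e ≥ n^(1 - 1/r)`, while
`N ^ (1 - 4/r) ≤ (2 n ^ (1 + 2/r)) ^ (1 - 4/r) ≤ 2 n ^ (1 - 2/r)` (for `r < 4` the exponent
`1 - 4/r` is negative and the left side is at most `1`; `1 - 1/r > 0` only for `r ≥ 2`, hence the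
hypothesis `2 ≤ r`), so `8 log₂ N + 4 N^(1-4/r) ≤ n^(1-1/r)` for large `n`. -/
def S_NUM : Prop :=
  ∀ r : ℕ, 2 ≤ r → ∃ (c : ℝ) (n₀ : ℕ), 0 < c ∧ ∀ n ≥ n₀, ∀ N : ℕ,
    n * 4 ^ (Nat.log 2 n / r) ≤ N → N ≤ 2 * (n * 4 ^ (Nat.log 2 n / r)) →
    16 ≤ n ∧ 2 ≤ Nat.log 2 n / r ∧ ∃ k : ℕ, 1 ≤ k ∧ (k + 1) ^ (260 * k) ≤ 2 ^ (Nat.log 2 n / r) ∧
      (∀ T : ℕ, (T : ℝ) ≤ c * N * Real.log N / Real.log (Real.log N) →
        T ≤ k * (n * 4 ^ (Nat.log 2 n / r)) ∧ T + 1 ≤ N ^ 2) ∧
      (N : ℝ) ^ 8 * ((2 : ℝ) ^ ((N : ℝ) ^ (1 - 4 / r : ℝ))) ^ 4 ≤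
        (2 : ℝ) ^ ((n : ℝ) / (k + 1) ^ (260 * k))

/-- CARD (file Card.lean): the number of the variables, for `e = log n / r`, `L = 4 ^ e`.

Proof. `card = 8 n 2^e (2 h + 2 e) + (1 + digs) + n 4^e` with `h = log n + 1 + 2 e`,
`digs = log (8 n 2^e 4^e) + 1 ≤ log n + 3 e + 4`, `log n < r (e + 1)`. So it is enough that
`8 (2 r (e + 1) + 2 + 6 e) + (r (e + 1) + 3 e + 5) ≤ 2 ^ e`, true for large `e`, and `e → ∞`. -/
def S_CARD : Prop :=
  ∀ r : ℕ, 1 ≤ r → ∃ n₀ : ℕ, ∀ n ≥ n₀,
    n * 4 ^ (Nat.log 2 n / r) ≤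
      Fintype.card (VarH n (Nat.log 2 n / r) (4 ^ (Nat.log 2 n / r))) ∧
    Fintype.card (VarH n (Nat.log 2 n / r) (4 ^ (Nat.log 2 n / r))) ≤
      2 * (n * 4 ^ (Nat.log 2 n / r))

end Pool.Agent.HPM
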